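import Pool.Agent.H18.RM.Det

/-!
# Good scales

`GoodAt g X X' R T δ J`: the conditions at the scale `X` (next scale `X'`) which by `det` and `trans`
imply the law for all `Y` in `[X, X']` and all window lengths `H ≤ R`.
-/

set_option autoImplicit false

namespace Pool.Agent.H18.RM

open Finset MeasureTheory

def GoodAt (g : ℕ → ℂ) (X X' R T δ : ℝ) (J : ℕ) : Prop :=
  (∀ i : ℕ, (2 : ℝ) ^ i ≤ R →
      ∫ y in (X / 4)..(5 * X), ‖MC g y ((2 : ℝ) ^ i)‖ ^ 2 ≤ T ^ 2 * X * 2 ^ i) ∧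
  (∀ i j : ℕ, j < J → (2 : ℝ) ^ i * (1 + j / J) ≤ R →
      |IC g X (2 * X') ((2 : ℝ) ^ i * (1 + j / J)) -
        6 / Real.pi ^ 2 * ((2 : ℝ) ^ i * (1 + j / J)) * (2 * X' - X)|
        ≤ δ * X * ((2 : ℝ) ^ i * (1 + j / J))) ∧
  (∀ i j : ℕ, j < J → (2 : ℝ) ^ i * (1 + j / J) ≤ R →
      |IC g X' (2 * X) ((2 : ℝ) ^ i * (1 + j / J)) -
        6 / Real.pi ^ 2 * ((2 : ℝ) ^ i * (1 + j / J)) * (2 * X - X')|
        ≤ δ * X * ((2 : ℝ) ^ i * (1 + j / J)))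

theorem GoodAt.law {g : ℕ → ℂ} (hg : ∀ n, ‖g n‖ ≤ 1) {X X' R T δ τ : ℝ} {J : ℕ}
    (h : GoodAt g X X' R T δ J) (hX : 16 ≤ X) (hXX' : X ≤ X') (hτ : X' ≤ (1 + τ) * X)
    (hτ1 : τ ≤ 1 / 2) (hR : R ≤ X / 8) (hT : 8 ≤ T) (hJ : 1 ≤ J) (hδ0 : 0 ≤ δ) (hδ1 : δ ≤ 1)
    {Y H : ℝ} (hY : X ≤ Y) (hY' : Y ≤ X') (hH : 1 ≤ H) (hHR : H ≤ R) :
    |(1 / Y * IC g Y (2 * Y) H) / (H / (Real.pi ^ 2 / 6)) - 1| ≤
      2 * (δ + 60 * T ^ 2 / Real.sqrt J) + 6 * τ := by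
  obtain ⟨h1, h2, h3⟩ := h
  have hX0 : 0 < X := by linarith
  have hτ0 : 0 ≤ τ := by
    have h4 : X ≤ (1 + τ) * X := hXX'.trans hτ
    nlinarith
  have hX15 : X' ≤ (3 / 2) * X := by
    refine hτ.trans ?_
    exact mul_le_mul_of_nonneg_right (by linarith) hX0.le
  have hκ : 0 ≤ δ + 60 * T ^ 2 / Real.sqrt J := by positivity
  have e1 := det hg hX (U := X) (V := 2 * X') (by linarith) (by linarith) (by linarith) hR hT hJ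
    hδ0 hδ1 h1 h2 hH hHR
  have e2 := det hg hX (U := X') (V := 2 * X) (by linarith) (by linarith) (by linarith) hR hT hJ
    hδ0 hδ1 h1 h3 hH hHR
  exact trans hg (by linarith) hH hτ0 hτ1 hY hY' hτ hκ e1 e2

end Pool.Agent.H18.RM
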