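import Pool.Agent.H18.RM.ProbA
import Pool.Agent.H18.RM.Good

/-!
# The probability of a bad scale (random model)

Union bound with `prob_up` (at most `2 log X + 2` values of `i` with `2^i ≤ R ≤ X`) and `prob_dev`
(for the two intervals `[X, 2X']` and `[X', 2X]`, and all `i, j` with `2^i (1 + j/J) ≤ R`; for
given `i` there are at most `J` values of `j`, each window length is at most `2^(i+1)`, and
`∑_{2^i ≤ R} 2^(i+1) ≤ 4 R`).
-/

set_option autoImplicit false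

namespace Pool.Agent.H18.RM

open Finset MeasureTheory ProbabilityTheory

universe u

private theorem badA_pow_iff {R : ℝ} (hR : 1 ≤ R) (i : ℕ) :
    (2 : ℝ) ^ i ≤ R ↔ i ∈ range (Nat.log 2 ⌊R⌋₊ + 1) := by
  have hR0 : 0 ≤ R := by linarith
  have hm : ⌊R⌋₊ ≠ 0 := by
    have : 1 ≤ ⌊R⌋₊ := Nat.le_floor (by simpa using hR)
    omega
  rw [mem_range, Nat.lt_succ_iff, Nat.le_log_iff_pow_le (by norm_num) hm]
  constructor
  · intro h
    exact Nat.le_floor (by push_cast; exact h)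
  · intro h
    have h1 : ((2 ^ i : ℕ) : ℝ) ≤ (⌊R⌋₊ : ℝ) := by exact_mod_cast h
    push_cast at h1
    exact h1.trans (Nat.floor_le hR0)

private theorem badA_count {X R : ℝ} (hR : 1 ≤ R) (hRX : R ≤ X) :
    ((Nat.log 2 ⌊R⌋₊ + 1 : ℕ) : ℝ) ≤ 2 * Real.log X + 2 := by
  have h1 : (2 : ℝ) ^ (Nat.log 2 ⌊R⌋₊) ≤ R :=
    (badA_pow_iff hR _).2 (by rw [mem_range]; omega)
  have h2 : Real.log ((2 : ℝ) ^ (Nat.log 2 ⌊R⌋₊)) ≤ Real.log X :=
    Real.log_le_log (by positivity) (h1.trans hRX)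
  rw [Real.log_pow] at h2
  have h3 := Real.log_two_gt_d9
  have h4 : (0 : ℝ) ≤ (Nat.log 2 ⌊R⌋₊ : ℕ) := Nat.cast_nonneg _
  push_cast
  nlinarith

private theorem badA_geom {R : ℝ} (hR : 1 ≤ R) :
    ∑ i ∈ range (Nat.log 2 ⌊R⌋₊ + 1), (2 : ℝ) ^ (i + 1) ≤ 4 * R := by
  have h1 : (2 : ℝ) ^ (Nat.log 2 ⌊R⌋₊) ≤ R :=
    (badA_pow_iff hR _).2 (by rw [mem_range]; omega)
  have h2 : ∀ n : ℕ, ∑ i ∈ range n, (2 : ℝ) ^ (i + 1) = 2 * 2 ^ n - 2 := by
    intro n
    induction n with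
    | zero => norm_num
    | succ n ih => rw [sum_range_succ, ih]; ring
  rw [h2, pow_succ]
  linarith

private theorem badA_union {Ω : Type u} [MeasurableSpace Ω] (P : Measure Ω) (n0 J : ℕ)
    (S : ℕ → ℕ → Set Ω) (c : ℝ) (hc : 0 ≤ c) (R : ℝ)
    (hS : ∀ i ∈ range n0, ∀ j ∈ range J, P (S i j) ≤ ENNReal.ofReal (c * 2 ^ (i + 1)))
    (hg : ∑ i ∈ range n0, (2 : ℝ) ^ (i + 1) ≤ 4 * R) :
    P (⋃ i ∈ range n0, ⋃ j ∈ range J, S i j) ≤ ENNReal.ofReal (c * J * (4 * R)) := by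
  calc P (⋃ i ∈ range n0, ⋃ j ∈ range J, S i j)
      ≤ ∑ i ∈ range n0, P (⋃ j ∈ range J, S i j) := measure_biUnion_finset_le _ _
    _ ≤ ∑ i ∈ range n0, ∑ j ∈ range J, P (S i j) :=
        sum_le_sum fun i _ => measure_biUnion_finset_le _ _
    _ ≤ ∑ i ∈ range n0, ∑ j ∈ range J, ENNReal.ofReal (c * 2 ^ (i + 1)) :=
        sum_le_sum fun i hi => sum_le_sum fun j hj => hS i hi j hj
    _ = ENNReal.ofReal (∑ i ∈ range n0, ∑ j ∈ range J, c * 2 ^ (i + 1)) := by
        rw [ENNReal.ofReal_sum_of_nonneg (fun i _ => sum_nonneg fun j _ => by positivity)]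
        refine sum_congr rfl fun i _ => ?_
        rw [ENNReal.ofReal_sum_of_nonneg (fun j _ => by positivity)]
    _ ≤ ENNReal.ofReal (c * J * (4 * R)) := by
        apply ENNReal.ofReal_le_ofReal
        have h1 : ∑ i ∈ range n0, ∑ j ∈ range J, c * (2 : ℝ) ^ (i + 1) =
            c * J * ∑ i ∈ range n0, (2 : ℝ) ^ (i + 1) := by
          rw [mul_sum]
          refine sum_congr rfl fun i _ => ?_
          rw [sum_const, card_range, nsmul_eq_mul]
          ring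
        rw [h1]
        exact mul_le_mul_of_nonneg_left hg (by positivity)

theorem prob_bad : ∃ C : ℝ, 1 ≤ C ∧ ∀ (Ω : Type u) [MeasurableSpace Ω] (P : Measure Ω)
    [IsProbabilityMeasure P] (e : ℕ → Ω → ℝ), IsSigns P e → ∀ (X X' R T δ : ℝ) (J : ℕ), 32 ≤ X →
    X ≤ X' → X' ≤ 3 / 2 * X → 1 ≤ R → R ≤ X / 8 → 0 < T → 1 ≤ J →
    C * (1 / Real.sqrt X + R / X) ≤ δ →
    P {ω | ¬ GoodAt (fun n => (rmf e ω n : ℂ)) X X' R T δ J} ≤
      ENNReal.ofReal ((2 * Real.log X + 2) * (10 / T ^ 2) +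
        C * (1 + Real.log X) ^ 4 * J * R / (δ ^ 2 * X)) := by
  obtain ⟨C0, hC0, hdev⟩ := prob_dev.{u}
  refine ⟨8 * C0, by linarith, ?_⟩
  intro Ω _ P _ e he X X' R T δ J hX hXX' hX' hR hRX hT hJ hδ
  have hX0 : 0 < X := by linarith
  have hR0 : 0 < R := by linarith
  have hs : 0 < Real.sqrt X := Real.sqrt_pos.mpr hX0
  have hJ0 : (0 : ℝ) < J := by exact_mod_cast hJ
  have hlog : 0 ≤ Real.log X := Real.log_nonneg (by linarith)
  have hbr : 0 < 1 / Real.sqrt X + R / X := by positivity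
  have hδ0 : 0 < δ := lt_of_lt_of_le (by positivity) hδ
  have hδC : C0 * (1 / Real.sqrt X + R / X) ≤ δ := by
    refine le_trans ?_ hδ
    apply mul_le_mul_of_nonneg_right _ hbr.le
    linarith
  set n0 : ℕ := Nat.log 2 ⌊R⌋₊ + 1 with hn0
  set c : ℝ := C0 * (1 + Real.log X) ^ 4 / (δ ^ 2 * X) with hc
  have hc0 : 0 ≤ c := by positivity
  -- the events
  set A : ℕ → Set Ω := fun i => {ω | T ^ 2 * X * (2 : ℝ) ^ i <
    ∫ y in (X / 4)..(5 * X), ‖MC (fun n => (rmf e ω n : ℂ)) y ((2 : ℝ) ^ i)‖ ^ 2} with hA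
  set Bd : ℝ → ℝ → ℕ → ℕ → Set Ω := fun U V i j => {ω | (2 : ℝ) ^ i * (1 + j / J) ≤ R ∧
      δ * X * ((2 : ℝ) ^ i * (1 + j / J)) <
        |IC (fun n => (rmf e ω n : ℂ)) U V ((2 : ℝ) ^ i * (1 + j / J)) -
        6 / Real.pi ^ 2 * ((2 : ℝ) ^ i * (1 + j / J)) * (V - U)|} with hBd
  have hsub : {ω | ¬ GoodAt (fun n => (rmf e ω n : ℂ)) X X' R T δ J} ⊆
      (⋃ i ∈ range n0, A i) ∪ ((⋃ i ∈ range n0, ⋃ j ∈ range J, Bd X (2 * X') i j) ∪
        (⋃ i ∈ range n0, ⋃ j ∈ range J, Bd X' (2 * X) i j)) := by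
    intro ω hω
    rw [Set.mem_ofPred_eq] at hω
    by_contra hcon
    rw [Set.mem_union, Set.mem_union, not_or, not_or] at hcon
    obtain ⟨h1, h2, h3⟩ := hcon
    apply hω
    have hidx : ∀ i j : ℕ, (2 : ℝ) ^ i * (1 + j / J) ≤ R → i ∈ range n0 := by
      intro i j h
      refine (badA_pow_iff hR i).1 (le_trans ?_ h)
      have : (0 : ℝ) ≤ (j : ℝ) / J := by positivity
      nlinarith [show (0 : ℝ) < 2 ^ i by positivity]
    refine ⟨?_, ?_, ?_⟩
    · intro i hi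
      by_contra hlt
      rw [not_le] at hlt
      exact h1 (Set.mem_biUnion ((badA_pow_iff hR i).1 hi) hlt)
    · intro i j hj hij
      by_contra hlt
      rw [not_le] at hlt
      exact h2 (Set.mem_biUnion (hidx i j hij) (Set.mem_biUnion (mem_range.2 hj) ⟨hij, hlt⟩))
    · intro i j hj hij
      by_contra hlt
      rw [not_le] at hlt
      exact h3 (Set.mem_biUnion (hidx i j hij) (Set.mem_biUnion (mem_range.2 hj) ⟨hij, hlt⟩))
  -- the upper bounds
  have hPA : P (⋃ i ∈ range n0, A i) ≤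
      ENNReal.ofReal ((2 * Real.log X + 2) * (10 / T ^ 2)) := by
    calc P (⋃ i ∈ range n0, A i) ≤ ∑ i ∈ range n0, P (A i) := measure_biUnion_finset_le _ _
      _ ≤ ∑ i ∈ range n0, ENNReal.ofReal (10 / T ^ 2) := by
        refine sum_le_sum fun i hi => ?_
        have hi' : (2 : ℝ) ^ i ≤ R := (badA_pow_iff hR i).2 hi
        exact prob_up he hX (one_le_pow₀ (by norm_num)) (by linarith) hT
      _ = ENNReal.ofReal (n0 * (10 / T ^ 2)) := by
        rw [sum_const, card_range, nsmul_eq_mul, ENNReal.ofReal_mul (Nat.cast_nonneg _),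
          ENNReal.ofReal_natCast]
      _ ≤ _ := by
        apply ENNReal.ofReal_le_ofReal
        apply mul_le_mul_of_nonneg_right _ (by positivity)
        exact badA_count hR (by linarith)
  have hPB : ∀ U V : ℝ, X / 2 ≤ U → U ≤ V → V ≤ 4 * X →
      P (⋃ i ∈ range n0, ⋃ j ∈ range J, Bd U V i j) ≤ ENNReal.ofReal (c * J * (4 * R)) := by
    intro U V hU hUV hV
    refine badA_union P n0 J (Bd U V) c hc0 R ?_ (badA_geom hR)
    intro i hi j hj
    by_cases hij : (2 : ℝ) ^ i * (1 + j / J) ≤ R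
    · have hjJ : (j : ℝ) / J ≤ 1 := by
        rw [div_le_one hJ0]
        exact_mod_cast (mem_range.1 hj).le
      have hj0 : (0 : ℝ) ≤ (j : ℝ) / J := by positivity
      have h2i : (1 : ℝ) ≤ 2 ^ i := one_le_pow₀ (by norm_num)
      have hH1 : 1 ≤ (2 : ℝ) ^ i * (1 + j / J) := by nlinarith
      have hH2 : (2 : ℝ) ^ i * (1 + j / J) ≤ 2 ^ (i + 1) := by
        rw [pow_succ]; nlinarith
      have hmain := hdev Ω P e he X U V ((2 : ℝ) ^ i * (1 + j / J)) δ hX hU hUV hV hH1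
        (hij.trans hRX) (by
          refine le_trans ?_ hδC
          apply mul_le_mul_of_nonneg_left _ (by linarith)
          gcongr)
      calc P (Bd U V i j) ≤ P {ω | δ * X * ((2 : ℝ) ^ i * (1 + j / J)) <
            |IC (fun n => (rmf e ω n : ℂ)) U V ((2 : ℝ) ^ i * (1 + j / J)) -
            6 / Real.pi ^ 2 * ((2 : ℝ) ^ i * (1 + j / J)) * (V - U)|} :=
            measure_mono fun ω hω => hω.2
        _ ≤ ENNReal.ofReal (C0 * (1 + Real.log X) ^ 4 * ((2 : ℝ) ^ i * (1 + j / J)) /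
            (δ ^ 2 * X)) := hmain
        _ ≤ ENNReal.ofReal (c * 2 ^ (i + 1)) := by
          apply ENNReal.ofReal_le_ofReal
          rw [hc, div_mul_eq_mul_div]
          gcongr
    · have hemp : Bd U V i j = ∅ := by
        ext ω
        simp only [hBd, Set.mem_ofPred_eq, Set.mem_empty_iff_false, iff_false, not_and]
        intro h
        exact absurd h hij
      rw [hemp, measure_empty]
      exact bot_le
  have hfin : (2 * Real.log X + 2) * (10 / T ^ 2) + (c * J * (4 * R) + c * J * (4 * R)) =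
      (2 * Real.log X + 2) * (10 / T ^ 2) +
        8 * C0 * (1 + Real.log X) ^ 4 * J * R / (δ ^ 2 * X) := by
    rw [hc]; field_simp; ring
  calc P {ω | ¬ GoodAt (fun n => (rmf e ω n : ℂ)) X X' R T δ J}
      ≤ P ((⋃ i ∈ range n0, A i) ∪ ((⋃ i ∈ range n0, ⋃ j ∈ range J, Bd X (2 * X') i j) ∪
        (⋃ i ∈ range n0, ⋃ j ∈ range J, Bd X' (2 * X) i j))) := measure_mono hsub
    _ ≤ P (⋃ i ∈ range n0, A i) + (P (⋃ i ∈ range n0, ⋃ j ∈ range J, Bd X (2 * X') i j) +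
        P (⋃ i ∈ range n0, ⋃ j ∈ range J, Bd X' (2 * X) i j)) :=
        (measure_union_le _ _).trans (add_le_add le_rfl (measure_union_le _ _))
    _ ≤ ENNReal.ofReal ((2 * Real.log X + 2) * (10 / T ^ 2)) +
        (ENNReal.ofReal (c * J * (4 * R)) + ENNReal.ofReal (c * J * (4 * R))) :=
        add_le_add hPA (add_le_add (hPB _ _ (by linarith) (by linarith) (by linarith))
          (hPB _ _ (by linarith) (by linarith) (by linarith)))
    _ = _ := by
        rw [← ENNReal.ofReal_add (by positivity) (by positivity),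
          ← ENNReal.ofReal_add (by positivity) (by positivity), hfin]

end Pool.Agent.H18.RM
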