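import Pool.Agent.H18.RM.Defs

/-!
# Elementary facts about `MC` and `KC`
-/

set_option autoImplicit false

namespace Pool.Agent.H18.RM

open Finset MeasureTheory

theorem MC_eq_sum (g : ℕ → ℂ) {x H : ℝ} {N : ℕ} (hH : 0 < H) (hN : x + H ≤ N) :
    MC g x H = ∑ n ∈ range N, (if |(n : ℝ) - x| < H / 2 then g n else 0) := by
  unfold MC
  rw [← Finset.sum_filter]
  apply Finset.sum_congr _ (fun _ _ => rfl)
  ext n
  simp only [Finset.mem_filter, Finset.mem_range]
  constructor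
  · rintro ⟨-, h⟩
    refine ⟨?_, h⟩
    rw [abs_lt] at h
    have h1 : (n : ℝ) < N := by linarith
    exact_mod_cast h1
  · rintro ⟨-, h⟩
    refine ⟨?_, h⟩
    rw [abs_lt] at h
    have h1 : (n : ℝ) < x + H := by linarith
    have h2 : (n : ℝ) < ⌈x + H⌉₊ := lt_of_lt_of_le h1 (Nat.le_ceil _)
    have h3 : n < ⌈x + H⌉₊ := by exact_mod_cast h2
    omega

theorem measurable_MC (g : ℕ → ℂ) {H : ℝ} (hH : 0 < H) : Measurable (fun x => MC g x H) := by
  refine measurable_of_tendsto_metrizable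
    (f := fun (N : ℕ) (x : ℝ) => ∑ n ∈ range N, (if |(n : ℝ) - x| < H / 2 then g n else 0)) ?_ ?_
  · intro N
    refine Finset.measurable_sum _ (fun n _ => ?_)
    refine Measurable.ite ?_ measurable_const measurable_const
    exact measurableSet_lt (by fun_prop) measurable_const
  · rw [tendsto_pi_nhds]
    intro x
    refine tendsto_const_nhds.congr' ?_
    filter_upwards [Filter.eventually_ge_atTop ⌈x + H⌉₊] with N hN
    exact MC_eq_sum g hH (le_trans (Nat.le_ceil _) (by exact_mod_cast hN))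

/-- an open interval of length `H` contains at most `H + 1` integers -/
theorem norm_MC_le {g : ℕ → ℂ} (hg : ∀ n, ‖g n‖ ≤ 1) {H : ℝ} (hH : 0 < H) (x : ℝ) :
    ‖MC g x H‖ ≤ H + 1 := by
  have h1 : ‖MC g x H‖ ≤
      (((range (⌈x + H⌉₊ + 1)).filter (fun n : ℕ => |(n : ℝ) - x| < H / 2)).card : ℝ) := by
    unfold MC
    refine le_trans (norm_sum_le _ _) ?_
    refine le_trans (Finset.sum_le_sum (fun n _ => hg n)) ?_
    simp
  refine le_trans h1 ?_
  have h2 : ((range (⌈x + H⌉₊ + 1)).filter (fun n : ℕ => |(n : ℝ) - x| < H / 2)).card ≤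
      (Finset.Ioo ⌊x - H / 2⌋ ⌈x + H / 2⌉).card := by
    apply Finset.card_le_card_of_injOn (fun n : ℕ => (n : ℤ))
    · intro n hn
      rw [Finset.mem_coe, Finset.mem_filter, abs_lt] at hn
      rw [Finset.mem_coe, Finset.mem_Ioo]
      constructor
      · rw [Int.floor_lt]
        push_cast
        linarith [hn.2.1]
      · rw [Int.lt_ceil]
        push_cast
        linarith [hn.2.2]
    · intro a _ b _ h
      simpa using h
  rw [Int.card_Ioo] at h2
  have h3 : (((⌈x + H / 2⌉ - ⌊x - H / 2⌋ - 1).toNat : ℕ) : ℝ) ≤ H + 1 := by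
    rcases le_total (⌈x + H / 2⌉ - ⌊x - H / 2⌋ - 1) 0 with h4 | h4
    · rw [Int.toNat_of_nonpos h4]
      push_cast
      linarith
    · have h5 : (((⌈x + H / 2⌉ - ⌊x - H / 2⌋ - 1).toNat : ℕ) : ℝ)
          = ((⌈x + H / 2⌉ - ⌊x - H / 2⌋ - 1 : ℤ) : ℝ) := by
        have := Int.toNat_of_nonneg h4
        exact_mod_cast congrArg (fun z : ℤ => (z : ℝ)) this
      rw [h5]
      push_cast
      have h6 := Int.ceil_lt_add_one (x + H / 2)
      have h7 := Int.lt_floor_add_one (x - H / 2)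
      linarith
  have h8 : ((((range (⌈x + H⌉₊ + 1)).filter (fun n : ℕ => |(n : ℝ) - x| < H / 2)).card : ℕ) : ℝ)
      ≤ (((⌈x + H / 2⌉ - ⌊x - H / 2⌋ - 1).toNat : ℕ) : ℝ) := by exact_mod_cast h2
  linarith

theorem intervalIntegrable_MC {g : ℕ → ℂ} (hg : ∀ n, ‖g n‖ ≤ 1) {H : ℝ} (hH : 0 < H) (c U V : ℝ) :
    IntervalIntegrable (fun x => ‖MC g (x + c) H‖ ^ 2) volume U V := by
  rw [intervalIntegrable_iff]
  refine MeasureTheory.Measure.integrableOn_of_bounded (M := (H + 1) ^ 2) ?_ ?_ ?_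
  · rw [Real.volume_uIoc]
    exact ENNReal.ofReal_ne_top
  · have h1 : Measurable (fun x => ‖MC g (x + c) H‖ ^ 2) := by
      have h2 := (measurable_MC g hH).comp (measurable_id.add_const c)
      exact (h2.norm).pow_const 2
    exact h1.aestronglyMeasurable
  · refine Filter.Eventually.of_forall (fun x => ?_)
    rw [Real.norm_of_nonneg (by positivity)]
    exact pow_le_pow_left₀ (norm_nonneg _) (norm_MC_le hg hH _) 2

theorem KC_nonneg (U V H : ℝ) (n m : ℕ) : 0 ≤ KC U V H n m := le_max_left _ _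

theorem KC_comm (U V H : ℝ) (n m : ℕ) : KC U V H n m = KC U V H m n := by
  unfold KC
  rw [min_comm (n : ℝ) m, max_comm (n : ℝ) m]

theorem KC_le {U V H : ℝ} (hH : 0 ≤ H) (n m : ℕ) : KC U V H n m ≤ H := by
  unfold KC
  apply max_le hH
  have h1 : min V (min (n : ℝ) m + H / 2) ≤ min (n : ℝ) m + H / 2 := min_le_right _ _
  have h2 : max (n : ℝ) m - H / 2 ≤ max U (max (n : ℝ) m - H / 2) := le_max_right _ _
  have h3 : min (n : ℝ) m ≤ max (n : ℝ) m := min_le_max
  linarith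

theorem KC_eq_zero_of_far {U V H : ℝ} {n m : ℕ} (h : H ≤ |(n : ℝ) - m|) :
    KC U V H n m = 0 := by
  unfold KC
  apply max_eq_left
  have h1 : min V (min (n : ℝ) m + H / 2) ≤ min (n : ℝ) m + H / 2 := min_le_right _ _
  have h2 : max (n : ℝ) m - H / 2 ≤ max U (max (n : ℝ) m - H / 2) := le_max_right _ _
  have h3 : max (n : ℝ) m - min (n : ℝ) m = |(n : ℝ) - m| := max_sub_min_eq_abs' _ _
  linarith

theorem KC_eq_zero_of_le {U V H : ℝ} {n m : ℕ} (h : (n : ℝ) ≤ U - H / 2) :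
    KC U V H n m = 0 := by
  unfold KC
  apply max_eq_left
  have h1 : min V (min (n : ℝ) m + H / 2) ≤ min (n : ℝ) m + H / 2 := min_le_right _ _
  have h2 : U ≤ max U (max (n : ℝ) m - H / 2) := le_max_left _ _
  have h3 : min (n : ℝ) m ≤ n := min_le_left _ _
  linarith

theorem KC_eq_zero_of_ge {U V H : ℝ} {n m : ℕ} (h : V + H / 2 ≤ (n : ℝ)) :
    KC U V H n m = 0 := by
  unfold KC
  apply max_eq_left
  have h1 : min V (min (n : ℝ) m + H / 2) ≤ V := min_le_left _ _
  have h2 : max (n : ℝ) m - H / 2 ≤ max U (max (n : ℝ) m - H / 2) := le_max_right _ _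
  have h3 : (n : ℝ) ≤ max (n : ℝ) m := le_max_left _ _
  linarith

theorem KC_diag {U V H : ℝ} {n : ℕ} (hH : 0 ≤ H) (h1 : U + H / 2 ≤ (n : ℝ))
    (h2 : (n : ℝ) ≤ V - H / 2) : KC U V H n n = H := by
  unfold KC
  have e1 : min V ((n : ℝ) + H / 2) = n + H / 2 := min_eq_right (by linarith)
  have e2 : max U ((n : ℝ) - H / 2) = n - H / 2 := max_eq_right (by linarith)
  rw [min_self, max_self, e1, e2]
  have e3 : (n : ℝ) + H / 2 - (n - H / 2) = H := by ring
  rw [e3]
  exact max_eq_right hH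

end Pool.Agent.H18.RM
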