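import Pool.Agent.H18.RM.Mink

/-!
# Chaining over dyadic windows

`chain`: induction on `⌊η⌋`.  If `η < 1` use `int_short` (`V - U + 2 ≤ T²`).  If
`2^i ≤ η < 2^(i+1)`, write `η = 2^i + r`, use `MC_split` with `a = 2^i`, `b = r` at the point `x + c`,
`mink`, the hypothesis `h` for the first part (translate the variable: `|c - r/2| ≤ R`), the
induction hypothesis for the second one (`|c + 2^i/2| + r ≤ R`; if `r = 0` it is `0`), and
`√a + 3√r ≤ 3√(a+r)` for `0 ≤ r ≤ a`.

`chain_close`: `MC_split` twice: the window of length `H' + η` is the window of length `H'` and two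
windows of length `η/2` with centres `x ∓ (H'/2 + η/4)`; `2 * 3 T √(η/2) ≤ 5 T √η`.
-/

set_option autoImplicit false

namespace Pool.Agent.H18.RM

open Finset MeasureTheory

private theorem chain_ae (g : ℕ → ℂ) {a b : ℝ} (ha : 0 ≤ a) (hb : 0 ≤ b) (c : ℝ) :
    ∀ᵐ x : ℝ, MC g (x + c) (a + b) = MC g (x + (c - b / 2)) a + MC g (x + (c + a / 2)) b := by
  have h := (measurePreserving_add_right volume c).quasiMeasurePreserving.ae (MC_split g ha hb)
  filter_upwards [h] with x hx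
  rw [hx]
  congr 2
  · ring
  · ring

private theorem chain_first {g : ℕ → ℂ} (hg : ∀ n, ‖g n‖ ≤ 1) {U V R : ℝ} (hUV : U ≤ V)
    {a c B : ℝ} (ha : 0 < a) (hc : |c| ≤ R)
    (h : ∫ y in (U - R)..(V + R), ‖MC g y a‖ ^ 2 ≤ B) :
    ∫ x in U..V, ‖MC g (x + c) a‖ ^ 2 ≤ B := by
  have h1 : ∫ x in U..V, ‖MC g (x + c) a‖ ^ 2 = ∫ y in (U + c)..(V + c), ‖MC g y a‖ ^ 2 :=
    intervalIntegral.integral_comp_add_right (fun y => ‖MC g y a‖ ^ 2) c
  rw [h1]
  refine le_trans ?_ h
  have hc' := abs_le.1 hc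
  have hI : IntervalIntegrable (fun y => ‖MC g y a‖ ^ 2) volume (U - R) (V + R) := by
    have := intervalIntegrable_MC hg ha 0 (U - R) (V + R)
    simpa using this
  apply intervalIntegral.integral_mono_interval (by linarith [hc'.1]) (by linarith)
    (by linarith [hc'.2]) _ hI
  exact Filter.Eventually.of_forall (fun y => by positivity)

private theorem chain_sqrt {a r : ℝ} (hr : 0 ≤ r) (hra : r ≤ a) :
    Real.sqrt a + 3 * Real.sqrt r ≤ 3 * Real.sqrt (a + r) := by
  have ha : 0 ≤ a := le_trans hr hra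
  have h1 : Real.sqrt r ≤ Real.sqrt a := Real.sqrt_le_sqrt hra
  have h2 := Real.sq_sqrt ha
  have h3 := Real.sq_sqrt hr
  have h4 := Real.sqrt_nonneg a
  have h5 := Real.sqrt_nonneg r
  have h6 : (Real.sqrt a + 3 * Real.sqrt r) ^ 2 ≤ 9 * (a + r) := by
    nlinarith [mul_nonneg h4 (sub_nonneg.2 h1)]
  have h7 : 3 * Real.sqrt (a + r) = Real.sqrt (9 * (a + r)) := by
    rw [Real.sqrt_mul (by norm_num : (0 : ℝ) ≤ 9)]
    have : Real.sqrt (9 : ℝ) = 3 := by
      rw [show (9 : ℝ) = 3 ^ 2 by norm_num]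
      exact Real.sqrt_sq (by norm_num)
    rw [this]
  rw [h7]
  exact Real.le_sqrt_of_sq_le h6

private theorem chain_aux {g : ℕ → ℂ} (hg : ∀ n, ‖g n‖ ≤ 1) {U V R T : ℝ} (hUV : U ≤ V)
    (hT0 : 0 ≤ T) (hT : V - U + 2 ≤ T ^ 2)
    (h : ∀ i : ℕ, (2 : ℝ) ^ i ≤ R →
      ∫ y in (U - R)..(V + R), ‖MC g y ((2 : ℝ) ^ i)‖ ^ 2 ≤ T ^ 2 * 2 ^ i) (n : ℕ) :
    ∀ η c : ℝ, 0 < η → η < (2 : ℝ) ^ n → |c| + η ≤ R →
    Real.sqrt (∫ x in U..V, ‖MC g (x + c) η‖ ^ 2) ≤ 3 * T * Real.sqrt η := by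
  induction n with
  | zero =>
    intro η c hη h1 hc
    rw [pow_zero] at h1
    have h2 := int_short (c := c) hg hUV hη h1
    have h3 : ∫ x in U..V, ‖MC g (x + c) η‖ ^ 2 ≤ η * T ^ 2 :=
      le_trans h2 (mul_le_mul_of_nonneg_left hT hη.le)
    calc Real.sqrt (∫ x in U..V, ‖MC g (x + c) η‖ ^ 2) ≤ Real.sqrt (η * T ^ 2) :=
          Real.sqrt_le_sqrt h3
      _ = Real.sqrt η * T := by
          rw [Real.sqrt_mul hη.le, Real.sqrt_sq hT0]
      _ ≤ 3 * T * Real.sqrt η := by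
          nlinarith [mul_nonneg hT0 (Real.sqrt_nonneg η)]
  | succ i ih =>
    intro η c hη h1 hc
    by_cases hlt : η < (2 : ℝ) ^ i
    · exact ih η c hη hlt hc
    · push Not at hlt
      obtain ⟨r, hr⟩ : ∃ r, r = η - (2 : ℝ) ^ i := ⟨_, rfl⟩
      have hr0 : 0 ≤ r := by rw [hr]; linarith
      have hri : r < (2 : ℝ) ^ i := by
        rw [hr]
        have : (2 : ℝ) ^ (i + 1) = 2 * 2 ^ i := by ring
        rw [this] at h1
        linarith
      have hη' : η = (2 : ℝ) ^ i + r := by rw [hr]; ring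
      have h2i : (0 : ℝ) < (2 : ℝ) ^ i := by positivity
      have hiR : (2 : ℝ) ^ i ≤ R := by
        have := abs_nonneg c
        linarith
      have hc1 : |c - r / 2| ≤ R := by
        have := abs_sub c (r / 2)
        have h3 : |r / 2| = r / 2 := abs_of_nonneg (by linarith)
        rw [h3] at this
        linarith
      have hfirst : ∫ x in U..V, ‖MC g (x + (c - r / 2)) ((2 : ℝ) ^ i)‖ ^ 2 ≤ T ^ 2 * 2 ^ i :=
        chain_first hg hUV h2i hc1 (h i hiR)
      have hs1 : Real.sqrt (∫ x in U..V, ‖MC g (x + (c - r / 2)) ((2 : ℝ) ^ i)‖ ^ 2)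
          ≤ T * Real.sqrt ((2 : ℝ) ^ i) := by
        refine le_trans (Real.sqrt_le_sqrt hfirst) ?_
        rw [Real.sqrt_mul (by positivity), Real.sqrt_sq hT0]
      have hae := chain_ae g h2i.le hr0 c
      rcases eq_or_lt_of_le hr0 with hr00 | hrpos
      · have heq : ∫ x in U..V, ‖MC g (x + c) η‖ ^ 2
            = ∫ x in U..V, ‖MC g (x + (c - r / 2)) ((2 : ℝ) ^ i)‖ ^ 2 := by
          apply intervalIntegral.integral_congr
          intro x _
          have e1 : η = (2 : ℝ) ^ i := by rw [hη', ← hr00]; ring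
          have e2 : c - r / 2 = c := by rw [← hr00]; ring
          simp only [e2, e1]
        rw [heq]
        refine le_trans hs1 ?_
        have : Real.sqrt ((2 : ℝ) ^ i) ≤ Real.sqrt η := Real.sqrt_le_sqrt hlt
        nlinarith [mul_nonneg hT0 (Real.sqrt_nonneg η), mul_le_mul_of_nonneg_left this hT0]
      · have hc2 : |c + (2 : ℝ) ^ i / 2| + r ≤ R := by
          have := abs_add_le c ((2 : ℝ) ^ i / 2)
          have h3 : |(2 : ℝ) ^ i / 2| = (2 : ℝ) ^ i / 2 := abs_of_nonneg (by linarith)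
          rw [h3] at this
          linarith
        have hsec := ih r (c + (2 : ℝ) ^ i / 2) hrpos hri hc2
        have hm := mink (F := fun x => MC g (x + (c - r / 2)) ((2 : ℝ) ^ i))
          (G := fun x => MC g (x + (c + (2 : ℝ) ^ i / 2)) r) hUV
          ((measurable_MC g h2i).comp (measurable_id.add_const _))
          ((measurable_MC g hrpos).comp (measurable_id.add_const _))
          (intervalIntegrable_MC hg h2i _ _ _) (intervalIntegrable_MC hg hrpos _ _ _)
        have heq : ∫ x in U..V, ‖MC g (x + c) η‖ ^ 2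
            = ∫ x in U..V, ‖MC g (x + (c - r / 2)) ((2 : ℝ) ^ i)
                + MC g (x + (c + (2 : ℝ) ^ i / 2)) r‖ ^ 2 := by
          apply intervalIntegral.integral_congr_ae
          filter_upwards [hae] with x hx _
          rw [hη', hx]
        rw [heq]
        refine le_trans hm.2 ?_
        calc _ ≤ T * Real.sqrt ((2 : ℝ) ^ i) + 3 * T * Real.sqrt r := add_le_add hs1 hsec
          _ = T * (Real.sqrt ((2 : ℝ) ^ i) + 3 * Real.sqrt r) := by ring
          _ ≤ T * (3 * Real.sqrt ((2 : ℝ) ^ i + r)) :=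
              mul_le_mul_of_nonneg_left (chain_sqrt hr0 hri.le) hT0
          _ = 3 * T * Real.sqrt η := by rw [← hη']; ring

theorem chain {g : ℕ → ℂ} (hg : ∀ n, ‖g n‖ ≤ 1) {U V R T : ℝ} (hUV : U ≤ V) (hR : 0 ≤ R)
    (hT0 : 0 ≤ T) (hT : V - U + 2 ≤ T ^ 2)
    (h : ∀ i : ℕ, (2 : ℝ) ^ i ≤ R →
      ∫ y in (U - R)..(V + R), ‖MC g y ((2 : ℝ) ^ i)‖ ^ 2 ≤ T ^ 2 * 2 ^ i)
    {η c : ℝ} (hη : 0 < η) (hc : |c| + η ≤ R) :
    Real.sqrt (∫ x in U..V, ‖MC g (x + c) η‖ ^ 2) ≤ 3 * T * Real.sqrt η := by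
  obtain ⟨n, hn⟩ := pow_unbounded_of_one_lt η (by norm_num : (1 : ℝ) < 2)
  exact chain_aux hg hUV hT0 hT h n η c hη hn hc

theorem chain_close {g : ℕ → ℂ} (hg : ∀ n, ‖g n‖ ≤ 1) {U V R T : ℝ} (hUV : U ≤ V) (hR : 0 ≤ R)
    (hT0 : 0 ≤ T) (hT : V - U + 2 ≤ T ^ 2)
    (h : ∀ i : ℕ, (2 : ℝ) ^ i ≤ R →
      ∫ y in (U - R)..(V + R), ‖MC g y ((2 : ℝ) ^ i)‖ ^ 2 ≤ T ^ 2 * 2 ^ i)
    {H η : ℝ} (hH : 0 < H) (hη : 0 < η) (hc : H + η ≤ R) :
    |Real.sqrt (IC g U V (H + η)) - Real.sqrt (IC g U V H)| ≤ 5 * T * Real.sqrt η := by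
  have hη2 : 0 < η / 2 := by linarith
  obtain ⟨c, hcdef⟩ : ∃ c, c = H / 2 + η / 4 := ⟨_, rfl⟩
  have hcpos : 0 < c := by rw [hcdef]; linarith
  have hc1 : |(-c)| + η / 2 ≤ R := by
    rw [abs_neg, abs_of_pos hcpos, hcdef]; linarith
  have hc2 : |c| + η / 2 ≤ R := by
    rw [abs_of_pos hcpos, hcdef]; linarith
  have b1 := chain hg hUV hR hT0 hT h hη2 hc1
  have b2 := chain hg hUV hR hT0 hT h hη2 hc2
  have mm : ∀ d : ℝ, Measurable (fun x => MC g (x + d) (η / 2)) := fun d =>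
    (measurable_MC g hη2).comp (measurable_id.add_const _)
  have mH : Measurable (fun x => MC g x H) := measurable_MC g hH
  have mHη : Measurable (fun x => MC g x (H + η)) := measurable_MC g (by linarith)
  have iH : IntervalIntegrable (fun x => ‖MC g x H‖ ^ 2) volume U V := by
    have := intervalIntegrable_MC hg hH 0 U V
    simpa using this
  have iHη : IntervalIntegrable (fun x => ‖MC g x (H + η)‖ ^ 2) volume U V := by
    have := intervalIntegrable_MC hg (by linarith : 0 < H + η) 0 U V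
    simpa using this
  obtain ⟨iE, bE⟩ := mink (F := fun x => MC g (x + (-c)) (η / 2))
    (G := fun x => MC g (x + c) (η / 2)) hUV (mm _) (mm _)
    (intervalIntegrable_MC hg hη2 _ _ _) (intervalIntegrable_MC hg hη2 _ _ _)
  have hae : ∀ᵐ x : ℝ, MC g x (H + η) =
      MC g x H + (MC g (x + (-c)) (η / 2) + MC g (x + c) (η / 2)) := by
    have h1 := chain_ae g hη2.le (by linarith : 0 ≤ H + η / 2) 0
    have h2 := chain_ae g hH.le hη2.le (η / 4)
    filter_upwards [h1, h2] with x h1 h2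
    have e1 : x + 0 = x := by ring
    have e2 : η / 2 + (H + η / 2) = H + η := by ring
    have e3 : x + (0 - (H + η / 2) / 2) = x + (-c) := by rw [hcdef]; ring
    have e4 : x + (0 + η / 2 / 2) = x + η / 4 := by ring
    have e5 : x + (η / 4 - η / 2 / 2) = x := by ring
    have e6 : x + (η / 4 + H / 2) = x + c := by rw [hcdef]; ring
    rw [e1, e2, e3, e4, h2, e5, e6] at h1
    rw [h1]
    ring
  have hE : Real.sqrt (∫ x in U..V, ‖MC g (x + (-c)) (η / 2) + MC g (x + c) (η / 2)‖ ^ 2)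
      ≤ 5 * T * Real.sqrt η := by
    refine le_trans bE (le_trans (add_le_add b1 b2) ?_)
    have hs : Real.sqrt (η / 2) ≤ 5 / 6 * Real.sqrt η := by
      have h5 : 5 / 6 * Real.sqrt η = Real.sqrt ((5 / 6) ^ 2 * η) := by
        rw [Real.sqrt_mul (by positivity), Real.sqrt_sq (by norm_num)]
      rw [h5]
      apply Real.sqrt_le_sqrt
      nlinarith
    nlinarith [mul_le_mul_of_nonneg_left hs hT0]
  have key1 : Real.sqrt (IC g U V (H + η)) ≤ Real.sqrt (IC g U V H) + 5 * T * Real.sqrt η := by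
    have hm := (mink (F := fun x => MC g x H)
      (G := fun x => MC g (x + (-c)) (η / 2) + MC g (x + c) (η / 2)) hUV mH
      ((mm _).add (mm _)) iH iE).2
    have heq : IC g U V (H + η) = ∫ x in U..V, ‖MC g x H
        + (MC g (x + (-c)) (η / 2) + MC g (x + c) (η / 2))‖ ^ 2 := by
      unfold IC
      apply intervalIntegral.integral_congr_ae
      filter_upwards [hae] with x hx _
      rw [hx]
    rw [heq]
    refine le_trans hm ?_
    unfold IC
    linarith
  have key2 : Real.sqrt (IC g U V H) ≤ Real.sqrt (IC g U V (H + η)) + 5 * T * Real.sqrt η := by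
    have iE' : IntervalIntegrable
        (fun x => ‖-(MC g (x + (-c)) (η / 2) + MC g (x + c) (η / 2))‖ ^ 2) volume U V := by
      simpa only [norm_neg] using iE
    have hm := (mink (F := fun x => MC g x (H + η))
      (G := fun x => -(MC g (x + (-c)) (η / 2) + MC g (x + c) (η / 2))) hUV mHη
      ((mm _).add (mm _)).neg iHη iE').2
    have heq : IC g U V H = ∫ x in U..V, ‖MC g x (H + η)
        + -(MC g (x + (-c)) (η / 2) + MC g (x + c) (η / 2))‖ ^ 2 := by
      unfold IC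
      apply intervalIntegral.integral_congr_ae
      filter_upwards [hae] with x hx _
      rw [hx]
      ring_nf
    rw [heq]
    refine le_trans hm ?_
    simp only [norm_neg]
    unfold IC
    linarith
  rw [abs_sub_le_iff]
  constructor
  · linarith
  · linarith

end Pool.Agent.H18.RM
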