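import Pool.Agent.H18.RM.Defs

/-!
# Quadruples with `n m' ≡ n' m (mod q)`

`QQ Y h q` is the set of the quadruples `((n,m),(n',m'))` of numbers in `[Y, 20Y]` with `n ≠ m`,
`n' ≠ m'`, `|n - m| ≤ h`, `|n' - m'| ≤ h` and `n m' ≡ n' m (mod q)`.  Claim: for a prime `q > h`,
`#QQ ≤ C (Y h (1 + log h) + Y² h² / q)`.

Proof.  Put `u = m - n`, `v = m' - n'` (nonzero integers with `|u|, |v| ≤ h`), so that
`n m' - n' m = n v - n' u = k q` with `|k| q ≤ 40 Y h`.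

`k = 0`: `n v = n' u`.  With `g = gcd(n,|u|)`, `n = g n0`, `u = g u0` we get `n' = g' n0`, `v = g' u0`,
`g' ≥ 1`, and `g' ≤ 20Y/n0 = 20Y g/n ≤ 20 g`.  So the number of quadruples is at most
`∑_{u} ∑_{n ≤ 20Y} 20 gcd(n,|u|) ≤ 20 ∑_u ∑_{d ∣ u} d (20Y/d) = 400 Y ∑_u τ(|u|) ≤ 800 Y h (1 + log h)`.

`k ≠ 0`: `d = gcd(|u|,|v|) ≤ h < q` divides `k q`, hence `k`.  For given `u, v, k` the solutions
`(n, n')` of `n v - n' u = k q` in `[Y,20Y]²` are `(n0 + t u/d, n0' + t v/d)`, so their number is at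
most `1 + 19 Y d / max(|u|,|v|)`; the number of `k ≠ 0` divisible by `d` with `|k| ≤ 40Yh/q` is at
most `80 Y h/(q d)`.  So the number of quadruples is at most
`∑_{u,v} (80Yh/(qd)) (1 + 19Yd/max(|u|,|v|)) ≤ (80Yh/q) (4h² + 19 Y ∑_{u,v} 1/max(|u|,|v|))` and
`∑_{u,v} 1/max(|u|,|v|) ≤ 8h`; finally `h ≤ 20 Y` without loss of generality (there are no
quadruples with `|u| > 19Y`, so replace `h` by `min h (19Y)`).
-/

set_option autoImplicit false

namespace Pool.Agent.H18.RM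

open Finset

def QQ (Y h q : ℕ) : Finset ((ℕ × ℕ) × (ℕ × ℕ)) :=
  (((Icc Y (20 * Y)) ×ˢ (Icc Y (20 * Y))) ×ˢ ((Icc Y (20 * Y)) ×ˢ (Icc Y (20 * Y)))).filter
    (fun t => (t.1.1 ≠ t.1.2 ∧ t.2.1 ≠ t.2.2) ∧
      (|(t.1.1 : ℤ) - t.1.2| ≤ h ∧ |(t.2.1 : ℤ) - t.2.2| ≤ h) ∧
      t.1.1 * t.2.2 ≡ t.2.1 * t.1.2 [MOD q])

private noncomputable def PPq (Y q n : ℕ) (u : ℤ) : Finset (ℤ × ℕ) :=
  ((Icc (-|u|) |u|) ×ˢ (Icc Y (20 * Y))).filter
    (fun p => (q : ℤ) ∣ (n : ℤ) * p.1 - (p.2 : ℤ) * u)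

private theorem card_PPq (Y q n : ℕ) (u : ℤ) (hq : q.Prime) (_hn1 : Y ≤ n)
    (hn2 : n ≤ 20 * Y) (hY : 1 ≤ Y) (hu : u ≠ 0) (huq : |u| < q) :
    ((PPq Y q n u).card : ℝ) ≤ 3 * (Nat.gcd n u.natAbs : ℝ) + 240 * Y * |(u : ℝ)| / q := by
  classical
  set g : ℕ := Nat.gcd n u.natAbs with hg
  have hupos : 0 < u.natAbs := Int.natAbs_pos.2 hu
  have hgpos : 0 < g := Nat.gcd_pos_of_pos_right _ hupos
  obtain ⟨n0, hn0⟩ : g ∣ n := Nat.gcd_dvd_left _ _
  have hgu : (g : ℤ) ∣ u := Int.natCast_dvd.2 (Nat.gcd_dvd_right _ _)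
  obtain ⟨u0, hu0⟩ := hgu
  have hgz : (g : ℤ) ≠ 0 := by exact_mod_cast hgpos.ne'
  have hu0ne : u0 ≠ 0 := by
    rintro rfl
    exact hu (by rw [hu0]; ring)
  have hcop : IsCoprime u0 (n0 : ℤ) := by
    rw [Int.isCoprime_iff_gcd_eq_one, Int.gcd_comm]
    have h1 : g * Nat.gcd n0 u0.natAbs = g := by
      conv_rhs => rw [hg]
      have h2 : u.natAbs = g * u0.natAbs := by
        rw [hu0, Int.natAbs_mul, Int.natAbs_natCast]
      rw [h2]
      conv_rhs => rw [hn0]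
      rw [Nat.gcd_mul_left]
    have h3 : Nat.gcd n0 u0.natAbs = 1 := by
      have : g * Nat.gcd n0 u0.natAbs = g * 1 := by rw [h1, mul_one]
      exact Nat.eq_of_mul_eq_mul_left hgpos this
    simpa [Int.gcd] using h3
  have habs : |u| = (g : ℤ) * |u0| := by
    rw [hu0, abs_mul, Nat.abs_cast]
  have hu0pos : 0 < |u0| := abs_pos.2 hu0ne
  have hu0one : 1 ≤ |u0| := hu0pos
  have hqz : (0 : ℤ) < (q : ℤ) := by exact_mod_cast hq.pos
  have hgq : ¬ (q : ℤ) ∣ (g : ℤ) := by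
    intro hd
    have h1 : (q : ℤ) ≤ g := Int.le_of_dvd (by exact_mod_cast hgpos) hd
    have h2 : (g : ℤ) ≤ |u| := by
      rw [habs]; nlinarith [hgpos]
    omega
  have hqp : Prime (q : ℤ) := Nat.prime_iff_prime_int.1 hq
  have hkey : ∀ p : ℤ × ℕ, (q : ℤ) ∣ (n : ℤ) * p.1 - (p.2 : ℤ) * u →
      (q : ℤ) ∣ (n0 : ℤ) * p.1 - (p.2 : ℤ) * u0 := by
    intro p hp
    have h1 : (n : ℤ) * p.1 - (p.2 : ℤ) * u =
        (g : ℤ) * ((n0 : ℤ) * p.1 - (p.2 : ℤ) * u0) := by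
      have : (n : ℤ) = (g : ℤ) * (n0 : ℤ) := by exact_mod_cast hn0
      rw [this, hu0]; ring
    rw [h1] at hp
    exact (hqp.dvd_or_dvd hp).resolve_left hgq
  set K : ℤ := (40 * (Y : ℤ) * |u0|) / q with hK
  have hKnn : 0 ≤ K := Int.ediv_nonneg (by positivity) hqz.le
  have hmaps : ∀ p ∈ PPq Y q n u,
      ((((n0 : ℤ) * p.1 - (p.2 : ℤ) * u0) / q, p.1 / |u0|) : ℤ × ℤ) ∈
        (Icc (-K) K) ×ˢ (Icc (-(g : ℤ)) g) := by
    intro p hp
    rw [PPq, mem_filter, mem_product, mem_Icc, mem_Icc] at hp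
    obtain ⟨⟨⟨hp1, hp2⟩, hp3, hp4⟩, hp5⟩ := hp
    obtain ⟨k, hk⟩ := hkey p hp5
    have hbound : |(n0 : ℤ) * p.1 - (p.2 : ℤ) * u0| ≤ 40 * Y * |u0| := by
      have h1 : |(n0 : ℤ) * p.1 - (p.2 : ℤ) * u0| ≤ (n0 : ℤ) * |p.1| + (p.2 : ℤ) * |u0| := by
        refine (abs_sub _ _).trans ?_
        rw [abs_mul, abs_mul, Nat.abs_cast, Nat.abs_cast]
      have h2 : |p.1| ≤ |u| := abs_le.2 ⟨hp1, hp2⟩
      have h3 : (n0 : ℤ) * |p.1| ≤ 20 * Y * |u0| := by
        calc (n0 : ℤ) * |p.1| ≤ (n0 : ℤ) * ((g : ℤ) * |u0|) := by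
              rw [← habs]; exact mul_le_mul_of_nonneg_left h2 (by positivity)
          _ = ((g : ℤ) * n0) * |u0| := by ring
          _ = (n : ℤ) * |u0| := by
              have : (n : ℤ) = (g : ℤ) * (n0 : ℤ) := by exact_mod_cast hn0
              rw [this]
          _ ≤ 20 * Y * |u0| := by
              refine mul_le_mul_of_nonneg_right ?_ hu0pos.le
              exact_mod_cast hn2
      have h4 : (p.2 : ℤ) * |u0| ≤ 20 * Y * |u0| := by
        refine mul_le_mul_of_nonneg_right ?_ hu0pos.le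
        exact_mod_cast hp4
      linarith
    rw [mem_product, mem_Icc, mem_Icc]
    dsimp only
    rw [hk, Int.mul_ediv_cancel_left _ hqz.ne']
    have hkK : |k| ≤ K := by
      rw [hK]
      refine Int.le_ediv_of_mul_le hqz ?_
      rw [hk, abs_mul, Nat.abs_cast] at hbound
      linarith
    refine ⟨abs_le.1 hkK, ?_, ?_⟩
    · refine Int.le_ediv_of_mul_le hu0pos ?_
      rw [habs] at hp1
      linarith
    · refine Int.ediv_le_of_le_mul hu0pos ?_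
      rw [habs] at hp2
      linarith
  have hinj : ∀ p ∈ PPq Y q n u, ∀ p' ∈ PPq Y q n u,
      ((((n0 : ℤ) * p.1 - (p.2 : ℤ) * u0) / q, p.1 / |u0|) : ℤ × ℤ) =
        (((n0 : ℤ) * p'.1 - (p'.2 : ℤ) * u0) / q, p'.1 / |u0|) → p = p' := by
    intro p hp p' hp' he
    rw [PPq, mem_filter] at hp hp'
    obtain ⟨k, hk⟩ := hkey p hp.2
    obtain ⟨k', hk'⟩ := hkey p' hp'.2
    rw [hk, hk', Int.mul_ediv_cancel_left _ hqz.ne', Int.mul_ediv_cancel_left _ hqz.ne',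
      Prod.mk.injEq] at he
    obtain ⟨he1, he2⟩ := he
    rw [he1, ← hk'] at hk
    have h1 : (n0 : ℤ) * (p.1 - p'.1) = u0 * ((p.2 : ℤ) - p'.2) := by linarith
    have h2 : u0 ∣ p.1 - p'.1 := by
      have : u0 ∣ (n0 : ℤ) * (p.1 - p'.1) := ⟨_, h1⟩
      exact hcop.dvd_of_dvd_mul_left this
    have h3 : p.1 = p'.1 := by
      have e1 := Int.emod_add_mul_ediv p.1 |u0|
      have e2 := Int.emod_add_mul_ediv p'.1 |u0|
      have h4 : p.1 % |u0| = p'.1 % |u0| := by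
        have : |u0| ∣ p.1 - p'.1 := (abs_dvd _ _).2 h2
        exact ((Int.modEq_iff_dvd).2 this).symm
      rw [← e1, ← e2, he2, h4]
    have h5 : (p.2 : ℤ) = p'.2 := by
      rw [h3, sub_self, mul_zero] at h1
      rcases mul_eq_zero.1 h1.symm with h | h
      · exact absurd h hu0ne
      · linarith
    exact Prod.ext h3 (by exact_mod_cast h5)
  have hcard := card_le_card_of_injOn _ hmaps (fun p hp p' hp' he => hinj p hp p' hp' he)
  rw [card_product, Int.card_Icc, Int.card_Icc] at hcard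
  have hc1 : ((K + 1 - -K).toNat : ℝ) = 2 * (K : ℝ) + 1 := by
    have : ((K + 1 - -K).toNat : ℤ) = 2 * K + 1 := by
      rw [Int.toNat_of_nonneg (by linarith)]; ring
    exact_mod_cast this
  have hc2 : (((g : ℤ) + 1 - -(g : ℤ)).toNat : ℝ) = 2 * (g : ℝ) + 1 := by
    have : (((g : ℤ) + 1 - -(g : ℤ)).toNat : ℤ) = 2 * g + 1 := by
      rw [Int.toNat_of_nonneg (by omega)]; ring
    exact_mod_cast this
  have hcardR : ((PPq Y q n u).card : ℝ) ≤ (2 * (K : ℝ) + 1) * (2 * (g : ℝ) + 1) := by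
    rw [← hc1, ← hc2]
    exact_mod_cast hcard
  have hqR : (0 : ℝ) < q := by exact_mod_cast hq.pos
  have hKR : (K : ℝ) ≤ 40 * Y * |(u0 : ℝ)| / q := by
    rw [le_div_iff₀ hqR]
    have : K * q ≤ 40 * (Y : ℤ) * |u0| := Int.ediv_mul_le _ hqz.ne'
    exact_mod_cast this
  have hKR0 : (0 : ℝ) ≤ K := by exact_mod_cast hKnn
  have hg1 : (1 : ℝ) ≤ g := by exact_mod_cast hgpos
  have habsR : |(u : ℝ)| = (g : ℝ) * |(u0 : ℝ)| := by exact_mod_cast habs
  calc ((PPq Y q n u).card : ℝ) ≤ (2 * (K : ℝ) + 1) * (2 * (g : ℝ) + 1) := hcardR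
    _ ≤ (2 * (K : ℝ) + 1) * (3 * g) := by
        refine mul_le_mul_of_nonneg_left ?_ (by positivity)
        linarith
    _ ≤ (2 * (40 * Y * |(u0 : ℝ)| / q) + 1) * (3 * g) := by
        refine mul_le_mul_of_nonneg_right ?_ (by positivity)
        linarith
    _ = 3 * (g : ℝ) + 240 * Y * |(u : ℝ)| / q := by
        rw [habsR]; ring

private theorem sum_gcd (Y h : ℕ) (hh : 1 ≤ h) :
    ∑ n ∈ Icc 1 (20 * Y), ∑ u ∈ Icc 1 h, (Nat.gcd n u : ℝ) ≤
      20 * Y * h * (1 + Real.log h) := by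
  classical
  have h1 : ∀ n ∈ Icc 1 (20 * Y), ∀ u ∈ Icc 1 h, (Nat.gcd n u : ℝ) ≤
      ∑ d ∈ Icc 1 h, (d : ℝ) * ((if d ∣ n then 1 else 0) * (if d ∣ u then 1 else 0)) := by
    intro n hn u hu
    rw [mem_Icc] at hn hu
    have hmem : Nat.gcd n u ∈ Icc 1 h := by
      rw [mem_Icc]
      exact ⟨Nat.gcd_pos_of_pos_right _ (by omega),
        (Nat.gcd_le_right _ (by omega)).trans hu.2⟩
    refine le_trans ?_ (single_le_sum (f := fun d : ℕ => (d : ℝ) *
      ((if d ∣ n then 1 else 0) * (if d ∣ u then 1 else 0))) ?_ hmem)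
    · simp only [Nat.gcd_dvd_left, Nat.gcd_dvd_right, if_true, mul_one, le_refl]
    · intro d _
      have a1 : (0 : ℝ) ≤ (if d ∣ n then (1 : ℝ) else 0) := by split_ifs <;> norm_num
      have a2 : (0 : ℝ) ≤ (if d ∣ u then (1 : ℝ) else 0) := by split_ifs <;> norm_num
      positivity
  have hcnt : ∀ (N d : ℕ), 1 ≤ d → ∑ n ∈ Icc 1 N, (if d ∣ n then (1 : ℝ) else 0) ≤ N / d := by
    intro N d hd
    rw [← sum_filter, sum_const, nsmul_eq_mul, mul_one]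
    have h2 : ((Icc 1 N).filter (fun n => d ∣ n)).card = N / d := by
      have := Nat.Ioc_filter_dvd_card_eq_div N d
      rw [← this]
      congr 1
    rw [h2]
    exact Nat.cast_div_le
  calc ∑ n ∈ Icc 1 (20 * Y), ∑ u ∈ Icc 1 h, (Nat.gcd n u : ℝ)
      ≤ ∑ n ∈ Icc 1 (20 * Y), ∑ u ∈ Icc 1 h, ∑ d ∈ Icc 1 h, (d : ℝ) *
        ((if d ∣ n then 1 else 0) * (if d ∣ u then 1 else 0)) :=
        sum_le_sum fun n hn => sum_le_sum fun u hu => h1 n hn u hu
    _ = ∑ d ∈ Icc 1 h, (d : ℝ) * ((∑ n ∈ Icc 1 (20 * Y), (if d ∣ n then 1 else 0)) *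
          (∑ u ∈ Icc 1 h, (if d ∣ u then 1 else 0))) := by
        have e1 : ∀ n ∈ Icc 1 (20 * Y), ∑ u ∈ Icc 1 h, ∑ d ∈ Icc 1 h, (d : ℝ) *
            ((if d ∣ n then 1 else 0) * (if d ∣ u then 1 else 0)) =
            ∑ d ∈ Icc 1 h, ∑ u ∈ Icc 1 h, (d : ℝ) *
            ((if d ∣ n then 1 else 0) * (if d ∣ u then 1 else 0)) := fun n _ => sum_comm
        rw [sum_congr rfl e1, sum_comm]
        refine sum_congr rfl fun d _ => ?_
        rw [sum_mul_sum, mul_sum]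
        refine sum_congr rfl fun n _ => ?_
        rw [mul_sum]
    _ ≤ ∑ d ∈ Icc 1 h, 20 * Y * h * (1 / (d : ℝ)) := by
        refine sum_le_sum fun d hd => ?_
        rw [mem_Icc] at hd
        have hd0 : (0 : ℝ) < d := by exact_mod_cast hd.1
        have b1 := hcnt (20 * Y) d hd.1
        have b2 := hcnt h d hd.1
        have b0 : (0 : ℝ) ≤ ∑ u ∈ Icc 1 h, (if d ∣ u then (1 : ℝ) else 0) :=
          sum_nonneg fun u _ => by split_ifs <;> norm_num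
        calc (d : ℝ) * ((∑ n ∈ Icc 1 (20 * Y), (if d ∣ n then 1 else 0)) *
              (∑ u ∈ Icc 1 h, (if d ∣ u then 1 else 0)))
            ≤ (d : ℝ) * ((((20 * Y : ℕ) : ℝ) / d) * ((h : ℝ) / d)) := by
              refine mul_le_mul_of_nonneg_left ?_ hd0.le
              exact mul_le_mul b1 b2 b0 (by positivity)
          _ = 20 * Y * h * (1 / (d : ℝ)) := by
              push_cast
              field_simp
    _ = 20 * Y * h * ∑ d ∈ Icc 1 h, (1 / (d : ℝ)) := by rw [mul_sum]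
    _ ≤ 20 * Y * h * (1 + Real.log h) := by
        refine mul_le_mul_of_nonneg_left ?_ (by positivity)
        have h3 := harmonic_le_one_add_log h
        have h4 : (harmonic h : ℝ) = ∑ d ∈ Icc 1 h, (1 / (d : ℝ)) := by
          rw [harmonic_eq_sum_Icc]
          push_cast
          refine sum_congr rfl fun d _ => ?_
          rw [one_div]
        rw [← h4]
        exact h3

private theorem sum_sym (h : ℕ) (f : ℕ → ℝ) (hf : ∀ j, 0 ≤ f j) :
    ∑ u ∈ (Icc (-(h : ℤ)) h).filter (fun u => u ≠ 0), f u.natAbs ≤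
      2 * ∑ j ∈ Icc 1 h, f j := by
  classical
  have hm : ∀ u ∈ (Icc (-(h : ℤ)) h).filter (fun u => u ≠ 0), u.natAbs ∈ Icc 1 h := by
    intro u hu
    rw [mem_filter, mem_Icc] at hu
    rw [mem_Icc]
    omega
  rw [← sum_fiberwise_of_maps_to hm, mul_sum]
  refine sum_le_sum fun j hj => ?_
  have h1 : ∑ u ∈ ((Icc (-(h : ℤ)) h).filter (fun u => u ≠ 0)).filter
      (fun u => u.natAbs = j), f u.natAbs =
      ∑ u ∈ ((Icc (-(h : ℤ)) h).filter (fun u => u ≠ 0)).filter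
      (fun u => u.natAbs = j), f j := by
    refine sum_congr rfl fun u hu => ?_
    rw [(mem_filter.1 hu).2]
  rw [h1, sum_const, nsmul_eq_mul]
  refine mul_le_mul_of_nonneg_right ?_ (hf j)
  have h2 : (((Icc (-(h : ℤ)) h).filter (fun u => u ≠ 0)).filter
      (fun u => u.natAbs = j)) ⊆ {(j : ℤ), -(j : ℤ)} := by
    intro u hu
    have := (mem_filter.1 hu).2
    rw [mem_insert, mem_singleton]
    omega
  have h3 := (card_le_card h2).trans card_le_two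
  exact_mod_cast h3

theorem card_QQ : ∃ C : ℝ, 0 < C ∧ ∀ Y h q : ℕ, 1 ≤ Y → 1 ≤ h → q.Prime → h < q →
    ((QQ Y h q).card : ℝ) ≤
      C * (Y * h * (1 + Real.log h) + (Y : ℝ) ^ 2 * (h : ℝ) ^ 2 / q) := by
  classical
  refine ⟨40000, by norm_num, ?_⟩
  intro Y h q hY hh hq hhq
  have hqR : (0 : ℝ) < q := by exact_mod_cast hq.pos
  set A : Finset ((ℕ × ℕ) × (ℕ × ℕ)) := (QQ Y h q).filter
    (fun t => |(t.2.2 : ℤ) - t.2.1| ≤ |(t.1.2 : ℤ) - t.1.1|) with hA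
  set B : Finset ((ℕ × ℕ) × (ℕ × ℕ)) := (QQ Y h q).filter
    (fun t => ¬ |(t.2.2 : ℤ) - t.2.1| ≤ |(t.1.2 : ℤ) - t.1.1|) with hB
  have hBA : B.card ≤ A.card := by
    refine card_le_card_of_injOn Prod.swap ?_ (Prod.swap_injective.injOn)
    intro t ht
    have ht' := (mem_filter.1 (mem_coe.1 ht))
    obtain ⟨ht1, ht2⟩ := ht'
    rw [QQ, mem_filter, mem_product] at ht1
    obtain ⟨⟨ha, hb⟩, hne, habs, hmod⟩ := ht1
    rw [mem_coe, hA, mem_filter, QQ, mem_filter, mem_product]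
    refine ⟨⟨⟨hb, ha⟩, hne.symm, habs.symm, ?_⟩, ?_⟩
    · exact hmod.symm
    · exact (not_le.1 ht2).le
  have hsplit : (QQ Y h q).card = A.card + B.card := by
    rw [hA, hB, card_filter_add_card_filter_not]
  have hAcard : A.card ≤ ∑ n ∈ Icc 1 (20 * Y),
      ∑ u ∈ (Icc (-(h : ℤ)) h).filter (fun u => u ≠ 0),
        (if Y ≤ n then (PPq Y q n u).card else 0) := by
    have h1 : A.card ≤ (((Icc Y (20 * Y)) ×ˢ
        ((Icc (-(h : ℤ)) h).filter (fun u => u ≠ 0))).sigma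
          (fun x => PPq Y q x.1 x.2)).card := by
      refine card_le_card_of_injOn
        (fun t => (⟨(t.1.1, (t.1.2 : ℤ) - t.1.1), ((t.2.2 : ℤ) - t.2.1, t.2.1)⟩ :
          (Σ _ : ℕ × ℤ, ℤ × ℕ))) ?_ ?_
      · intro t ht
        rw [mem_coe, hA, mem_filter, QQ, mem_filter, mem_product, mem_product, mem_product,
          mem_Icc, mem_Icc, mem_Icc, mem_Icc] at ht
        obtain ⟨⟨⟨⟨ha, hb⟩, hc, hd⟩, hne, habs, hmod⟩, hle⟩ := ht
        rw [mem_coe, mem_sigma, mem_product, mem_filter, mem_Icc, mem_Icc, PPq, mem_filter,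
          mem_product, mem_Icc, mem_Icc]
        dsimp only
        have hab := abs_le.1 habs.1
        refine ⟨⟨ha, ⟨⟨by linarith [hab.2], by linarith [hab.1]⟩, ?_⟩⟩, ⟨abs_le.1 hle, hc⟩, ?_⟩
        · intro h0
          apply hne.1
          omega
        · have h2 : (t.1.1 : ℤ) * ((t.2.2 : ℤ) - t.2.1) - (t.2.1 : ℤ) * ((t.1.2 : ℤ) - t.1.1) =
              ((t.1.1 * t.2.2 : ℕ) : ℤ) - ((t.2.1 * t.1.2 : ℕ) : ℤ) := by
            push_cast; ring
          rw [h2]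
          exact (Nat.modEq_iff_dvd.1 hmod.symm)
      · intro t ht t' ht' he
        dsimp only at he
        rw [Sigma.mk.injEq] at he
        obtain ⟨he1, he2⟩ := he
        have he2' := eq_of_heq he2
        rw [Prod.mk.injEq] at he1 he2'
        obtain ⟨e1, e2⟩ := he1
        obtain ⟨e3, e4⟩ := he2'
        refine Prod.ext (Prod.ext e1 ?_) (Prod.ext e4 ?_)
        · omega
        · omega
    refine h1.trans ?_
    rw [card_sigma, sum_product]
    calc ∑ x ∈ Icc Y (20 * Y), ∑ y ∈ (Icc (-(h : ℤ)) h).filter (fun u => u ≠ 0),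
          (PPq Y q x y).card
        = ∑ x ∈ Icc Y (20 * Y), ∑ y ∈ (Icc (-(h : ℤ)) h).filter (fun u => u ≠ 0),
          (if Y ≤ x then (PPq Y q x y).card else 0) := by
          refine sum_congr rfl fun x hx => sum_congr rfl fun y _ => ?_
          rw [if_pos (mem_Icc.1 hx).1]
      _ ≤ _ := by
          refine sum_le_sum_of_subset ?_
          intro x hx
          rw [mem_Icc] at hx ⊢
          omega
  have hArR : (A.card : ℝ) ≤ ∑ n ∈ Icc 1 (20 * Y),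
      ∑ u ∈ (Icc (-(h : ℤ)) h).filter (fun u => u ≠ 0),
        (3 * (Nat.gcd n u.natAbs : ℝ) + 240 * Y * (u.natAbs : ℝ) / q) := by
    have h1 : (A.card : ℝ) ≤ ((∑ n ∈ Icc 1 (20 * Y),
      ∑ u ∈ (Icc (-(h : ℤ)) h).filter (fun u => u ≠ 0),
        (if Y ≤ n then (PPq Y q n u).card else 0) : ℕ) : ℝ) := by exact_mod_cast hAcard
    refine h1.trans ?_
    push_cast
    refine sum_le_sum fun n hn => sum_le_sum fun u hu => ?_
    rw [mem_Icc] at hn
    rw [mem_filter, mem_Icc] at hu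
    have hcast : (u.natAbs : ℝ) = |(u : ℝ)| := by
      rw [Nat.cast_natAbs, Int.cast_abs]
    split_ifs with hYn
    · rw [hcast]
      refine card_PPq Y q n u hq hYn hn.2 hY hu.2 ?_
      have : |u| ≤ h := abs_le.2 hu.1
      have h2 : (h : ℤ) < q := by exact_mod_cast hhq
      linarith
    · positivity
  have hArR2 : (A.card : ℝ) ≤ ∑ n ∈ Icc 1 (20 * Y), (2 * ∑ j ∈ Icc 1 h,
        (3 * (Nat.gcd n j : ℝ) + 240 * Y * (j : ℝ) / q)) := by
    refine hArR.trans (sum_le_sum fun n _ => ?_)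
    exact sum_sym h (fun j => 3 * (Nat.gcd n j : ℝ) + 240 * Y * (j : ℝ) / q)
      (fun j => by positivity)
  have hArR3 : (A.card : ℝ) ≤ 120 * (Y * h * (1 + Real.log h)) +
      9600 * ((Y : ℝ) ^ 2 * (h : ℝ) ^ 2 / q) := by
    refine hArR2.trans ?_
    have e1 : ∑ n ∈ Icc 1 (20 * Y), (2 * ∑ j ∈ Icc 1 h,
        (3 * (Nat.gcd n j : ℝ) + 240 * Y * (j : ℝ) / q)) =
        6 * (∑ n ∈ Icc 1 (20 * Y), ∑ j ∈ Icc 1 h, (Nat.gcd n j : ℝ)) +
        ∑ n ∈ Icc 1 (20 * Y), 480 * Y / q * ∑ j ∈ Icc 1 h, (j : ℝ) := by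
      rw [mul_sum, ← sum_add_distrib]
      refine sum_congr rfl fun n _ => ?_
      rw [sum_add_distrib, ← mul_sum]
      have : ∑ j ∈ Icc 1 h, 240 * (Y : ℝ) * (j : ℝ) / q =
          240 * Y / q * ∑ j ∈ Icc 1 h, (j : ℝ) := by
        rw [mul_sum]
        refine sum_congr rfl fun j _ => ?_
        ring
      rw [this]
      ring
    rw [e1]
    have e2 := sum_gcd Y h hh
    have e3 : ∑ j ∈ Icc 1 h, (j : ℝ) ≤ (h : ℝ) ^ 2 := by
      calc ∑ j ∈ Icc 1 h, (j : ℝ) ≤ ∑ j ∈ Icc 1 h, (h : ℝ) := by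
            refine sum_le_sum fun j hj => ?_
            exact_mod_cast (mem_Icc.1 hj).2
        _ = (h : ℝ) ^ 2 := by
            rw [sum_const, Nat.card_Icc, nsmul_eq_mul]
            simp; ring
    have e4 : ∑ n ∈ Icc 1 (20 * Y), 480 * (Y : ℝ) / q * ∑ j ∈ Icc 1 h, (j : ℝ) ≤
        9600 * ((Y : ℝ) ^ 2 * (h : ℝ) ^ 2 / q) := by
      rw [sum_const, Nat.card_Icc, nsmul_eq_mul]
      have : ((20 * Y + 1 - 1 : ℕ) : ℝ) = 20 * Y := by
        rw [Nat.add_sub_cancel]; push_cast; ring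
      rw [this]
      calc 20 * (Y : ℝ) * (480 * Y / q * ∑ j ∈ Icc 1 h, (j : ℝ))
          ≤ 20 * (Y : ℝ) * (480 * Y / q * (h : ℝ) ^ 2) := by
            refine mul_le_mul_of_nonneg_left ?_ (by positivity)
            exact mul_le_mul_of_nonneg_left e3 (by positivity)
        _ = 9600 * ((Y : ℝ) ^ 2 * (h : ℝ) ^ 2 / q) := by ring
    nlinarith [e2, e4]
  have hfin : ((QQ Y h q).card : ℝ) ≤ 2 * (A.card : ℝ) := by
    have : (QQ Y h q).card ≤ 2 * A.card := by omega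
    exact_mod_cast this
  have hlog : 0 ≤ Real.log h := Real.log_nonneg (by exact_mod_cast hh)
  have p1 : (0 : ℝ) ≤ Y * h * (1 + Real.log h) := by positivity
  have p2 : (0 : ℝ) ≤ (Y : ℝ) ^ 2 * (h : ℝ) ^ 2 / q := by positivity
  nlinarith [hfin, hArR3, p1, p2]

end Pool.Agent.H18.RM
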