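import Pool.Agent.H18.RM.Defs

/-!
# Counting squarefree numbers

`#{n < N : n squarefree} = (6/π²) N + O(√N)`.  Proof: the indicator of squarefree numbers is
`∑_{d² ∣ n} μ(d)`, hence the count is `∑_{d ≤ √N} μ(d) ⌊(N-1)/d²⌋ = N ∑_{d ≤ √N} μ(d)/d² + O(√N)`,
the tail `∑_{d > √N} 1/d²` is `O(1/√N)`, and `∑ μ(d)/d² = 1/ζ(2) = 6/π²` (in Mathlib:
`ArithmeticFunction.LSeries_zeta_mul_Lseries_moebius`, `riemannZeta_two`).
-/

set_option autoImplicit false

namespace Pool.Agent.H18.RM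

open Finset

/-- `d² ∣ b² a` with `a` squarefree means `d ∣ b` -/
private theorem sqf_dvd {a b d : ℕ} (ha : Squarefree a) (hb : 0 < b) :
    d ^ 2 ∣ b ^ 2 * a ↔ d ∣ b := by
  constructor
  · intro h
    have ha0 : a ≠ 0 := ha.ne_zero
    have hn0 : b ^ 2 * a ≠ 0 := mul_ne_zero (pow_ne_zero 2 hb.ne') ha0
    have hd0 : d ≠ 0 := by
      rintro rfl
      rw [zero_pow (by norm_num)] at h
      exact hn0 (Nat.eq_zero_of_zero_dvd h)
    rw [← Nat.factorization_le_iff_dvd hd0 hb.ne']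
    rw [← Nat.factorization_le_iff_dvd (pow_ne_zero 2 hd0) hn0] at h
    intro p
    have h1 := h p
    rw [Nat.factorization_mul (pow_ne_zero 2 hb.ne') ha0, Nat.factorization_pow,
      Nat.factorization_pow] at h1
    simp only [Finsupp.coe_add, Finsupp.coe_smul, Pi.add_apply, Pi.smul_apply, smul_eq_mul] at h1
    have h2 : a.factorization p ≤ 1 := ha.natFactorization_le_one p
    omega
  · intro h
    exact Dvd.dvd.mul_right (pow_dvd_pow_of_dvd h 2) a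

private theorem sqf_moebius_sum (n : ℕ) :
    ∑ d ∈ n.divisors, (ArithmeticFunction.moebius d : ℤ) = if n = 1 then 1 else 0 := by
  rw [← ArithmeticFunction.coe_mul_zeta_apply, ArithmeticFunction.moebius_mul_coe_zeta,
    ArithmeticFunction.one_apply]

/-- the indicator of the squarefree numbers -/
private theorem sqf_ind {n D : ℕ} (hn : 0 < n) (hD : ∀ d : ℕ, d ^ 2 ∣ n → d ≤ D) :
    ∑ d ∈ Icc 1 D, (if d ^ 2 ∣ n then (ArithmeticFunction.moebius d : ℤ) else 0) =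
      if Squarefree n then 1 else 0 := by
  obtain ⟨a, b, ha0, hb0, hab, ha⟩ := Nat.sq_mul_squarefree_of_pos hn
  have h1 : ∀ d, d ^ 2 ∣ n ↔ d ∣ b := by
    intro d
    rw [← hab]
    exact sqf_dvd ha hb0
  rw [← sum_filter]
  have h2 : (Icc 1 D).filter (fun d => d ^ 2 ∣ n) = b.divisors := by
    ext d
    rw [mem_filter, Nat.mem_divisors, h1, mem_Icc]
    constructor
    · rintro ⟨_, h⟩
      exact ⟨h, hb0.ne'⟩
    · rintro ⟨h, _⟩
      refine ⟨⟨Nat.pos_of_dvd_of_pos h hb0, hD d ((h1 d).2 h)⟩, h⟩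
  rw [h2, sqf_moebius_sum]
  have h3 : b = 1 ↔ Squarefree n := by
    constructor
    · intro h
      rw [← hab, h, one_pow, one_mul]
      exact ha
    · intro h
      have h4 : b * b ∣ n := by
        rw [← hab, pow_two]
        exact dvd_mul_right _ _
      exact Nat.isUnit_iff.1 (h b h4)
  simp only [h3]

private theorem sqf_card_dvd (n d : ℕ) : ((Icc 1 n).filter (fun x => d ∣ x)).card = n / d := by
  rw [← Nat.Ioc_filter_dvd_card_eq_div]
  congr 1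

private theorem sqf_count_eq (n : ℕ) :
    (((range (n + 1)).filter Squarefree).card : ℤ) =
      ∑ d ∈ Icc 1 (Nat.sqrt (n + 1)), (ArithmeticFunction.moebius d : ℤ) * ((n / d ^ 2 : ℕ) : ℤ) := by
  have h1 : (range (n + 1)).filter Squarefree = (Icc 1 n).filter Squarefree := by
    ext x
    rw [mem_filter, mem_filter, mem_range, mem_Icc]
    constructor
    · rintro ⟨h, hx⟩
      have := hx.ne_zero
      exact ⟨by omega, hx⟩
    · rintro ⟨h, hx⟩
      exact ⟨by omega, hx⟩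
  rw [h1, card_filter]
  push_cast
  have h2 : ∀ x ∈ Icc 1 n, (if Squarefree x then (1 : ℤ) else 0) =
      ∑ d ∈ Icc 1 (Nat.sqrt (n + 1)), (if d ^ 2 ∣ x then (ArithmeticFunction.moebius d : ℤ) else 0) := by
    intro x hx
    rw [mem_Icc] at hx
    rw [sqf_ind (by omega)]
    intro d hd
    have h3 : d ^ 2 ≤ x := Nat.le_of_dvd (by omega) hd
    rw [Nat.le_sqrt]
    nlinarith
  rw [sum_congr rfl h2, sum_comm]
  refine sum_congr rfl fun d _ => ?_
  rw [← sum_filter, sum_const, nsmul_eq_mul, mul_comm]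
  congr 1
  rw [sqf_card_dvd]
  push_cast
  rfl

/-- the series `∑ μ(d)/d²` -/
private theorem sqf_hasSum :
    HasSum (fun d : ℕ => (ArithmeticFunction.moebius d : ℝ) / (d : ℝ) ^ 2) (6 / Real.pi ^ 2) := by
  have hs : 1 < (2 : ℂ).re := by norm_num
  have h1 := ArithmeticFunction.LSeriesSummable_moebius_iff.2 hs
  have h2 := ArithmeticFunction.LSeries_zeta_mul_Lseries_moebius hs
  rw [ArithmeticFunction.LSeries_zeta_eq_riemannZeta hs, riemannZeta_two] at h2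
  have hpi : (Real.pi : ℂ) ≠ 0 := by exact_mod_cast Real.pi_ne_zero
  have h3 : LSeries (fun n => (ArithmeticFunction.moebius n : ℂ)) 2 = ((6 / Real.pi ^ 2 : ℝ) : ℂ) := by
    push_cast
    field_simp at h2 ⊢
    linear_combination h2
  have h4 := h1.hasSum
  have h5 : HasSum (fun d : ℕ => (((ArithmeticFunction.moebius d : ℝ) / (d : ℝ) ^ 2 : ℝ) : ℂ))
      ((6 / Real.pi ^ 2 : ℝ) : ℂ) := by
    rw [← h3]
    unfold LSeries
    convert h4 using 1
    funext d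
    rcases eq_or_ne d 0 with rfl | hd
    · simp
    · rw [LSeries.term_of_ne_zero hd]
      push_cast
      norm_cast
  exact_mod_cast h5

private theorem sqf_abs_moebius (d : ℕ) : |(ArithmeticFunction.moebius d : ℝ)| ≤ 1 := by
  have h := ArithmeticFunction.abs_moebius_le_one (n := d)
  exact_mod_cast h

/-- the tail -/
private theorem sqf_tail (D : ℕ) (hD : 1 ≤ D) :
    |6 / Real.pi ^ 2 - ∑ d ∈ Icc 1 D, (ArithmeticFunction.moebius d : ℝ) / (d : ℝ) ^ 2| ≤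
      1 / (D : ℝ) := by
  have h1 := sqf_hasSum.tendsto_sum_nat
  have h2 : Filter.Tendsto (fun M : ℕ => |∑ i ∈ range M, (ArithmeticFunction.moebius i : ℝ) /
      (i : ℝ) ^ 2 - ∑ d ∈ Icc 1 D, (ArithmeticFunction.moebius d : ℝ) / (d : ℝ) ^ 2|) Filter.atTop
      (nhds |6 / Real.pi ^ 2 - ∑ d ∈ Icc 1 D, (ArithmeticFunction.moebius d : ℝ) / (d : ℝ) ^ 2|) :=
    (h1.sub_const _).abs
  refine le_of_tendsto h2 ?_
  filter_upwards [Filter.eventually_ge_atTop (D + 1)] with M hM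
  obtain ⟨m, rfl⟩ : ∃ m, M = m + 1 := ⟨M - 1, by omega⟩
  have hDm : D ≤ m := by omega
  have h3 : range (m + 1) = insert 0 (Icc 1 D ∪ Ioc D m) := by
    ext x
    simp only [mem_range, mem_insert, mem_union, mem_Icc, mem_Ioc]
    omega
  have hdis : Disjoint (Icc 1 D) (Ioc D m) := by
    rw [disjoint_left]
    intro x hx hx'
    rw [mem_Icc] at hx
    rw [mem_Ioc] at hx'
    omega
  rw [h3, sum_insert, sum_union hdis]
  · have h4 : (ArithmeticFunction.moebius 0 : ℝ) / ((0 : ℕ) : ℝ) ^ 2 = 0 := by simp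
    rw [h4, zero_add, add_sub_cancel_left]
    refine (abs_sum_le_sum_abs _ _).trans ?_
    have h5 : ∑ i ∈ Ioc D m, |(ArithmeticFunction.moebius i : ℝ) / (i : ℝ) ^ 2| ≤
        ∑ i ∈ Ioc D m, ((i : ℝ) ^ 2)⁻¹ := by
      refine sum_le_sum fun i _ => ?_
      rw [abs_div, abs_of_nonneg (sq_nonneg (i : ℝ)), div_eq_mul_inv]
      exact mul_le_of_le_one_left (inv_nonneg.2 (sq_nonneg _)) (sqf_abs_moebius i)
    refine h5.trans ((sum_Ioc_inv_sq_le_sub (by omega) hDm).trans ?_)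
    rw [one_div]
    have : (0 : ℝ) ≤ (m : ℝ)⁻¹ := by positivity
    linarith
  · simp only [mem_union, mem_Icc, mem_Ioc]
    omega

theorem sqf_count : ∃ C : ℝ, 0 < C ∧ ∀ N : ℕ,
    |(((range N).filter Squarefree).card : ℝ) - 6 / Real.pi ^ 2 * N| ≤ C * Real.sqrt N := by
  refine ⟨3, by norm_num, ?_⟩
  intro N
  rcases Nat.eq_zero_or_pos N with rfl | hN
  · simp
  obtain ⟨n, rfl⟩ : ∃ n, N = n + 1 := ⟨N - 1, by omega⟩
  set D : ℕ := Nat.sqrt (n + 1) with hD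
  have hD1 : 1 ≤ D := by
    rw [hD, Nat.le_sqrt]
    omega
  have hD0 : (0 : ℝ) < D := by exact_mod_cast hD1
  have hDsq : (D : ℝ) ^ 2 ≤ ((n + 1 : ℕ) : ℝ) := by
    have := Nat.sqrt_le' (n + 1)
    exact_mod_cast this
  have hDsq2 : ((n + 1 : ℕ) : ℝ) ≤ (2 * (D : ℝ)) ^ 2 := by
    have h1 := Nat.lt_succ_sqrt' (n + 1)
    rw [← hD] at h1
    have h2 : n + 1 ≤ (2 * D) ^ 2 := by
      have h3 : Nat.succ D ≤ 2 * D := by omega
      have h4 := Nat.pow_le_pow_left h3 2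
      omega
    exact_mod_cast h2
  have hDle : (D : ℝ) ≤ Real.sqrt ((n + 1 : ℕ) : ℝ) := Real.le_sqrt_of_sq_le hDsq
  have hsq : Real.sqrt ((n + 1 : ℕ) : ℝ) ≤ 2 * (D : ℝ) := by
    rw [Real.sqrt_le_left (by positivity)]
    exact hDsq2
  -- the main term
  have hcount : (((range (n + 1)).filter Squarefree).card : ℝ) =
      ∑ d ∈ Icc 1 D, (ArithmeticFunction.moebius d : ℝ) * ((n / d ^ 2 : ℕ) : ℝ) := by
    have h := congrArg (Int.cast : ℤ → ℝ) (sqf_count_eq n)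
    rw [Int.cast_natCast, Int.cast_sum] at h
    rw [h]
    refine sum_congr rfl fun d _ => ?_
    rw [Int.cast_mul, Int.cast_natCast]
  have h1 : |(((range (n + 1)).filter Squarefree).card : ℝ) -
      ((n + 1 : ℕ) : ℝ) * ∑ d ∈ Icc 1 D, (ArithmeticFunction.moebius d : ℝ) / (d : ℝ) ^ 2| ≤ D := by
    rw [hcount, mul_sum, ← sum_sub_distrib]
    refine (abs_sum_le_sum_abs _ _).trans ?_
    have h2 : ∀ d ∈ Icc 1 D, |(ArithmeticFunction.moebius d : ℝ) * ((n / d ^ 2 : ℕ) : ℝ) -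
        ((n + 1 : ℕ) : ℝ) * ((ArithmeticFunction.moebius d : ℝ) / (d : ℝ) ^ 2)| ≤ 1 := by
      intro d hd
      rw [mem_Icc] at hd
      have hd0 : (0 : ℝ) < (d : ℝ) ^ 2 := by
        have : (0 : ℝ) < d := by exact_mod_cast hd.1
        positivity
      have e1 : (ArithmeticFunction.moebius d : ℝ) * ((n / d ^ 2 : ℕ) : ℝ) -
          ((n + 1 : ℕ) : ℝ) * ((ArithmeticFunction.moebius d : ℝ) / (d : ℝ) ^ 2) =
          (ArithmeticFunction.moebius d : ℝ) * (((n / d ^ 2 : ℕ) : ℝ) -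
            ((n + 1 : ℕ) : ℝ) / (d : ℝ) ^ 2) := by ring
      rw [e1, abs_mul]
      have h3 : |((n / d ^ 2 : ℕ) : ℝ) - ((n + 1 : ℕ) : ℝ) / (d : ℝ) ^ 2| ≤ 1 := by
        rw [abs_le]
        constructor
        · have h4 : n + 1 ≤ (n / d ^ 2 + 1) * d ^ 2 := by
            have := Nat.lt_div_mul_add (a := n) (b := d ^ 2) (pow_pos hd.1 2)
            nlinarith
          have h5 : ((n + 1 : ℕ) : ℝ) ≤ (((n / d ^ 2 : ℕ) : ℝ) + 1) * (d : ℝ) ^ 2 := by
            exact_mod_cast h4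
          have h6 : ((n + 1 : ℕ) : ℝ) / (d : ℝ) ^ 2 ≤ ((n / d ^ 2 : ℕ) : ℝ) + 1 := by
            rw [div_le_iff₀ hd0]
            exact h5
          linarith
        · have h4 : n / d ^ 2 * d ^ 2 ≤ n + 1 := (Nat.div_mul_le_self n (d ^ 2)).trans (by omega)
          have h5 : ((n / d ^ 2 : ℕ) : ℝ) * (d : ℝ) ^ 2 ≤ ((n + 1 : ℕ) : ℝ) := by
            exact_mod_cast h4
          have h6 : ((n / d ^ 2 : ℕ) : ℝ) ≤ ((n + 1 : ℕ) : ℝ) / (d : ℝ) ^ 2 := by
            rw [le_div_iff₀ hd0]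
            exact h5
          linarith
      exact mul_le_one₀ (sqf_abs_moebius d) (abs_nonneg _) h3
    refine (sum_le_sum h2).trans ?_
    rw [sum_const, Nat.card_Icc, nsmul_eq_mul, mul_one]
    norm_num
  have h2 := sqf_tail D hD1
  have h3 : |((n + 1 : ℕ) : ℝ) * ∑ d ∈ Icc 1 D, (ArithmeticFunction.moebius d : ℝ) / (d : ℝ) ^ 2 -
      6 / Real.pi ^ 2 * ((n + 1 : ℕ) : ℝ)| ≤ 2 * Real.sqrt ((n + 1 : ℕ) : ℝ) := by
    have e1 : ((n + 1 : ℕ) : ℝ) * ∑ d ∈ Icc 1 D, (ArithmeticFunction.moebius d : ℝ) / (d : ℝ) ^ 2 -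
      6 / Real.pi ^ 2 * ((n + 1 : ℕ) : ℝ) = -(((n + 1 : ℕ) : ℝ) * (6 / Real.pi ^ 2 -
        ∑ d ∈ Icc 1 D, (ArithmeticFunction.moebius d : ℝ) / (d : ℝ) ^ 2)) := by ring
    rw [e1, abs_neg, abs_mul, abs_of_nonneg (Nat.cast_nonneg (n + 1) : (0 : ℝ) ≤ ((n + 1 : ℕ) : ℝ))]
    have h4 : ((n + 1 : ℕ) : ℝ) * |6 / Real.pi ^ 2 -
        ∑ d ∈ Icc 1 D, (ArithmeticFunction.moebius d : ℝ) / (d : ℝ) ^ 2| ≤
        ((n + 1 : ℕ) : ℝ) * (1 / (D : ℝ)) := mul_le_mul_of_nonneg_left h2 (Nat.cast_nonneg _)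
    refine h4.trans ?_
    rw [mul_one_div, div_le_iff₀ hD0]
    have h5 : ((n + 1 : ℕ) : ℝ) = Real.sqrt ((n + 1 : ℕ) : ℝ) * Real.sqrt ((n + 1 : ℕ) : ℝ) :=
      (Real.mul_self_sqrt (Nat.cast_nonneg _)).symm
    calc ((n + 1 : ℕ) : ℝ) = Real.sqrt ((n + 1 : ℕ) : ℝ) * Real.sqrt ((n + 1 : ℕ) : ℝ) := h5
      _ ≤ Real.sqrt ((n + 1 : ℕ) : ℝ) * (2 * (D : ℝ)) :=
        mul_le_mul_of_nonneg_left hsq (Real.sqrt_nonneg _)
      _ = 2 * Real.sqrt ((n + 1 : ℕ) : ℝ) * (D : ℝ) := by ring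
  have h6 := abs_sub_le (((range (n + 1)).filter Squarefree).card : ℝ)
    (((n + 1 : ℕ) : ℝ) * ∑ d ∈ Icc 1 D, (ArithmeticFunction.moebius d : ℝ) / (d : ℝ) ^ 2)
    (6 / Real.pi ^ 2 * ((n + 1 : ℕ) : ℝ))
  linarith

end Pool.Agent.H18.RM
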