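import Pool.Agent.H18.RM.Basic
import Pool.Agent.H18.RM.Sqf

/-!
# The diagonal terms

`dg_all`: for `X/4 ≤ U ≤ V ≤ 5X` and `1 ≤ H ≤ X` the sum of `KC U V H n n` over the squarefree `n`
is `(6/π²) H (V-U) + O(H √X + H²)`.  Proof: `KC U V H n n` is `0` unless
`U - H/2 < n < V + H/2`, it is `H` for `U + H/2 ≤ n ≤ V - H/2`, always between `0` and `H`, and the
two transition ranges contain `O(H + 1) = O(H)` integers, so the sum is
`H * #{U < n ≤ V squarefree} + O(H²)`; use `sqf_count`.
(If `V - U < H` the claim is trivial: everything is `O(H²)`.)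

`dg_prime`: the same for the squarefree `n` not divisible by the prime `q`; the multiples of `q`
contribute at most `H * ((V - U + H)/q + 1)`.
-/

set_option autoImplicit false

namespace Pool.Agent.H18.RM

open Finset

theorem Diag_count {x H : ℝ} {N : ℕ} (hH : 0 < H) (hN : x + H ≤ N) :
    (((range N).filter (fun n : ℕ => |(n : ℝ) - x| < H / 2)).card : ℝ) ≤ H + 1 := by
  have h := norm_MC_le (g := fun _ => (1 : ℂ)) (fun _ => by simp) hH x
  rw [MC_eq_sum _ hH hN, ← Finset.sum_filter, Finset.sum_const, nsmul_eq_mul, mul_one,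
    Complex.norm_natCast] at h
  exact h

theorem dg_all : ∃ C : ℝ, 0 < C ∧ ∀ (X U V H : ℝ) (N : ℕ), 1 ≤ X → X / 4 ≤ U → U ≤ V →
    V ≤ 5 * X → 1 ≤ H → H ≤ X → V + H ≤ N →
    |Dg (fun _ => True) U V H N - 6 / Real.pi ^ 2 * H * (V - U)| ≤
      C * (H * Real.sqrt X + H ^ 2) := by
  obtain ⟨C0, hC0, hsq⟩ := sqf_count
  refine ⟨6 * C0 + 10, by positivity, fun X U V H N hX hU hUV hV hH hHX hN => ?_⟩
  have hU0 : 0 < U := by linarith
  have hV0 : 0 < V := by linarith
  have hH0 : 0 < H := by linarith
  set a := ⌈U⌉₊ with ha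
  set b := ⌈V⌉₊ with hb
  have hab : a ≤ b := Nat.ceil_mono hUV
  have hbN : b ≤ N := Nat.ceil_le.mpr (by linarith)
  have ha1 : U ≤ a := Nat.le_ceil U
  have hb1 : V ≤ b := Nat.le_ceil V
  have ha2 : (a : ℝ) < U + 1 := Nat.ceil_lt_add_one hU0.le
  have hb2 : (b : ℝ) < V + 1 := Nat.ceil_lt_add_one hV0.le
  -- the count in [a, b)
  set S := (range N).filter Squarefree with hS
  have hDg : Dg (fun _ => True) U V H N = ∑ n ∈ S, KC U V H n n := by
    unfold Dg
    simp only [and_true]
    rfl
  have hcnt : ((S.filter (fun n => a ≤ n ∧ n < b)).card : ℝ) =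
      (((range b).filter Squarefree).card : ℝ) - (((range a).filter Squarefree).card : ℝ) := by
    have h1 : (range b).filter Squarefree =
        (S.filter (fun n => a ≤ n ∧ n < b)) ∪ (range a).filter Squarefree := by
      ext n
      simp only [hS, Finset.mem_filter, Finset.mem_union, Finset.mem_range]
      constructor
      · rintro ⟨h1, h2⟩
        by_cases h3 : a ≤ n
        · exact Or.inl ⟨⟨by omega, h2⟩, h3, h1⟩
        · exact Or.inr ⟨by omega, h2⟩
      · rintro (⟨⟨_, h2⟩, _, h4⟩ | ⟨h1, h2⟩)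
        · exact ⟨h4, h2⟩
        · exact ⟨by omega, h2⟩
    have h2 : Disjoint (S.filter (fun n => a ≤ n ∧ n < b)) ((range a).filter Squarefree) := by
      rw [Finset.disjoint_left]
      intro n hn hn'
      simp only [Finset.mem_filter, Finset.mem_range] at hn hn'
      omega
    rw [h1, Finset.card_union_of_disjoint h2]
    push_cast
    ring
  -- difference
  have hdiff : |∑ n ∈ S, KC U V H n n - H * ((S.filter (fun n => a ≤ n ∧ n < b)).card : ℝ)| ≤
      H * (2 * (H + 1)) := by
    have e1 : H * ((S.filter (fun n => a ≤ n ∧ n < b)).card : ℝ) =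
        ∑ n ∈ S, (if a ≤ n ∧ n < b then H else 0) := by
      rw [← Finset.sum_filter, Finset.sum_const, nsmul_eq_mul, mul_comm]
    rw [e1, ← Finset.sum_sub_distrib]
    refine (Finset.abs_sum_le_sum_abs _ _).trans ?_
    have h1 : ∀ n ∈ S, |KC U V H n n - (if a ≤ n ∧ n < b then H else 0)| ≤
        (if |(n : ℝ) - U| < H / 2 then H else 0) + (if |(n : ℝ) - V| < H / 2 then H else 0) := by
      intro n _
      have hK0 := KC_nonneg U V H n n
      have hK1 := KC_le (U := U) (V := V) hH0.le n n
      by_cases hn1 : |(n : ℝ) - U| < H / 2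
      · rw [if_pos hn1]
        have h2 : (0 : ℝ) ≤ (if |(n : ℝ) - V| < H / 2 then H else 0) := by split_ifs <;> linarith
        have h3 : |KC U V H n n - (if a ≤ n ∧ n < b then H else 0)| ≤ H := by
          rw [abs_le]
          split_ifs <;> constructor <;> linarith
        linarith
      · rw [if_neg hn1]
        by_cases hn2 : |(n : ℝ) - V| < H / 2
        · rw [if_pos hn2]
          have h3 : |KC U V H n n - (if a ≤ n ∧ n < b then H else 0)| ≤ H := by
            rw [abs_le]
            split_ifs <;> constructor <;> linarith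
          linarith
        · rw [if_neg hn2, add_zero]
          rw [not_lt] at hn1 hn2
          apply le_of_eq
          rw [abs_eq_zero]
          by_cases h4 : (n : ℝ) ≤ U - H / 2
          · rw [KC_eq_zero_of_le h4, if_neg, sub_zero]
            rintro ⟨h5, _⟩
            have : (a : ℝ) ≤ n := by exact_mod_cast h5
            linarith
          · by_cases h5 : V + H / 2 ≤ (n : ℝ)
            · rw [KC_eq_zero_of_ge h5, if_neg, sub_zero]
              rintro ⟨_, h6⟩
              have h7 : b ≤ n := Nat.ceil_le.mpr (by linarith)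
              omega
            · push Not at h4 h5
              have h6 : U + H / 2 ≤ (n : ℝ) := by
                by_contra hcon
                push Not at hcon
                have : |(n : ℝ) - U| < H / 2 := abs_lt.mpr ⟨by linarith, by linarith⟩
                linarith
              have h7 : (n : ℝ) ≤ V - H / 2 := by
                by_contra hcon
                push Not at hcon
                have : |(n : ℝ) - V| < H / 2 := abs_lt.mpr ⟨by linarith, by linarith⟩
                linarith
              rw [KC_diag hH0.le h6 h7, if_pos, sub_self]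
              refine ⟨Nat.ceil_le.mpr (by linarith), ?_⟩
              have : (n : ℝ) < b := by linarith
              exact_mod_cast this
    refine (Finset.sum_le_sum h1).trans ?_
    rw [Finset.sum_add_distrib]
    have h2 : ∀ x : ℝ, x + H ≤ N → ∑ n ∈ S, (if |(n : ℝ) - x| < H / 2 then H else 0) ≤ H * (H + 1) := by
      intro x hx
      calc ∑ n ∈ S, (if |(n : ℝ) - x| < H / 2 then H else 0)
          ≤ ∑ n ∈ range N, (if |(n : ℝ) - x| < H / 2 then H else 0) := by
            apply Finset.sum_le_sum_of_subset_of_nonneg (Finset.filter_subset _ _)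
            intro i _ _
            split_ifs <;> linarith
        _ = (((range N).filter (fun n : ℕ => |(n : ℝ) - x| < H / 2)).card : ℝ) * H := by
            rw [← Finset.sum_filter, Finset.sum_const, nsmul_eq_mul]
        _ ≤ (H + 1) * H := mul_le_mul_of_nonneg_right (Diag_count hH0 hx) hH0.le
        _ = H * (H + 1) := by ring
    have h3 := h2 U (by linarith)
    have h4 := h2 V (by linarith)
    linarith
  have hsa := abs_le.mp (hsq a)
  have hsb := abs_le.mp (hsq b)
  have hsX : Real.sqrt b ≤ 3 * Real.sqrt X := by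
    have h1 : (b : ℝ) ≤ 3 ^ 2 * X := by nlinarith
    calc Real.sqrt b ≤ Real.sqrt (3 ^ 2 * X) := Real.sqrt_le_sqrt h1
      _ = 3 * Real.sqrt X := by
        rw [Real.sqrt_mul (by norm_num), Real.sqrt_sq (by norm_num)]
  have hsX' : Real.sqrt a ≤ 3 * Real.sqrt X :=
    (Real.sqrt_le_sqrt (by exact_mod_cast hab)).trans hsX
  have hX1 : 1 ≤ Real.sqrt X := by
    rw [show (1 : ℝ) = Real.sqrt 1 from Real.sqrt_one.symm]
    exact Real.sqrt_le_sqrt hX
  have hpi0 : 0 < 6 / Real.pi ^ 2 := by positivity
  have hpi1 : 6 / Real.pi ^ 2 ≤ 1 := by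
    rw [div_le_one (by positivity)]
    nlinarith [Real.pi_gt_three]
  set c := 6 / Real.pi ^ 2 with hc
  set cnt := ((S.filter (fun n => a ≤ n ∧ n < b)).card : ℝ) with hcntd
  have hmain : |cnt - c * (V - U)| ≤ 6 * C0 * Real.sqrt X + 1 := by
    rw [hcnt, abs_le]
    have h1 : c * ((b : ℝ) - a) - c * (V - U) ≤ 1 := by
      have e : c * ((b : ℝ) - a) - c * (V - U) = c * (((b : ℝ) - V) - (a - U)) := by ring
      rw [e]
      calc c * (((b : ℝ) - V) - (a - U)) ≤ c * 1 := mul_le_mul_of_nonneg_left (by linarith) hpi0.le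
        _ ≤ 1 := by linarith
    have h2 : -1 ≤ c * ((b : ℝ) - a) - c * (V - U) := by
      have e : c * ((b : ℝ) - a) - c * (V - U) = -(c * ((a - U) - ((b : ℝ) - V))) := by ring
      rw [e]
      have : c * ((a - U) - ((b : ℝ) - V)) ≤ 1 := by
        calc c * ((a - U) - ((b : ℝ) - V)) ≤ c * 1 := mul_le_mul_of_nonneg_left (by linarith) hpi0.le
          _ ≤ 1 := by linarith
      linarith
    have h3 : C0 * Real.sqrt b ≤ C0 * (3 * Real.sqrt X) := mul_le_mul_of_nonneg_left hsX hC0.le
    have h4 : C0 * Real.sqrt a ≤ C0 * (3 * Real.sqrt X) := mul_le_mul_of_nonneg_left hsX' hC0.le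
    constructor <;> linarith [hsa.1, hsa.2, hsb.1, hsb.2]
  rw [hDg]
  have hfin : |H * cnt - c * H * (V - U)| ≤ H * (6 * C0 * Real.sqrt X + 1) := by
    have e : H * cnt - c * H * (V - U) = H * (cnt - c * (V - U)) := by ring
    rw [e, abs_mul, abs_of_pos hH0]
    exact mul_le_mul_of_nonneg_left hmain hH0.le
  have hA := abs_le.mp hdiff
  have hB := abs_le.mp hfin
  have hHX' : H ≤ H * Real.sqrt X := by nlinarith
  have hHH : H ≤ H ^ 2 := by nlinarith
  have hP1 : 0 ≤ C0 * (H ^ 2) := by positivity
  have hP2 : 0 ≤ C0 * (H * Real.sqrt X) := by positivity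
  rw [abs_le]
  constructor <;> linarith [hA.1, hA.2, hB.1, hB.2]

theorem dg_prime : ∃ C : ℝ, 0 < C ∧ ∀ (X U V H : ℝ) (N q : ℕ), 1 ≤ X → X / 4 ≤ U → U ≤ V →
    V ≤ 5 * X → 1 ≤ H → H ≤ X → V + H ≤ N → q.Prime →
    |Dg (fun n => ¬ q ∣ n) U V H N - 6 / Real.pi ^ 2 * H * (V - U)| ≤
      C * (H * Real.sqrt X + H ^ 2 + H * X / q) := by
  obtain ⟨C0, hC0, hall⟩ := dg_all
  refine ⟨C0 + 6, by positivity, fun X U V H N q hX hU hUV hV hH hHX hN hq => ?_⟩
  have h1 := hall X U V H N hX hU hUV hV hH hHX hN
  have hH0 : 0 < H := by linarith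
  have hq0 : (0 : ℝ) < q := by exact_mod_cast hq.pos
  have hsplit : Dg (fun _ => True) U V H N = Dg (fun n => ¬ q ∣ n) U V H N +
      ∑ n ∈ (range N).filter (fun n => Squarefree n ∧ q ∣ n), KC U V H n n := by
    unfold Dg
    rw [← Finset.sum_union]
    · refine Finset.sum_congr ?_ fun _ _ => rfl
      ext n
      simp only [Finset.mem_filter, Finset.mem_union]
      tauto
    · rw [Finset.disjoint_left]
      intro n hn hn'
      simp only [Finset.mem_filter] at hn hn'
      tauto
  have hrest0 : 0 ≤ ∑ n ∈ (range N).filter (fun n => Squarefree n ∧ q ∣ n), KC U V H n n :=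
    Finset.sum_nonneg fun n _ => KC_nonneg U V H n n
  have hrest1 : ∑ n ∈ (range N).filter (fun n => Squarefree n ∧ q ∣ n), KC U V H n n ≤
      6 * (H * X / q) := by
    have h2 : ∑ n ∈ (range N).filter (fun n => Squarefree n ∧ q ∣ n), KC U V H n n ≤
        ∑ n ∈ (Ioc 0 ⌊6 * X⌋₊).filter (fun n => q ∣ n), H := by
      have h3 : ∑ n ∈ (range N).filter (fun n => Squarefree n ∧ q ∣ n), KC U V H n n =
          ∑ n ∈ ((range N).filter (fun n => Squarefree n ∧ q ∣ n)).filter
            (fun n : ℕ => (n : ℝ) < V + H / 2), KC U V H n n := by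
        conv_rhs => rw [Finset.sum_filter]
        refine Finset.sum_congr rfl fun n _ => ?_
        split_ifs with h4
        · rfl
        · exact KC_eq_zero_of_ge (not_lt.mp h4)
      rw [h3]
      calc ∑ n ∈ ((range N).filter (fun n => Squarefree n ∧ q ∣ n)).filter
            (fun n : ℕ => (n : ℝ) < V + H / 2), KC U V H n n
          ≤ ∑ n ∈ ((range N).filter (fun n => Squarefree n ∧ q ∣ n)).filter
            (fun n : ℕ => (n : ℝ) < V + H / 2), H :=
            Finset.sum_le_sum fun n _ => KC_le hH0.le n n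
        _ ≤ ∑ n ∈ (Ioc 0 ⌊6 * X⌋₊).filter (fun n => q ∣ n), H := by
            apply Finset.sum_le_sum_of_subset_of_nonneg
            · intro n hn
              simp only [Finset.mem_filter, Finset.mem_range] at hn
              obtain ⟨⟨_, hsf, hqn⟩, hlt⟩ := hn
              have hn0 : n ≠ 0 := hsf.ne_zero
              refine Finset.mem_filter.mpr ⟨Finset.mem_Ioc.mpr ⟨by omega, ?_⟩, hqn⟩
              exact Nat.le_floor (by linarith)
            · intro _ _ _
              exact hH0.le
    refine h2.trans ?_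
    rw [Finset.sum_const, nsmul_eq_mul, Nat.Ioc_filter_dvd_card_eq_div]
    have h5 : ((⌊6 * X⌋₊ / q : ℕ) : ℝ) ≤ 6 * X / q := by
      calc ((⌊6 * X⌋₊ / q : ℕ) : ℝ) ≤ (⌊6 * X⌋₊ : ℝ) / q := Nat.cast_div_le
        _ ≤ 6 * X / q := by
          apply div_le_div_of_nonneg_right _ hq0.le
          exact Nat.floor_le (by linarith)
    calc ((⌊6 * X⌋₊ / q : ℕ) : ℝ) * H ≤ (6 * X / q) * H := mul_le_mul_of_nonneg_right h5 hH0.le
      _ = 6 * (H * X / q) := by ring
  rw [hsplit] at h1
  have hA := abs_le.mp h1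
  have hP : 0 ≤ H * X / q := by positivity
  have hP1 : 0 ≤ C0 * (H * X / q) := by positivity
  have hP2 : 0 ≤ H * Real.sqrt X := by positivity
  have hP3 : 0 ≤ H ^ 2 := by positivity
  rw [abs_le]
  constructor <;> linarith [hA.1, hA.2]

end Pool.Agent.H18.RM
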