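import Pool.Agent.H18.RM.Expand
import Pool.Agent.H18.RM.Diag
import Pool.Agent.H18.RM.CountQ

/-!
# Deviations for the twists of the Möbius function by Dirichlet characters

`muc q χ n = μ(n) χ(n)`.

`char_second`: `∑_χ |∑_{s ∈ S} g(s.1) conj(g(s.2)) K s|² ≤ κ² q #{(s,t) : s.1 t.2 ≡ t.1 s.2 mod q}`:
expand the square and use `∑_χ χ(a) conj(χ(b)) = φ(q)` if `a = b` is a unit, `0` otherwise
(`DirichletCharacter.sum_char_inv_mul_char_eq`, `MulChar.star_apply`).

`char_dev`: as `prob_dev`: `IC_expand_diag`, `dg_prime` (`‖g n‖² = 1` iff `n` is squarefree and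
`q ∤ n`), `char_second` with `S` the pairs `n ≠ m` in `[Y, 20Y]`, `Y = ⌈X/4⌉`, with
`|n - m| ≤ h := ⌊H⌋ < q`, `card_QQ`, and Chebyshev's inequality for the counting measure on the
characters.

`char_up`: the sum over `χ` of the integral is at most `q ∑_n KC(X/4, 5X, H, n, n) ≤ 10 q X H`
(the off-diagonal terms vanish: `0 < |n - m| < H < q`), and Markov's inequality.
-/

set_option autoImplicit false

namespace Pool.Agent.H18.RM

open Finset MeasureTheory

/-- `μ(n) χ(n)` -/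
noncomputable def muc (q : ℕ) (χ : DirichletCharacter ℂ q) (n : ℕ) : ℂ :=
  ((ArithmeticFunction.moebius n : ℤ) : ℂ) * χ (n : ZMod q)

private theorem cb_norm_mu (n : ℕ) : ‖((ArithmeticFunction.moebius n : ℤ) : ℂ)‖ ≤ 1 := by
  rw [Complex.norm_intCast]
  exact_mod_cast ArithmeticFunction.abs_moebius_le_one

theorem norm_muc_le (q : ℕ) (χ : DirichletCharacter ℂ q) (n : ℕ) : ‖muc q χ n‖ ≤ 1 := by
  unfold muc
  rw [norm_mul]
  exact mul_le_one₀ (cb_norm_mu n) (norm_nonneg _) (χ.norm_le_one _)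

theorem norm_muc_sq (q : ℕ) (hq : q.Prime) (χ : DirichletCharacter ℂ q) (n : ℕ) :
    ‖muc q χ n‖ ^ 2 = if Squarefree n ∧ ¬ q ∣ n then 1 else 0 := by
  unfold muc
  rw [norm_mul, mul_pow, Complex.norm_intCast]
  by_cases hs : Squarefree n
  · have h1 : ((|((ArithmeticFunction.moebius n : ℤ) : ℝ)|) ^ 2 : ℝ) = 1 := by
      rw [sq_abs]
      exact_mod_cast ArithmeticFunction.moebius_sq_eq_one_of_squarefree hs
    rw [h1, one_mul]
    by_cases hd : q ∣ n
    · rw [if_neg (fun h => h.2 hd)]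
      have h2 : ¬ IsUnit (n : ZMod q) := by
        intro h
        rw [ZMod.isUnit_iff_coprime] at h
        have := (Nat.Prime.coprime_iff_not_dvd hq).1 h.symm
        exact this hd
      rw [χ.map_nonunit h2, norm_zero]
      norm_num
    · rw [if_pos ⟨hs, hd⟩]
      have h2 : IsUnit (n : ZMod q) := by
        rw [ZMod.isUnit_iff_coprime]
        exact ((Nat.Prime.coprime_iff_not_dvd hq).2 hd).symm
      obtain ⟨u, hu⟩ := h2
      rw [← hu, χ.unit_norm_eq_one u]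
      norm_num
  · rw [if_neg (fun h => hs h.1), ArithmeticFunction.moebius_eq_zero_of_not_squarefree hs]
    norm_num

private theorem cb_orth (q : ℕ) (hq : q.Prime) (a b : ZMod q) :
    ‖∑ χ : DirichletCharacter ℂ q, χ a * (starRingEnd ℂ) (χ b)‖ ≤ if a = b then (q : ℝ) else 0 := by
  classical
  have : Fact q.Prime := ⟨hq⟩
  have : NeZero q := ⟨hq.ne_zero⟩
  by_cases hb : IsUnit b
  · have h1 : ∀ χ : DirichletCharacter ℂ q, χ a * (starRingEnd ℂ) (χ b) = χ b⁻¹ * χ a := by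
      intro χ
      have h2 : (starRingEnd ℂ) (χ b) = χ⁻¹ b := MulChar.star_apply' χ b
      rw [h2, MulChar.inv_apply' χ b, mul_comm]
    rw [Finset.sum_congr rfl fun χ _ => h1 χ, DirichletCharacter.sum_char_inv_mul_char_eq ℂ hb a]
    by_cases hab : a = b
    · rw [if_pos hab.symm, if_pos hab, Complex.norm_natCast]
      exact_mod_cast Nat.totient_le q
    · rw [if_neg (fun h => hab h.symm), if_neg hab, norm_zero]
  · have h1 : ∀ χ : DirichletCharacter ℂ q, χ a * (starRingEnd ℂ) (χ b) = 0 := by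
      intro χ
      rw [χ.map_nonunit hb, map_zero, mul_zero]
    rw [Finset.sum_congr rfl fun χ _ => h1 χ, Finset.sum_const_zero, norm_zero]
    split_ifs
    · exact Nat.cast_nonneg q
    · exact le_rfl

open Classical in
theorem char_second (q : ℕ) (hq : q.Prime) (S : Finset (ℕ × ℕ)) (K : ℕ × ℕ → ℝ) {κ : ℝ}
    (hK : ∀ s ∈ S, |K s| ≤ κ) :
    ∑ χ : DirichletCharacter ℂ q,
      ‖∑ s ∈ S, muc q χ s.1 * (starRingEnd ℂ) (muc q χ s.2) * ((K s : ℝ) : ℂ)‖ ^ 2 ≤
      q * κ ^ 2 * (((S ×ˢ S).filter (fun t => t.1.1 * t.2.2 ≡ t.2.1 * t.1.2 [MOD q])).card) := by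
  set c : ℕ × ℕ → ℂ := fun s => ((ArithmeticFunction.moebius s.1 : ℤ) : ℂ) *
    ((ArithmeticFunction.moebius s.2 : ℤ) : ℂ) * ((K s : ℝ) : ℂ) with hc
  have hcn : ∀ s ∈ S, ‖c s‖ ≤ κ := by
    intro s hs
    have h1 := cb_norm_mu s.1
    have h2 := cb_norm_mu s.2
    have h3 : ‖((K s : ℝ) : ℂ)‖ ≤ κ := by
      rw [Complex.norm_real, Real.norm_eq_abs]
      exact hK s hs
    show ‖_ * _ * _‖ ≤ κ
    rw [norm_mul, norm_mul]
    have h4 : ‖((ArithmeticFunction.moebius s.1 : ℤ) : ℂ)‖ *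
        ‖((ArithmeticFunction.moebius s.2 : ℤ) : ℂ)‖ ≤ 1 :=
      mul_le_one₀ h1 (norm_nonneg _) h2
    calc _ ≤ 1 * ‖((K s : ℝ) : ℂ)‖ := mul_le_mul_of_nonneg_right h4 (norm_nonneg _)
      _ ≤ κ := by rw [one_mul]; exact h3
  have hterm : ∀ (χ : DirichletCharacter ℂ q) (s : ℕ × ℕ),
      muc q χ s.1 * (starRingEnd ℂ) (muc q χ s.2) * ((K s : ℝ) : ℂ) =
        c s * (χ (s.1 : ZMod q) * (starRingEnd ℂ) (χ (s.2 : ZMod q))) := by
    intro χ s
    simp only [hc, muc, map_mul, map_intCast]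
    ring
  have hcc : ∀ s, (starRingEnd ℂ) (c s) = c s := by
    intro s
    simp only [hc, map_mul, map_intCast, Complex.conj_ofReal]
  have key : ((∑ χ : DirichletCharacter ℂ q,
      ‖∑ s ∈ S, muc q χ s.1 * (starRingEnd ℂ) (muc q χ s.2) * ((K s : ℝ) : ℂ)‖ ^ 2 : ℝ) : ℂ) =
      ∑ s ∈ S, ∑ t ∈ S, (c s * c t) * ∑ χ : DirichletCharacter ℂ q,
        χ ((s.1 : ZMod q) * (t.2 : ZMod q)) *
          (starRingEnd ℂ) (χ ((t.1 : ZMod q) * (s.2 : ZMod q))) := by
    rw [Complex.ofReal_sum]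
    have h1 : ∀ χ : DirichletCharacter ℂ q,
        ((‖∑ s ∈ S, muc q χ s.1 * (starRingEnd ℂ) (muc q χ s.2) * ((K s : ℝ) : ℂ)‖ ^ 2 : ℝ) : ℂ) =
        ∑ s ∈ S, ∑ t ∈ S, (c s * c t) * (χ ((s.1 : ZMod q) * (t.2 : ZMod q)) *
          (starRingEnd ℂ) (χ ((t.1 : ZMod q) * (s.2 : ZMod q)))) := by
      intro χ
      rw [Finset.sum_congr rfl fun s _ => hterm χ s, Complex.ofReal_pow, ← Complex.mul_conj',
        map_sum, Finset.sum_mul_sum]
      refine Finset.sum_congr rfl fun s _ => Finset.sum_congr rfl fun t _ => ?_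
      simp only [map_mul, hcc, Complex.conj_conj]
      ring
    rw [Finset.sum_congr rfl fun χ _ => h1 χ, Finset.sum_comm]
    refine Finset.sum_congr rfl fun s _ => ?_
    rw [Finset.sum_comm]
    refine Finset.sum_congr rfl fun t _ => ?_
    rw [Finset.mul_sum]
  have hnn : 0 ≤ ∑ χ : DirichletCharacter ℂ q,
      ‖∑ s ∈ S, muc q χ s.1 * (starRingEnd ℂ) (muc q χ s.2) * ((K s : ℝ) : ℂ)‖ ^ 2 :=
    Finset.sum_nonneg fun χ _ => sq_nonneg _
  have hn : ∑ χ : DirichletCharacter ℂ q,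
      ‖∑ s ∈ S, muc q χ s.1 * (starRingEnd ℂ) (muc q χ s.2) * ((K s : ℝ) : ℂ)‖ ^ 2 =
      ‖((∑ χ : DirichletCharacter ℂ q,
      ‖∑ s ∈ S, muc q χ s.1 * (starRingEnd ℂ) (muc q χ s.2) * ((K s : ℝ) : ℂ)‖ ^ 2 : ℝ) : ℂ)‖ := by
    rw [Complex.norm_real, Real.norm_of_nonneg hnn]
  rw [hn, key]
  have hle : ‖∑ s ∈ S, ∑ t ∈ S, (c s * c t) * ∑ χ : DirichletCharacter ℂ q,
        χ ((s.1 : ZMod q) * (t.2 : ZMod q)) *
          (starRingEnd ℂ) (χ ((t.1 : ZMod q) * (s.2 : ZMod q)))‖ ≤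
      ∑ s ∈ S, ∑ t ∈ S, (if s.1 * t.2 ≡ t.1 * s.2 [MOD q] then (q : ℝ) * κ ^ 2 else 0) := by
    refine (norm_sum_le _ _).trans (Finset.sum_le_sum fun s hs => ?_)
    refine (norm_sum_le _ _).trans (Finset.sum_le_sum fun t ht => ?_)
    rw [norm_mul, norm_mul]
    have h1 := cb_orth q hq ((s.1 : ZMod q) * (t.2 : ZMod q)) ((t.1 : ZMod q) * (s.2 : ZMod q))
    have h2 := hcn s hs
    have h3 := hcn t ht
    have hκ : 0 ≤ κ := (norm_nonneg _).trans h2
    have h4 : ‖c s‖ * ‖c t‖ ≤ κ ^ 2 := by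
      rw [sq]
      exact mul_le_mul h2 h3 (norm_nonneg _) hκ
    by_cases hm : s.1 * t.2 ≡ t.1 * s.2 [MOD q]
    · have h5 : (s.1 : ZMod q) * (t.2 : ZMod q) = (t.1 : ZMod q) * (s.2 : ZMod q) := by
        have := (ZMod.natCast_eq_natCast_iff _ _ _).2 hm
        push_cast at this
        exact this
      rw [if_pos h5] at h1
      rw [if_pos hm, mul_comm (q : ℝ)]
      exact mul_le_mul h4 h1 (norm_nonneg _) (sq_nonneg _)
    · have h5 : (s.1 : ZMod q) * (t.2 : ZMod q) ≠ (t.1 : ZMod q) * (s.2 : ZMod q) := by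
        intro h
        apply hm
        apply (ZMod.natCast_eq_natCast_iff _ _ _).1
        push_cast
        exact h
      rw [if_neg h5] at h1
      rw [if_neg hm]
      have h6 := le_antisymm h1 (norm_nonneg _)
      rw [h6, mul_zero]
  refine hle.trans (le_of_eq ?_)
  rw [← Finset.sum_product', ← Finset.sum_filter, Finset.sum_const, nsmul_eq_mul, mul_comm]

/-- splitting of `IC` -/
private theorem cb_split (q : ℕ) (hq : q.Prime) (χ : DirichletCharacter ℂ q) {U V H : ℝ}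
    (hUV : U ≤ V) (hH : 0 < H) {N : ℕ} (hN : V + H ≤ N) (S : Finset (ℕ × ℕ))
    (hS : ∀ p, p ∈ S ↔ (p.1 < N ∧ p.2 < N) ∧ p.1 ≠ p.2 ∧ KC U V H p.1 p.2 ≠ 0) :
    ((IC (muc q χ) U V H : ℝ) : ℂ) =
      ((Dg (fun n => ¬ q ∣ n) U V H N : ℝ) : ℂ) +
      ∑ p ∈ S, muc q χ p.1 * (starRingEnd ℂ) (muc q χ p.2) * ((KC U V H p.1 p.2 : ℝ) : ℂ) := by
  rw [IC_expand_diag (muc q χ) hUV hH hN]
  congr 1
  · congr 1
    unfold Dg
    rw [Finset.sum_filter]
    refine Finset.sum_congr rfl fun n _ => ?_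
    rw [norm_muc_sq q hq χ n]
    split_ifs with h
    · rw [one_mul]
    · rw [zero_mul]
  · symm
    apply Finset.sum_subset
    · intro p hp
      have h := (hS p).1 hp
      rw [Finset.mem_filter, Finset.mem_product, Finset.mem_range, Finset.mem_range]
      exact ⟨h.1, h.2.1⟩
    · intro p hp hpS
      rw [Finset.mem_filter, Finset.mem_product, Finset.mem_range, Finset.mem_range] at hp
      have h0 : KC U V H p.1 p.2 = 0 := by
        by_contra h
        exact hpS ((hS p).2 ⟨hp.1, hp.2, h⟩)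
      rw [h0, Complex.ofReal_zero, mul_zero]

/-- Chebyshev -/
private theorem cb_cheb {ι : Type*} (B A : Finset ι) (hBA : B ⊆ A) (f : ι → ℝ) (T M : ℝ)
    (hf : ∀ x ∈ A, 0 ≤ f x) (hT : 0 < T) (hB : ∀ x ∈ B, T ≤ f x) (hM : ∑ x ∈ A, f x ≤ M) :
    (B.card : ℝ) ≤ M / T := by
  rw [le_div_iff₀ hT]
  calc (B.card : ℝ) * T = ∑ x ∈ B, T := by rw [Finset.sum_const, nsmul_eq_mul]
    _ ≤ ∑ x ∈ B, f x := Finset.sum_le_sum hB
    _ ≤ ∑ x ∈ A, f x := Finset.sum_le_sum_of_subset_of_nonneg hBA fun x hx _ => hf x hx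
    _ ≤ M := hM

private theorem cb_range {X U V H : ℝ} (hX : 32 ≤ X) (hU : X / 2 ≤ U) (hV : V ≤ 4 * X)
    (hHX : H ≤ X / 8) {n m : ℕ} (h : KC U V H n m ≠ 0) :
    n ∈ Icc ⌈X / 4⌉₊ (20 * ⌈X / 4⌉₊) := by
  have h1 : U - H / 2 < (n : ℝ) := by
    by_contra h'
    exact h (KC_eq_zero_of_le (not_lt.1 h'))
  have h2 : (n : ℝ) < V + H / 2 := by
    by_contra h'
    exact h (KC_eq_zero_of_ge (not_lt.1 h'))
  rw [Finset.mem_Icc]
  constructor
  · rw [Nat.ceil_le]
    linarith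
  · have h3 : X / 4 ≤ (⌈X / 4⌉₊ : ℝ) := Nat.le_ceil _
    have h4 : (n : ℝ) ≤ ((20 * ⌈X / 4⌉₊ : ℕ) : ℝ) := by
      push_cast
      linarith
    exact_mod_cast h4

private theorem cb_close {U V H : ℝ} (hH : 0 ≤ H) {n m : ℕ} (h : KC U V H n m ≠ 0) :
    |(n : ℤ) - m| ≤ (⌊H⌋₊ : ℤ) := by
  have h1 : |(n : ℝ) - m| < H := by
    by_contra h'
    exact h (KC_eq_zero_of_far (not_lt.1 h'))
  have h2 : ((|(n : ℤ) - m| : ℤ) : ℝ) ≤ H := by
    push_cast
    exact h1.le
  have h3 : |(n : ℤ) - m| ≤ ⌊H⌋ := Int.le_floor.2 h2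
  rw [Int.natCast_floor_eq_floor hH]
  exact h3

open Classical in
theorem char_dev : ∃ C : ℝ, 1 ≤ C ∧ ∀ (X U V H lam : ℝ) (q : ℕ), 32 ≤ X →
    X / 2 ≤ U → U ≤ V → V ≤ 4 * X → 1 ≤ H → H ≤ X / 8 → q.Prime → H < q →
    C * (1 / Real.sqrt X + H / X + 1 / q) ≤ lam →
    (((univ : Finset (DirichletCharacter ℂ q)).filter (fun χ => lam * X * H <
      |IC (muc q χ) U V H - 6 / Real.pi ^ 2 * H * (V - U)|)).card : ℝ) ≤
      q * (C * (H / X * (1 + Real.log X) + H ^ 2 / q) / lam ^ 2) := by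
  obtain ⟨C1, hC1, hdg⟩ := dg_prime
  obtain ⟨C2, hC2, hQQ⟩ := card_QQ
  refine ⟨1 + 2 * C1 + 4 * C2, by linarith, ?_⟩
  intro X U V H lam q hX hU hUV hV hH hHX hq hHq hlam
  have hX0 : 0 < X := by linarith
  have hH0 : 0 < H := by linarith
  have hq0 : (0 : ℝ) < q := by exact_mod_cast hq.pos
  have hsX : 0 < Real.sqrt X := Real.sqrt_pos.2 hX0
  set E : ℝ := 1 / Real.sqrt X + H / X + 1 / q with hE
  have hE0 : 0 < E := by positivity
  have hlam0 : 0 < lam := lt_of_lt_of_le (by positivity) hlam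
  set N : ℕ := ⌈V + H⌉₊ with hN
  have hVN : V + H ≤ N := Nat.le_ceil _
  set Y : ℕ := ⌈X / 4⌉₊ with hY
  set h : ℕ := ⌊H⌋₊ with hh
  have hY1 : 1 ≤ Y := Nat.one_le_iff_ne_zero.2 (Nat.ceil_pos.2 (by positivity)).ne'
  have hh1 : 1 ≤ h := by
    rw [hh, Nat.one_le_floor_iff]
    exact hH
  have hhH : (h : ℝ) ≤ H := Nat.floor_le hH0.le
  have hhq : h < q := by
    have : (h : ℝ) < q := lt_of_le_of_lt hhH hHq
    exact_mod_cast this
  have hYX : (Y : ℝ) ≤ X := by
    have := Nat.ceil_lt_add_one (show 0 ≤ X / 4 by positivity)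
    rw [hY]
    linarith
  set S : Finset (ℕ × ℕ) := (range N ×ˢ range N).filter
    (fun p => p.1 ≠ p.2 ∧ KC U V H p.1 p.2 ≠ 0) with hSdef
  have hS : ∀ p, p ∈ S ↔ (p.1 < N ∧ p.2 < N) ∧ p.1 ≠ p.2 ∧ KC U V H p.1 p.2 ≠ 0 := by
    intro p
    rw [hSdef, Finset.mem_filter, Finset.mem_product, Finset.mem_range, Finset.mem_range]
  -- second moment
  have hsec := char_second q hq S (fun p => KC U V H p.1 p.2) (κ := H) (by
    intro s _
    rw [abs_of_nonneg (KC_nonneg _ _ _ _ _)]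
    exact KC_le hH0.le _ _)
  have hcard : (((S ×ˢ S).filter (fun t => t.1.1 * t.2.2 ≡ t.2.1 * t.1.2 [MOD q])).card : ℝ) ≤
      ((QQ Y h q).card : ℝ) := by
    have hsub : (S ×ˢ S).filter (fun t => t.1.1 * t.2.2 ≡ t.2.1 * t.1.2 [MOD q]) ⊆ QQ Y h q := by
      intro t ht
      rw [Finset.mem_filter, Finset.mem_product, hS, hS] at ht
      obtain ⟨⟨⟨-, h1, h2⟩, ⟨-, h3, h4⟩⟩, h5⟩ := ht
      have h2' : KC U V H t.1.2 t.1.1 ≠ 0 := by rw [KC_comm]; exact h2
      have h4' : KC U V H t.2.2 t.2.1 ≠ 0 := by rw [KC_comm]; exact h4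
      unfold QQ
      rw [Finset.mem_filter, Finset.mem_product, Finset.mem_product, Finset.mem_product]
      exact ⟨⟨⟨cb_range hX hU hV hHX h2, cb_range hX hU hV hHX h2'⟩,
        ⟨cb_range hX hU hV hHX h4, cb_range hX hU hV hHX h4'⟩⟩, ⟨h1, h3⟩,
        ⟨cb_close hH0.le h2, cb_close hH0.le h4⟩, h5⟩
    exact_mod_cast Finset.card_le_card hsub
  have hQ := hQQ Y h q hY1 hh1 hq hhq
  -- bound for QQ
  have hh0 : (1 : ℝ) ≤ h := by exact_mod_cast hh1
  have hlogh : Real.log h ≤ Real.log X := Real.log_le_log (by linarith) (by linarith)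
  have hlogh0 : 0 ≤ Real.log h := Real.log_nonneg hh0
  have hlogX0 : 0 ≤ Real.log X := Real.log_nonneg (by linarith)
  have hY0 : (0 : ℝ) ≤ Y := Nat.cast_nonneg _
  have hQ2 : ((QQ Y h q).card : ℝ) ≤ C2 * (X * H * (1 + Real.log X) + X ^ 2 * H ^ 2 / q) := by
    refine hQ.trans (mul_le_mul_of_nonneg_left ?_ hC2.le)
    apply add_le_add
    · apply mul_le_mul _ (by linarith) (by linarith) (by positivity)
      exact mul_le_mul hYX hhH (by linarith) hX0.le
    · apply div_le_div_of_nonneg_right _ hq0.le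
      exact mul_le_mul (pow_le_pow_left₀ hY0 hYX 2) (pow_le_pow_left₀ (by linarith) hhH 2)
        (by positivity) (by positivity)
  -- diagonal
  have hdiag := hdg X U V H N q (by linarith) (by linarith) hUV (by linarith) hH (by linarith)
    hVN hq
  have hdiag2 : |Dg (fun n => ¬ q ∣ n) U V H N - 6 / Real.pi ^ 2 * H * (V - U)| ≤
      lam / 2 * X * H := by
    refine hdiag.trans ?_
    have h1 : H * Real.sqrt X + H ^ 2 + H * X / q = X * H * E := by
      have h2 : Real.sqrt X * Real.sqrt X = X := Real.mul_self_sqrt hX0.le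
      have h3 : X * (1 / Real.sqrt X) = Real.sqrt X := by
        rw [mul_one_div, div_eq_iff hsX.ne', h2]
      have h4 : X * (H / X) = H := by field_simp
      calc H * Real.sqrt X + H ^ 2 + H * X / q
          = H * (X * (1 / Real.sqrt X)) + H * (X * (H / X)) + H * X * (1 / q) := by
            rw [h3, h4]; ring
        _ = X * H * E := by rw [hE]; ring
    rw [h1]
    have h5 : 2 * C1 * E ≤ lam := by
      refine le_trans ?_ hlam
      apply mul_le_mul_of_nonneg_right _ hE0.le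
      linarith
    have h6 : 0 ≤ X * H := by positivity
    nlinarith [mul_le_mul_of_nonneg_left h5 h6]
  -- Chebyshev
  have hT : 0 < (lam / 2 * X * H) ^ 2 := by positivity
  have hch := cb_cheb ((univ : Finset (DirichletCharacter ℂ q)).filter (fun χ => lam * X * H <
      |IC (muc q χ) U V H - 6 / Real.pi ^ 2 * H * (V - U)|)) univ (Finset.subset_univ _)
      (fun χ => ‖∑ s ∈ S, muc q χ s.1 * (starRingEnd ℂ) (muc q χ s.2) *
        ((KC U V H s.1 s.2 : ℝ) : ℂ)‖ ^ 2) ((lam / 2 * X * H) ^ 2)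
      (q * H ^ 2 * (C2 * (X * H * (1 + Real.log X) + X ^ 2 * H ^ 2 / q)))
      (fun χ _ => sq_nonneg _) hT ?_ ?_
  · refine hch.trans ?_
    have h1 : q * H ^ 2 * (C2 * (X * H * (1 + Real.log X) + X ^ 2 * H ^ 2 / q)) /
        (lam / 2 * X * H) ^ 2 = q * (4 * C2 * (H / X * (1 + Real.log X) + H ^ 2 / q) / lam ^ 2) := by
      field_simp
      ring
    rw [h1]
    apply mul_le_mul_of_nonneg_left _ hq0.le
    apply div_le_div_of_nonneg_right _ (by positivity)
    apply mul_le_mul_of_nonneg_right (by linarith)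
    positivity
  · intro χ hχ
    rw [Finset.mem_filter] at hχ
    have h1 := hχ.2
    have h2 := cb_split q hq χ hUV hH0 hVN S hS
    have h3 : |IC (muc q χ) U V H - 6 / Real.pi ^ 2 * H * (V - U)| =
        ‖((Dg (fun n => ¬ q ∣ n) U V H N - 6 / Real.pi ^ 2 * H * (V - U) : ℝ) : ℂ) +
          ∑ s ∈ S, muc q χ s.1 * (starRingEnd ℂ) (muc q χ s.2) *
            ((KC U V H s.1 s.2 : ℝ) : ℂ)‖ := by
      rw [← Real.norm_eq_abs, ← Complex.norm_real, Complex.ofReal_sub, h2, Complex.ofReal_sub]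
      congr 1
      ring
    have h4 : |IC (muc q χ) U V H - 6 / Real.pi ^ 2 * H * (V - U)| ≤ lam / 2 * X * H +
        ‖∑ s ∈ S, muc q χ s.1 * (starRingEnd ℂ) (muc q χ s.2) *
            ((KC U V H s.1 s.2 : ℝ) : ℂ)‖ := by
      rw [h3]
      refine (norm_add_le _ _).trans (add_le_add ?_ le_rfl)
      rw [Complex.norm_real, Real.norm_eq_abs]
      exact hdiag2
    apply pow_le_pow_left₀ (by positivity)
    linarith
  · refine hsec.trans ?_
    apply mul_le_mul_of_nonneg_left (hcard.trans hQ2) (by positivity)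

open Classical in
theorem char_up {X H T : ℝ} {q : ℕ} (hq : q.Prime) (hX : 32 ≤ X)
    (hH : 1 ≤ H) (hHX : H ≤ X) (hHq : H < q) (hT : 0 < T) :
    (((univ : Finset (DirichletCharacter ℂ q)).filter (fun χ => T ^ 2 * X * H <
      ∫ y in (X / 4)..(5 * X), ‖MC (muc q χ) y H‖ ^ 2)).card : ℝ) ≤ q * (10 / T ^ 2) := by
  have hX0 : 0 < X := by linarith
  have hH0 : 0 < H := by linarith
  have hq0 : (0 : ℝ) < q := by exact_mod_cast hq.pos
  have : NeZero q := ⟨hq.ne_zero⟩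
  have hUV : X / 4 ≤ 5 * X := by linarith
  set N : ℕ := ⌈5 * X + H⌉₊ with hN
  have hVN : 5 * X + H ≤ N := Nat.le_ceil _
  -- the sum over the characters
  have hsum : ∑ χ : DirichletCharacter ℂ q, IC (muc q χ) (X / 4) (5 * X) H ≤ q * (10 * X * H) := by
    have h1 : ((∑ χ : DirichletCharacter ℂ q, IC (muc q χ) (X / 4) (5 * X) H : ℝ) : ℂ) =
        ((∑ χ : DirichletCharacter ℂ q, ∑ n ∈ range N,
          ‖muc q χ n‖ ^ 2 * KC (X / 4) (5 * X) H n n : ℝ) : ℂ) := by
      rw [Complex.ofReal_sum, Finset.sum_congr rfl fun (χ : DirichletCharacter ℂ q) _ =>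
        IC_expand_diag (muc q χ) hUV hH0 hVN, Finset.sum_add_distrib, Complex.ofReal_sum]
      conv_rhs => rw [← add_zero (∑ _, _)]
      congr 1
      rw [Finset.sum_comm]
      apply Finset.sum_eq_zero
      intro p hp
      rw [Finset.mem_filter] at hp
      by_cases hK : KC (X / 4) (5 * X) H p.1 p.2 = 0
      · apply Finset.sum_eq_zero
        intro χ _
        rw [hK, Complex.ofReal_zero, mul_zero]
      · have h2 := cb_close hH0.le hK
        have h3 : (p.1 : ZMod q) ≠ (p.2 : ZMod q) := by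
          intro h
          have h4 : (p.1 : ℤ) ≡ p.2 [ZMOD q] := by
            have := (ZMod.natCast_eq_natCast_iff _ _ _).1 h
            exact Int.natCast_modEq_iff.2 this
          have h5 : (q : ℤ) ∣ (p.1 : ℤ) - p.2 := (Int.modEq_iff_dvd.1 h4.symm)
          have h6 : (⌊H⌋₊ : ℤ) < q := by
            have : ((⌊H⌋₊ : ℕ) : ℝ) < q := lt_of_le_of_lt (Nat.floor_le hH0.le) hHq
            exact_mod_cast this
          have h7 : (p.1 : ℤ) - p.2 = 0 := Int.eq_zero_of_abs_lt_dvd h5 (lt_of_le_of_lt h2 h6)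
          apply hp.2
          omega
        have h4 := cb_orth q hq (p.1 : ZMod q) (p.2 : ZMod q)
        rw [if_neg h3] at h4
        have h5 : ∑ χ : DirichletCharacter ℂ q, χ (p.1 : ZMod q) *
            (starRingEnd ℂ) (χ (p.2 : ZMod q)) = 0 :=
          norm_eq_zero.1 (le_antisymm h4 (norm_nonneg _))
        have h6 : ∀ χ : DirichletCharacter ℂ q, muc q χ p.1 * (starRingEnd ℂ) (muc q χ p.2) *
            ((KC (X / 4) (5 * X) H p.1 p.2 : ℝ) : ℂ) =
            (((ArithmeticFunction.moebius p.1 : ℤ) : ℂ) *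
              ((ArithmeticFunction.moebius p.2 : ℤ) : ℂ) *
              ((KC (X / 4) (5 * X) H p.1 p.2 : ℝ) : ℂ)) *
              (χ (p.1 : ZMod q) * (starRingEnd ℂ) (χ (p.2 : ZMod q))) := by
          intro χ
          simp only [muc, map_mul, map_intCast]
          ring
        rw [Finset.sum_congr rfl fun χ _ => h6 χ, ← Finset.mul_sum, h5, mul_zero]
    have h2 := Complex.ofReal_injective h1
    rw [h2]
    -- the diagonal
    have hdiag : ∑ n ∈ range N, KC (X / 4) (5 * X) H n n ≤ 10 * X * H := by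
      have h3 : ∀ n ∈ range N, KC (X / 4) (5 * X) H n n ≤
          if n < ⌈5 * X + H / 2⌉₊ then H else 0 := by
        intro n _
        split_ifs with h
        · exact KC_le hH0.le _ _
        · rw [KC_eq_zero_of_ge]
          exact Nat.ceil_le.1 (not_lt.1 h)
      refine (Finset.sum_le_sum h3).trans ?_
      rw [← Finset.sum_filter, Finset.sum_const, nsmul_eq_mul]
      have h4 : (((range N).filter (fun n => n < ⌈5 * X + H / 2⌉₊)).card : ℝ) ≤
          (⌈5 * X + H / 2⌉₊ : ℝ) := by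
        have h5 : (range N).filter (fun n => n < ⌈5 * X + H / 2⌉₊) ⊆ range ⌈5 * X + H / 2⌉₊ := by
          intro n hn
          rw [Finset.mem_filter] at hn
          exact Finset.mem_range.2 hn.2
        have h6 := Finset.card_le_card h5
        rw [Finset.card_range] at h6
        exact_mod_cast h6
      have h7 : (⌈5 * X + H / 2⌉₊ : ℝ) ≤ 10 * X := by
        have := Nat.ceil_lt_add_one (show 0 ≤ 5 * X + H / 2 by positivity)
        linarith
      exact mul_le_mul_of_nonneg_right (h4.trans h7) hH0.le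
    have h4 : ∀ χ : DirichletCharacter ℂ q, ∑ n ∈ range N,
        ‖muc q χ n‖ ^ 2 * KC (X / 4) (5 * X) H n n ≤ 10 * X * H := by
      intro χ
      refine le_trans (Finset.sum_le_sum fun n _ => ?_) hdiag
      have h5 : ‖muc q χ n‖ ^ 2 ≤ 1 := pow_le_one₀ (norm_nonneg _) (norm_muc_le q χ n)
      calc _ ≤ 1 * KC (X / 4) (5 * X) H n n :=
            mul_le_mul_of_nonneg_right h5 (KC_nonneg _ _ _ _ _)
        _ = _ := one_mul _
    refine (Finset.sum_le_sum fun χ _ => h4 χ).trans ?_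
    rw [Finset.sum_const, nsmul_eq_mul]
    apply mul_le_mul_of_nonneg_right _ (by positivity)
    have h5 : (univ : Finset (DirichletCharacter ℂ q)).card = q.totient := by
      rw [Finset.card_univ, ← Nat.card_eq_fintype_card]
      exact DirichletCharacter.card_eq_totient_of_hasEnoughRootsOfUnity ℂ q
    rw [h5]
    exact_mod_cast Nat.totient_le q
  have hch := cb_cheb ((univ : Finset (DirichletCharacter ℂ q)).filter (fun χ => T ^ 2 * X * H <
      ∫ y in (X / 4)..(5 * X), ‖MC (muc q χ) y H‖ ^ 2)) univ (Finset.subset_univ _)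
      (fun χ => IC (muc q χ) (X / 4) (5 * X) H) (T ^ 2 * X * H) (q * (10 * X * H)) ?_
      (by positivity) ?_ hsum
  · refine hch.trans (le_of_eq ?_)
    field_simp
  · intro χ _
    unfold IC
    exact intervalIntegral.integral_nonneg hUV fun x _ => sq_nonneg _
  · intro χ hχ
    rw [Finset.mem_filter] at hχ
    exact hχ.2.le

end Pool.Agent.H18.RM
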