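import Pool.Agent.H18.RM.Defs
import Pool.Agent.H91.PK.Msq

/-!
# Quadruples with square product

`SQ Y h` is the set of the quadruples `((n,m),(n',m'))` of squarefree numbers in `[Y, 20Y]` with
`n ≠ m`, `n' ≠ m'`, `|n - m| ≤ h`, `|n' - m'| ≤ h` and `n m n' m'` a square.  Claim:
`#SQ ≤ C Y h (1 + log (20Y))^4`.

Proof.  Write `g = gcd(n,m)`, `n = g a`, `m = g b`, `g' = gcd(n',m')`, `n' = g' a'`, `m' = g' b'`.
`a, b` are coprime and squarefree (divisors of squarefree numbers), so `ab` is squarefree, and so is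
`a'b'`; as `n m n' m' = (g g')² (ab)(a'b')` is a square, `(ab)(a'b')` is a square, hence
`ab = a'b'`.  `g` divides `n - m ≠ 0`, so `g ≤ h`; `g² ab = nm ≥ Y²` and `g'² a'b' = n'm' ≤ 400 Y²`
give `g' ≤ 20 g`.  The quadruple is determined by `(g, a, b, a', g')`, where `a'` is a divisor of
`ab`: the number of quadruples with given `g` is at most
`20 g ∑_{a ≠ b, a,b ≤ 20Y/g, |a-b| ≤ h/g} τ(ab)` and `τ(ab) ≤ τ(a)τ(b) ≤ (τ(a)²+τ(b)²)/2`, so (for
given `a` there are at most `2h/g` values `b ≠ a` with `|a-b| ≤ h/g`) at most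
`20 g (2h/g) ∑_{a ≤ 20Y/g} τ(a)² ≤ 40 h (20Y/g) (1 + log (20Y))³`
(`Pool.Agent.H91.PK`: `Msq_tau_sq`).  Sum over `g ≤ 20Y`.
-/

set_option autoImplicit false

namespace Pool.Agent.H18.RM

open Finset

def SQ (Y h : ℕ) : Finset ((ℕ × ℕ) × (ℕ × ℕ)) :=
  (((Icc Y (20 * Y)) ×ˢ (Icc Y (20 * Y))) ×ˢ ((Icc Y (20 * Y)) ×ˢ (Icc Y (20 * Y)))).filter
    (fun t => (Squarefree t.1.1 ∧ Squarefree t.1.2 ∧ Squarefree t.2.1 ∧ Squarefree t.2.2) ∧
      (t.1.1 ≠ t.1.2 ∧ t.2.1 ≠ t.2.2) ∧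
      (|(t.1.1 : ℤ) - t.1.2| ≤ h ∧ |(t.2.1 : ℤ) - t.2.2| ≤ h) ∧
      IsSquare (t.1.1 * t.1.2 * (t.2.1 * t.2.2)))

/-- a square times a number being a square, the number is a square -/
theorem CountS_sq_of_mul {k x : ℕ} (hk : 0 < k) (h : IsSquare (k ^ 2 * x)) : IsSquare x := by
  obtain ⟨y, hy⟩ := h
  have h1 : k ^ 2 ∣ y ^ 2 := ⟨x, by rw [hy]; ring⟩
  have h2 : k ∣ y := (Nat.pow_dvd_pow_iff (by norm_num)).1 h1
  obtain ⟨z, rfl⟩ := h2
  refine ⟨z, ?_⟩
  have : k ^ 2 * x = k ^ 2 * (z * z) := by rw [hy]; ring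
  exact Nat.eq_of_mul_eq_mul_left (by positivity) this

/-- two squarefree numbers with square product are equal -/
theorem CountS_eq {u v : ℕ} (hu : Squarefree u) (hv : Squarefree v) (h : IsSquare (u * v)) :
    u = v := by
  obtain ⟨w, hw⟩ := h
  have hu0 : u ≠ 0 := hu.ne_zero
  have hv0 : v ≠ 0 := hv.ne_zero
  have hw0 : w ≠ 0 := by
    rintro rfl
    simp at hw
    tauto
  apply Nat.eq_of_factorization_eq hu0 hv0
  intro p
  have h1 := hu.natFactorization_le_one p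
  have h2 := hv.natFactorization_le_one p
  have h3 : (u * v).factorization p = (w * w).factorization p := by rw [hw]
  rw [Nat.factorization_mul hu0 hv0, Nat.factorization_mul hw0 hw0] at h3
  simp only [Finsupp.add_apply] at h3
  omega

/-- the cofactors of the gcd of two squarefree numbers have squarefree product -/
theorem CountS_cof {n m : ℕ} (hn : Squarefree n) (hm : Squarefree m) :
    Squarefree (n / n.gcd m * (m / n.gcd m)) := by
  have hn0 : 0 < n := Nat.pos_of_ne_zero hn.ne_zero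
  have hg : 0 < n.gcd m := Nat.gcd_pos_of_pos_left _ hn0
  rw [Nat.squarefree_mul (Nat.coprime_div_gcd_div_gcd hg)]
  exact ⟨hn.squarefree_of_dvd (Nat.div_dvd_of_dvd (Nat.gcd_dvd_left _ _)),
    hm.squarefree_of_dvd (Nat.div_dvd_of_dvd (Nat.gcd_dvd_right _ _))⟩

/-- the pairs `(a, b)` for given `g` -/
def CountS_P (Y h g : ℕ) : Finset (ℕ × ℕ) :=
  ((Icc 1 (20 * Y / g)) ×ˢ (Icc 1 (20 * Y / g))).filter
    (fun p => p.1 ≠ p.2 ∧ |(p.1 : ℤ) - p.2| * g ≤ h)

/-- the parameter set -/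
def CountS_T (Y h : ℕ) : Finset (Σ _ : ℕ, Σ _ : ℕ × ℕ, ℕ × ℕ) :=
  (Icc 1 (20 * Y)).sigma (fun g => (CountS_P Y h g).sigma
    (fun p => (p.1 * p.2).divisors ×ˢ Icc 1 (20 * g)))

theorem CountS_card_T (Y h : ℕ) : (CountS_T Y h).card =
    ∑ g ∈ Icc 1 (20 * Y), ∑ p ∈ CountS_P Y h g, (p.1 * p.2).divisors.card * (20 * g) := by
  unfold CountS_T
  rw [card_sigma]
  refine sum_congr rfl (fun g _ => ?_)
  rw [card_sigma]
  refine sum_congr rfl (fun p _ => ?_)
  rw [card_product]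
  simp

/-- the main injection -/
theorem CountS_inj (Y h : ℕ) (hY : 1 ≤ Y) : (SQ Y h).card ≤ (CountS_T Y h).card := by
  classical
  refine Finset.card_le_card_of_injOn
    (fun t => ⟨t.1.1.gcd t.1.2, ⟨(t.1.1 / t.1.1.gcd t.1.2, t.1.2 / t.1.1.gcd t.1.2),
      (t.2.1 / t.2.1.gcd t.2.2, t.2.1.gcd t.2.2)⟩⟩) ?_ ?_
  · rintro ⟨⟨n, m⟩, ⟨n', m'⟩⟩ ht
    simp only [SQ, coe_filter, mem_product, mem_Icc, Set.mem_ofPred_eq] at ht
    obtain ⟨⟨⟨⟨h1, h2⟩, h3, h4⟩, ⟨h5, h6⟩, h7, h8⟩, ⟨s1, s2, s3, s4⟩, ⟨d1, d2⟩, ⟨e1, e2⟩, hs⟩ := ht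
    have hn0 : 0 < n := by omega
    have hn0' : 0 < n' := by omega
    set g := n.gcd m with hg
    set g' := n'.gcd m' with hg'
    have hg0 : 0 < g := Nat.gcd_pos_of_pos_left _ hn0
    have hg0' : 0 < g' := Nat.gcd_pos_of_pos_left _ hn0'
    have hcof := CountS_cof s1 s2
    have hcof' := CountS_cof s3 s4
    rw [← hg] at hcof
    rw [← hg'] at hcof'
    obtain ⟨a, ha⟩ := Nat.gcd_dvd_left n m
    obtain ⟨b, hb⟩ := Nat.gcd_dvd_right n m
    obtain ⟨a', ha'⟩ := Nat.gcd_dvd_left n' m'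
    obtain ⟨b', hb'⟩ := Nat.gcd_dvd_right n' m'
    rw [← hg] at ha hb
    rw [← hg'] at ha' hb'
    have qa : n / g = a := by
      conv_lhs => rw [ha]
      exact Nat.mul_div_cancel_left a hg0
    have qb : m / g = b := by
      conv_lhs => rw [hb]
      exact Nat.mul_div_cancel_left b hg0
    have qa' : n' / g' = a' := by
      conv_lhs => rw [ha']
      exact Nat.mul_div_cancel_left a' hg0'
    have qb' : m' / g' = b' := by
      conv_lhs => rw [hb']
      exact Nat.mul_div_cancel_left b' hg0'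
    rw [qa, qb] at hcof
    rw [qa', qb'] at hcof'
    have hab : a * b = a' * b' := by
      apply CountS_eq hcof hcof'
      apply CountS_sq_of_mul (k := g * g') (Nat.mul_pos hg0 hg0')
      have : (g * g') ^ 2 * (a * b * (a' * b')) = n * m * (n' * m') := by
        rw [ha, hb, ha', hb']; ring
      rw [this]
      exact hs
    have hab0 : 0 < a * b := Nat.pos_of_ne_zero hcof.ne_zero
    have ha0 : 0 < a := Nat.pos_of_mul_pos_right hab0
    have hb0 : 0 < b := Nat.pos_of_mul_pos_left hab0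
    simp only [CountS_T, coe_sigma, Set.mem_sigma_iff, mem_coe, mem_Icc, mem_product, CountS_P,
      coe_product, coe_filter, Set.mem_ofPred_eq, Nat.mem_divisors, Set.mem_prod, coe_Icc,
      Set.mem_Icc]
    rw [qa, qb, qa']
    refine ⟨⟨hg0, ?_⟩, ⟨⟨⟨ha0, ?_⟩, hb0, ?_⟩, ?_, ?_⟩, ⟨?_, hab0.ne'⟩, hg0', ?_⟩
    · exact (Nat.le_of_dvd hn0 (Nat.gcd_dvd_left _ _)).trans h2
    · rw [Nat.le_div_iff_mul_le hg0, mul_comm, ← ha]
      exact h2
    · rw [Nat.le_div_iff_mul_le hg0, mul_comm, ← hb]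
      exact h4
    · intro he
      apply d1
      rw [ha, hb, he]
    · have : |(a : ℤ) - b| * g = |(n : ℤ) - m| := by
        have e : (n : ℤ) - m = ((a : ℤ) - b) * g := by
          have e1 : (n : ℤ) = g * a := by exact_mod_cast ha
          have e2 : (m : ℤ) = g * b := by exact_mod_cast hb
          rw [e1, e2]; ring
        rw [e, abs_mul]
        congr 1
        simp
      rw [this]
      exact e1
    · rw [hab]
      exact Dvd.intro _ rfl
    · have k1 : Y ^ 2 ≤ g ^ 2 * (a * b) := by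
        have : Y * Y ≤ n * m := Nat.mul_le_mul h1 h3
        calc Y ^ 2 = Y * Y := by ring
          _ ≤ n * m := this
          _ = g ^ 2 * (a * b) := by rw [ha, hb]; ring
      have k2 : g' ^ 2 * (a * b) ≤ 400 * Y ^ 2 := by
        have : n' * m' ≤ (20 * Y) * (20 * Y) := Nat.mul_le_mul h6 h8
        calc g' ^ 2 * (a * b) = n' * m' := by rw [hab, ha', hb']; ring
          _ ≤ (20 * Y) * (20 * Y) := this
          _ = 400 * Y ^ 2 := by ring
      have k3 : g' ^ 2 * (a * b) ≤ (20 * g) ^ 2 * (a * b) := by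
        calc g' ^ 2 * (a * b) ≤ 400 * Y ^ 2 := k2
          _ ≤ 400 * (g ^ 2 * (a * b)) := Nat.mul_le_mul_left _ k1
          _ = (20 * g) ^ 2 * (a * b) := by ring
      have k4 : g' ^ 2 ≤ (20 * g) ^ 2 := Nat.le_of_mul_le_mul_right k3 hab0
      exact (Nat.pow_le_pow_iff_left (by norm_num)).1 k4
  · rintro ⟨⟨n, m⟩, ⟨n', m'⟩⟩ ht ⟨⟨p, q⟩, ⟨p', q'⟩⟩ hu heq
    simp only [SQ, coe_filter, mem_product, mem_Icc, Set.mem_ofPred_eq] at ht hu
    obtain ⟨⟨⟨⟨h1, h2⟩, h3, h4⟩, ⟨h5, h6⟩, h7, h8⟩, ⟨s1, s2, s3, s4⟩, ⟨d1, d2⟩, ⟨e1, e2⟩, hs⟩ := ht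
    obtain ⟨⟨⟨⟨h1', h2'⟩, h3', h4'⟩, ⟨h5', h6'⟩, h7', h8'⟩, ⟨s1', s2', s3', s4'⟩, ⟨d1', d2'⟩,
      ⟨e1', e2'⟩, hs'⟩ := hu
    simp only [Sigma.mk.injEq, heq_eq_eq, Prod.mk.injEq] at heq
    obtain ⟨f1, ⟨f2, f3⟩, f4, f5⟩ := heq
    have key : ∀ {x y z w : ℕ}, Squarefree x → Squarefree y → Squarefree z → Squarefree w →
        IsSquare (x * y * (z * w)) →
        (x / x.gcd y) * (y / x.gcd y) = (z / z.gcd w) * (w / z.gcd w) := by
      intro x y z w hx hy hz hw hsq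
      have hx0 : 0 < x := Nat.pos_of_ne_zero hx.ne_zero
      have hz0 : 0 < z := Nat.pos_of_ne_zero hz.ne_zero
      have hg0 : 0 < x.gcd y := Nat.gcd_pos_of_pos_left _ hx0
      have hg0' : 0 < z.gcd w := Nat.gcd_pos_of_pos_left _ hz0
      apply CountS_eq (CountS_cof hx hy) (CountS_cof hz hw)
      apply CountS_sq_of_mul (k := x.gcd y * z.gcd w) (Nat.mul_pos hg0 hg0')
      have e : (x.gcd y * z.gcd w) ^ 2 * (x / x.gcd y * (y / x.gcd y) *
          (z / z.gcd w * (w / z.gcd w))) = x * y * (z * w) := by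
        have a1 := Nat.mul_div_cancel' (Nat.gcd_dvd_left x y)
        have a2 := Nat.mul_div_cancel' (Nat.gcd_dvd_right x y)
        have a3 := Nat.mul_div_cancel' (Nat.gcd_dvd_left z w)
        have a4 := Nat.mul_div_cancel' (Nat.gcd_dvd_right z w)
        calc _ = (x.gcd y * (x / x.gcd y)) * (x.gcd y * (y / x.gcd y)) *
            ((z.gcd w * (z / z.gcd w)) * (z.gcd w * (w / z.gcd w))) := by ring
          _ = _ := by rw [a1, a2, a3, a4]
      rw [e]
      exact hsq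
    have k1 := key s1 s2 s3 s4 hs
    have k2 := key s1' s2' s3' s4' hs'
    have hn : n = p := by
      rw [← Nat.mul_div_cancel' (Nat.gcd_dvd_left n m), ← Nat.mul_div_cancel' (Nat.gcd_dvd_left p q),
        f2, f1]
    have hm : m = q := by
      rw [← Nat.mul_div_cancel' (Nat.gcd_dvd_right n m),
        ← Nat.mul_div_cancel' (Nat.gcd_dvd_right p q), f3, f1]
    have hn' : n' = p' := by
      rw [← Nat.mul_div_cancel' (Nat.gcd_dvd_left n' m'),
        ← Nat.mul_div_cancel' (Nat.gcd_dvd_left p' q'), f4, f5]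
    have hq0 : 0 < p' / p'.gcd q' := by
      have hp0 : 0 < p' := by omega
      exact Nat.div_pos (Nat.le_of_dvd hp0 (Nat.gcd_dvd_left _ _)) (Nat.gcd_pos_of_pos_left _ hp0)
    have hb' : m' / n'.gcd m' = q' / p'.gcd q' := by
      rw [f2, f3, k2, f4] at k1
      exact (Nat.eq_of_mul_eq_mul_left hq0 k1).symm
    have hm' : m' = q' := by
      rw [← Nat.mul_div_cancel' (Nat.gcd_dvd_right n' m'),
        ← Nat.mul_div_cancel' (Nat.gcd_dvd_right p' q'), hb', f5]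
    rw [hn, hm, hn', hm']

/-- the number of `b ≠ a` close to `a` -/
theorem CountS_close (M a h g : ℕ) (hg : 1 ≤ g) :
    (((Icc 1 M).filter (fun b : ℕ => a ≠ b ∧ |(a : ℤ) - b| * g ≤ h)).card : ℝ) ≤
      2 * ((h : ℝ) / g) := by
  have h1 : ((Icc 1 M).filter (fun b : ℕ => a ≠ b ∧ |(a : ℤ) - b| * g ≤ h)).card ≤
      ((Icc ((a : ℤ) - (h / g : ℕ)) ((a : ℤ) + (h / g : ℕ))).erase (a : ℤ)).card := by
    refine Finset.card_le_card_of_injOn (fun b : ℕ => (b : ℤ)) ?_ ?_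
    · intro b hb
      simp only [coe_filter, mem_Icc, Set.mem_ofPred_eq] at hb
      obtain ⟨-, hb1, hb2⟩ := hb
      have hab : |(a : ℤ) - b| ≤ (h / g : ℕ) := by
        have : (a - b : ℤ).natAbs * g ≤ h := by
          have e : ((a - b : ℤ).natAbs : ℤ) = |(a : ℤ) - b| := Int.natCast_natAbs _
          zify
          exact hb2
        have h3 : (a - b : ℤ).natAbs ≤ h / g := (Nat.le_div_iff_mul_le (by omega)).2 this
        have e : ((a - b : ℤ).natAbs : ℤ) = |(a : ℤ) - b| := Int.natCast_natAbs _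
        rw [← e]
        exact_mod_cast h3
      rw [abs_le] at hab
      simp only [coe_erase, coe_Icc, Set.mem_sdiff, Set.mem_Icc, Set.mem_singleton_iff]
      refine ⟨⟨by linarith [hab.2], by linarith [hab.1]⟩, ?_⟩
      intro h5
      apply hb1
      exact_mod_cast h5.symm
    · intro b _ c _ hbc
      simpa using hbc
  have h2 : ((Icc ((a : ℤ) - (h / g : ℕ)) ((a : ℤ) + (h / g : ℕ))).erase (a : ℤ)).card =
      2 * (h / g) := by
    rw [card_erase_of_mem, Int.card_Icc]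
    · omega
    · rw [mem_Icc]
      constructor <;> linarith [Int.natCast_nonneg (h / g)]
  rw [h2] at h1
  have h3 : ((h / g : ℕ) : ℝ) ≤ (h : ℝ) / g := Nat.cast_div_le
  calc _ ≤ ((2 * (h / g) : ℕ) : ℝ) := by exact_mod_cast h1
    _ = 2 * ((h / g : ℕ) : ℝ) := by push_cast; ring
    _ ≤ _ := by linarith

/-- the sum over the pairs for given `g` -/
theorem CountS_pairs (Y h g : ℕ) (hg : 1 ≤ g) (hgY : g ≤ 20 * Y) :
    ∑ p ∈ CountS_P Y h g, ((p.1 * p.2).divisors.card : ℝ) ≤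
      2 * ((h : ℝ) / g) * ((20 * Y / g : ℕ) * (Real.log (20 * Y / g : ℕ) + 1) ^ 3) := by
  have hM : 1 ≤ 20 * Y / g := Nat.div_pos hgY hg
  set M := 20 * Y / g with hMdef
  have hts := Pool.Agent.H91.PK.Msq_tau_sq M hM
  have h0 : (0 : ℝ) ≤ (h : ℝ) / g := by positivity
  have hterm : ∀ p : ℕ × ℕ, ((p.1 * p.2).divisors.card : ℝ) ≤
      (1 / 2) * (p.1.divisors.card : ℝ) ^ 2 + (1 / 2) * (p.2.divisors.card : ℝ) ^ 2 := by
    intro p
    have h2 : (p.1 * p.2).divisors.card ≤ p.1.divisors.card * p.2.divisors.card := by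
      rw [Nat.divisors_mul]
      exact card_mul_le
    have h3 : ((p.1 * p.2).divisors.card : ℝ) ≤ p.1.divisors.card * p.2.divisors.card := by
      exact_mod_cast h2
    nlinarith [sq_nonneg ((p.1.divisors.card : ℝ) - p.2.divisors.card)]
  have hA : ∑ p ∈ CountS_P Y h g, (p.1.divisors.card : ℝ) ^ 2 ≤
      2 * ((h : ℝ) / g) * ∑ a ∈ Icc 1 M, (a.divisors.card : ℝ) ^ 2 := by
    unfold CountS_P
    rw [sum_filter, sum_product, mul_sum]
    refine sum_le_sum (fun a _ => ?_)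
    rw [← sum_filter]
    dsimp only
    rw [sum_const, nsmul_eq_mul]
    have := CountS_close M a h g hg
    exact mul_le_mul_of_nonneg_right this (by positivity)
  have hB : ∑ p ∈ CountS_P Y h g, (p.2.divisors.card : ℝ) ^ 2 ≤
      2 * ((h : ℝ) / g) * ∑ a ∈ Icc 1 M, (a.divisors.card : ℝ) ^ 2 := by
    unfold CountS_P
    rw [sum_filter, sum_product_right, mul_sum]
    refine sum_le_sum (fun b _ => ?_)
    rw [← sum_filter]
    dsimp only
    rw [sum_const, nsmul_eq_mul]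
    have h1 := CountS_close M b h g hg
    have h2 : (Icc 1 M).filter (fun a : ℕ => a ≠ b ∧ |(a : ℤ) - b| * g ≤ h) =
        (Icc 1 M).filter (fun a : ℕ => b ≠ a ∧ |(b : ℤ) - a| * g ≤ h) := by
      apply filter_congr
      intro a _
      rw [abs_sub_comm, ne_comm]
    rw [← hMdef, h2]
    exact mul_le_mul_of_nonneg_right h1 (by positivity)
  calc ∑ p ∈ CountS_P Y h g, ((p.1 * p.2).divisors.card : ℝ)
      ≤ ∑ p ∈ CountS_P Y h g, ((1 / 2) * (p.1.divisors.card : ℝ) ^ 2 +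
          (1 / 2) * (p.2.divisors.card : ℝ) ^ 2) := sum_le_sum (fun p _ => hterm p)
    _ = (1 / 2) * ∑ p ∈ CountS_P Y h g, (p.1.divisors.card : ℝ) ^ 2 +
          (1 / 2) * ∑ p ∈ CountS_P Y h g, (p.2.divisors.card : ℝ) ^ 2 := by
        rw [sum_add_distrib, mul_sum, mul_sum]
    _ ≤ 2 * ((h : ℝ) / g) * ∑ a ∈ Icc 1 M, (a.divisors.card : ℝ) ^ 2 := by linarith
    _ ≤ _ := mul_le_mul_of_nonneg_left hts (by positivity)

theorem card_SQ : ∃ C : ℝ, 0 < C ∧ ∀ Y h : ℕ, 1 ≤ Y → 1 ≤ h →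
    ((SQ Y h).card : ℝ) ≤ C * Y * h * (1 + Real.log (20 * Y)) ^ 4 := by
  refine ⟨800, by norm_num, fun Y h hY hh => ?_⟩
  have hY0 : (0 : ℝ) < Y := by exact_mod_cast hY
  have hY1 : (1 : ℝ) ≤ Y := by exact_mod_cast hY
  have hlog : 0 ≤ Real.log (20 * Y) := Real.log_nonneg (by linarith)
  have h1 : ((SQ Y h).card : ℝ) ≤ ((CountS_T Y h).card : ℝ) := by
    exact_mod_cast CountS_inj Y h hY
  rw [CountS_card_T] at h1
  refine h1.trans ?_
  push_cast
  have h2 : ∀ g ∈ Icc 1 (20 * Y), ∑ p ∈ CountS_P Y h g,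
      ((p.1 * p.2).divisors.card : ℝ) * (20 * (g : ℝ)) ≤
      800 * Y * h * (1 + Real.log (20 * Y)) ^ 3 * (1 / (g : ℝ)) := by
    intro g hg
    rw [mem_Icc] at hg
    have hg0 : (0 : ℝ) < g := by exact_mod_cast hg.1
    rw [← sum_mul]
    have h3 := CountS_pairs Y h g hg.1 hg.2
    have hM : 1 ≤ 20 * Y / g := Nat.div_pos hg.2 hg.1
    have hM1 : (1 : ℝ) ≤ ((20 * Y / g : ℕ) : ℝ) := by exact_mod_cast hM
    have h4 : ((20 * Y / g : ℕ) : ℝ) ≤ (20 * Y : ℝ) / g := by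
      have : ((20 * Y / g : ℕ) : ℝ) ≤ ((20 * Y : ℕ) : ℝ) / g := Nat.cast_div_le
      simpa using this
    have h5 : ((20 * Y / g : ℕ) : ℝ) ≤ (20 * Y : ℝ) := by
      have : 20 * Y / g ≤ 20 * Y := Nat.div_le_self _ _
      exact_mod_cast this
    have h6 : Real.log (20 * Y / g : ℕ) ≤ Real.log (20 * Y) :=
      Real.log_le_log (by linarith) h5
    have h7 : 0 ≤ Real.log (20 * Y / g : ℕ) := Real.log_nonneg hM1
    have h8 : (Real.log (20 * Y / g : ℕ) + 1) ^ 3 ≤ (1 + Real.log (20 * Y)) ^ 3 := by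
      apply pow_le_pow_left₀ (by linarith)
      linarith
    calc (∑ p ∈ CountS_P Y h g, ((p.1 * p.2).divisors.card : ℝ)) * (20 * (g : ℝ))
        ≤ (2 * ((h : ℝ) / g) * ((20 * Y / g : ℕ) * (Real.log (20 * Y / g : ℕ) + 1) ^ 3)) *
            (20 * (g : ℝ)) := mul_le_mul_of_nonneg_right h3 (by positivity)
      _ ≤ (2 * ((h : ℝ) / g) * ((20 * Y : ℝ) / g * (1 + Real.log (20 * Y)) ^ 3)) *
            (20 * (g : ℝ)) := by
          apply mul_le_mul_of_nonneg_right _ (by positivity)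
          apply mul_le_mul_of_nonneg_left _ (by positivity)
          exact mul_le_mul h4 h8 (by positivity) (by positivity)
      _ = 800 * Y * h * (1 + Real.log (20 * Y)) ^ 3 * (1 / (g : ℝ)) := by
          field_simp
          ring
  refine (sum_le_sum h2).trans ?_
  rw [← mul_sum]
  have h9 := Pool.Agent.H91.PK.Msq_harmonic (20 * Y)
  push_cast at h9
  calc 800 * (Y : ℝ) * h * (1 + Real.log (20 * Y)) ^ 3 * ∑ g ∈ Icc 1 (20 * Y), (1 / (g : ℝ))
      ≤ 800 * (Y : ℝ) * h * (1 + Real.log (20 * Y)) ^ 3 * (1 + Real.log (20 * Y)) :=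
        mul_le_mul_of_nonneg_left h9 (by positivity)
    _ = _ := by ring

end Pool.Agent.H18.RM
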