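import Mathlib

/-!
# Windows sums of bounded multiplicative functions (definitions)

`MC g x H` is the sum of `g n` over the integers `n` with `|n - x| < H / 2`, `IC g U V H` the
integral of its squared modulus over `[U, V]`, `KC U V H n m` the length of the set of the `x` in
`[U, V]` whose window contains both `n` and `m`.
-/

set_option autoImplicit false

namespace Pool.Agent.H18.RM

open Finset MeasureTheory

/-- the sum of `g n` over the integers `n ≥ 0` with `|n - x| < H / 2` (the index set is written
as in the frozen statement S15903) -/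
noncomputable def MC (g : ℕ → ℂ) (x H : ℝ) : ℂ :=
  ∑ n ∈ (range (⌈x + H⌉₊ + 1)).filter (fun n : ℕ => |(n : ℝ) - x| < H / 2), g n

/-- the integral of `|MC g x H|^2` over `x` in `[U, V]` -/
noncomputable def IC (g : ℕ → ℂ) (U V H : ℝ) : ℝ := ∫ x in U..V, ‖MC g x H‖ ^ 2

/-- the length of the set of `x` in `[U, V]` with `|n - x| < H / 2` and `|m - x| < H / 2` -/
noncomputable def KC (U V H : ℝ) (n m : ℕ) : ℝ :=
  max 0 (min V (min (n : ℝ) m + H / 2) - max U (max (n : ℝ) m - H / 2))

/-- the diagonal sum over squarefree numbers -/
noncomputable def Dg (P : ℕ → Prop) [DecidablePred P] (U V H : ℝ) (N : ℕ) : ℝ :=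
  ∑ n ∈ (range N).filter (fun n => Squarefree n ∧ P n), KC U V H n n

end Pool.Agent.H18.RM
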