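import Pool.Agent.H18.RM.Chain

/-!
# From a net of window lengths to all window lengths (deterministic)

`det`: for `2^i ≤ H < 2^(i+1)` let `j = ⌊J (H/2^i - 1)⌋`, `H' = 2^i (1 + j/J)`, `η = H - H'`, so that
`0 ≤ η ≤ 2^i/J ≤ H'/J`.  If `η > 0`, `chain_close` with `T √X` in place of `T` and `R = X/8`... (the
hypothesis `h1` gives the bound on `[U - R, V + R]`, contained in `[X/4, 5X]`) shows
`|√IC(H) - √IC(H')| ≤ 5 T √(X H'/J)`; moreover `IC(H') ≤ 4 X H'`.

`trans`: `IC` is monotone in the interval of integration.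
-/

set_option autoImplicit false

namespace Pool.Agent.H18.RM

open Finset MeasureTheory

private theorem Det_int {g : ℕ → ℂ} (hg : ∀ n, ‖g n‖ ≤ 1) {H : ℝ} (hH : 0 < H) (a b : ℝ) :
    IntervalIntegrable (fun x => ‖MC g x H‖ ^ 2) volume a b := by
  have h := intervalIntegrable_MC hg hH 0 a b
  simpa using h

private theorem Det_mono {g : ℕ → ℂ} (hg : ∀ n, ‖g n‖ ≤ 1) {H : ℝ} (hH : 0 < H) {a b c d : ℝ}
    (hca : c ≤ a) (hab : a ≤ b) (hbd : b ≤ d) :
    ∫ x in a..b, ‖MC g x H‖ ^ 2 ≤ ∫ x in c..d, ‖MC g x H‖ ^ 2 := by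
  refine intervalIntegral.integral_mono_interval hca hab hbd ?_ (Det_int hg hH c d)
  exact Filter.Eventually.of_forall fun x => by positivity

private theorem Det_nonneg (g : ℕ → ℂ) {U V : ℝ} (hUV : U ≤ V) (H : ℝ) : 0 ≤ IC g U V H := by
  unfold IC
  exact intervalIntegral.integral_nonneg hUV fun x _ => by positivity

private theorem Det_pi : 6 / Real.pi ^ 2 ≤ 61 / 100 ∧ 1 / 2 ≤ 6 / Real.pi ^ 2 := by
  have h1 : (3.14 : ℝ) < Real.pi := Real.pi_gt_d2
  have h2 : Real.pi < (3.15 : ℝ) := Real.pi_lt_d2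
  have h3 : 0 < Real.pi := by linarith
  have h4 : (0 : ℝ) < Real.pi ^ 2 := by positivity
  constructor
  · rw [div_le_iff₀ h4]
    nlinarith
  · rw [div_le_div_iff₀ (by norm_num) h4]
    nlinarith

private theorem Det_alg {T w a b s : ℝ} (hT : 8 ≤ T) (hw0 : 0 < w) (hww : w ^ 2 ≤ w)
    (ha0 : 0 ≤ a) (hb0 : 0 ≤ b) (hs0 : 0 ≤ s) (hdd : |a - b| ≤ 5 * T * (s * w))
    (hb4 : b ≤ 2 * s) : |a ^ 2 - b ^ 2| ≤ s ^ 2 * (28 * T ^ 2 * w) := by
  have hab : a + b ≤ 4 * s + 5 * T * (s * w) := by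
    have := (abs_le.1 hdd).2
    linarith
  have hT0 : 0 < T := by linarith
  have hfac : |a ^ 2 - b ^ 2| = |a - b| * (a + b) := by
    rw [show a ^ 2 - b ^ 2 = (a - b) * (a + b) by ring, abs_mul,
      abs_of_nonneg (show 0 ≤ a + b by linarith)]
  rw [hfac]
  calc |a - b| * (a + b) ≤ (5 * T * (s * w)) * (4 * s + 5 * T * (s * w)) := by
        apply mul_le_mul hdd hab (by linarith) (by positivity)
    _ = s ^ 2 * (20 * (T * w) + 25 * (T ^ 2 * w ^ 2)) := by ring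
    _ ≤ s ^ 2 * (28 * T ^ 2 * w) := by
        apply mul_le_mul_of_nonneg_left _ (by positivity)
        have h11 : T * w * 8 ≤ T ^ 2 * w := by
          have h0 : 0 < T * w := mul_pos hT0 hw0
          have h1 : T * w * 8 ≤ T * w * T := mul_le_mul_of_nonneg_left hT h0.le
          linarith [show T * w * T = T ^ 2 * w by ring]
        have h12 : T ^ 2 * w ^ 2 ≤ T ^ 2 * w :=
          mul_le_mul_of_nonneg_left hww (by positivity)
        have h13 : 0 ≤ T ^ 2 * w := by positivity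
        linarith

private theorem Det_k3 {c VU X H' H η T w : ℝ} (hpi1 : c ≤ 61 / 100) (hpi2 : 1 / 2 ≤ c)
    (hX0 : 0 < X) (hH'0 : 0 < H') (hVU : VU ≤ 7 / 2 * X) (hVU0 : 0 ≤ VU) (hT : 8 ≤ T)
    (hw0 : 0 < w) (hww : w ^ 2 ≤ w) (hη0 : 0 ≤ η) (hη1 : η ≤ H' * w ^ 2) (hHeq : H = H' + η) :
    |c * H' * VU - c * H * VU| ≤ T ^ 2 * w * X * H' := by
  have h13 : c * H' * VU - c * H * VU = -(c * η * VU) := by rw [hHeq]; ring
  rw [h13, abs_neg, abs_of_nonneg (by positivity)]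
  have h14 : c * η * VU ≤ 61 / 100 * (H' * w ^ 2) * (7 / 2 * X) := by
    apply mul_le_mul _ hVU hVU0 (by positivity)
    exact mul_le_mul hpi1 hη1 hη0 (by norm_num)
  have h16 : w ^ 2 * (X * H') ≤ w * (X * H') :=
    mul_le_mul_of_nonneg_right hww (by positivity)
  have h17 : 0 ≤ w * (X * H') := by positivity
  have h20 : 64 ≤ T ^ 2 := by nlinarith
  have h21 : 64 * (w * (X * H')) ≤ T ^ 2 * (w * (X * H')) :=
    mul_le_mul_of_nonneg_right h20 h17
  have h22 : 61 / 100 * (H' * w ^ 2) * (7 / 2 * X) = 427 / 200 * (w ^ 2 * (X * H')) := by ring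
  have h23 : T ^ 2 * w * X * H' = T ^ 2 * (w * (X * H')) := by ring
  linarith

private theorem Det_b {c X H' VU δ I b s : ℝ} (hpi1 : c ≤ 61 / 100) (hX0 : 0 < X)
    (hH'0 : 0 < H') (hVU : VU ≤ 7 / 2 * X) (hVU0 : 0 ≤ VU) (hδ1 : δ ≤ 1) (hs0 : 0 ≤ s)
    (hs2 : s ^ 2 = X * H') (hb2 : I = b ^ 2) (k2 : |I - c * H' * VU| ≤ δ * X * H') :
    b ≤ 2 * s := by
  have h6 : b ^ 2 ≤ (2 * s) ^ 2 := by
    rw [← hb2, mul_pow, hs2]
    have h7 := (abs_le.1 k2).2
    have h8 : c * H' * VU ≤ 61 / 100 * H' * (7 / 2 * X) := by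
      apply mul_le_mul _ hVU hVU0 (by positivity)
      exact mul_le_mul_of_nonneg_right hpi1 hH'0.le
    have h9 : δ * X * H' ≤ 1 * X * H' := by
      apply mul_le_mul_of_nonneg_right _ hH'0.le
      exact mul_le_mul_of_nonneg_right hδ1 hX0.le
    have h10 : 0 < X * H' := by positivity
    linarith [show 61 / 100 * H' * (7 / 2 * X) = 427 / 200 * (X * H') by ring]
  exact (abs_le_of_sq_le_sq' h6 (by positivity)).2

private theorem Det_sq {T X η s w H' : ℝ} (hT : 0 ≤ T) (hX0 : 0 < X)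
    (hs0 : 0 ≤ s) (hw0 : 0 ≤ w) (hs2 : s ^ 2 = X * H') (hη1 : η ≤ H' * w ^ 2) :
    5 * (T * Real.sqrt X) * Real.sqrt η ≤ 5 * T * (s * w) := by
  have h5 : Real.sqrt X * Real.sqrt η ≤ s * w := by
    rw [← Real.sqrt_mul hX0.le]
    apply Real.sqrt_le_iff.2
    refine ⟨by positivity, ?_⟩
    rw [mul_pow, hs2]
    have := mul_le_mul_of_nonneg_left hη1 hX0.le
    linarith [show X * (H' * w ^ 2) = X * H' * w ^ 2 by ring]
  calc 5 * (T * Real.sqrt X) * Real.sqrt η = 5 * T * (Real.sqrt X * Real.sqrt η) := by ring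
    _ ≤ 5 * T * (s * w) := by
      apply mul_le_mul_of_nonneg_left h5
      positivity

theorem det {g : ℕ → ℂ} (hg : ∀ n, ‖g n‖ ≤ 1) {X U V R T δ : ℝ} {J : ℕ} (hX : 16 ≤ X)
    (hU : X / 2 ≤ U) (hUV : U ≤ V) (hV : V ≤ 4 * X) (hR : R ≤ X / 8) (hT : 8 ≤ T) (hJ : 1 ≤ J)
    (hδ0 : 0 ≤ δ) (hδ1 : δ ≤ 1)
    (h1 : ∀ i : ℕ, (2 : ℝ) ^ i ≤ R →
      ∫ y in (X / 4)..(5 * X), ‖MC g y ((2 : ℝ) ^ i)‖ ^ 2 ≤ T ^ 2 * X * 2 ^ i)
    (h2 : ∀ i j : ℕ, j < J → (2 : ℝ) ^ i * (1 + j / J) ≤ R →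
      |IC g U V ((2 : ℝ) ^ i * (1 + j / J)) - 6 / Real.pi ^ 2 * ((2 : ℝ) ^ i * (1 + j / J)) * (V - U)|
        ≤ δ * X * ((2 : ℝ) ^ i * (1 + j / J)))
    {H : ℝ} (hH1 : 1 ≤ H) (hHR : H ≤ R) :
    |IC g U V H - 6 / Real.pi ^ 2 * H * (V - U)| ≤ (δ + 60 * T ^ 2 / Real.sqrt J) * X * H := by
  obtain ⟨hpi1, hpi2⟩ := Det_pi
  set c : ℝ := 6 / Real.pi ^ 2 with hc
  obtain ⟨i, hi1, hi2⟩ := exists_nat_pow_near hH1 (show (1 : ℝ) < 2 by norm_num)
  have hJ0 : (0 : ℝ) < J := by exact_mod_cast (show 0 < J by omega)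
  have hJ1 : (1 : ℝ) ≤ J := by exact_mod_cast hJ
  set e : ℝ := (2 : ℝ) ^ i with he
  have he0 : 0 < e := by positivity
  have he1 : 1 ≤ e := one_le_pow₀ (by norm_num)
  rw [pow_succ, ← he] at hi2
  have hz0 : 0 ≤ (J : ℝ) * (H / e - 1) := by
    have : 1 ≤ H / e := by rw [le_div_iff₀ he0]; linarith
    have h2 : 0 ≤ H / e - 1 := by linarith
    positivity
  have hz1 : (J : ℝ) * (H / e - 1) < J := by
    have : H / e < 2 := by rw [div_lt_iff₀ he0]; linarith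
    have h2 : H / e - 1 < 1 := by linarith
    nlinarith
  obtain ⟨j, hj⟩ : ∃ j : ℕ, j = ⌊(J : ℝ) * (H / e - 1)⌋₊ := ⟨_, rfl⟩
  have hjJ : j < J := by
    rw [hj]
    exact (Nat.floor_lt hz0).2 hz1
  have hj1 : (j : ℝ) ≤ (J : ℝ) * (H / e - 1) := by
    rw [hj]
    exact Nat.floor_le hz0
  have hj2 : (J : ℝ) * (H / e - 1) < (j : ℝ) + 1 := by
    rw [hj]
    exact Nat.lt_floor_add_one _
  obtain ⟨H', hH'⟩ : ∃ H' : ℝ, H' = e * (1 + (j : ℝ) / J) := ⟨_, rfl⟩
  have hHe : H = e * (H / e) := by field_simp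
  have hH'H : H' ≤ H := by
    rw [hH']
    have : (j : ℝ) / J ≤ H / e - 1 := by rw [div_le_iff₀ hJ0]; linarith
    calc e * (1 + (j : ℝ) / J) ≤ e * (H / e) := by
          apply mul_le_mul_of_nonneg_left _ he0.le
          linarith
      _ = H := hHe.symm
  have heta : H - H' ≤ e / J := by
    have h3 : H / e - 1 ≤ ((j : ℝ) + 1) / J := by rw [le_div_iff₀ hJ0]; linarith
    have h4 : H - H' = e * (H / e - 1 - (j : ℝ) / J) := by
      rw [hH']
      have := hHe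
      linear_combination this
    rw [h4, div_eq_mul_inv e]
    apply mul_le_mul_of_nonneg_left _ he0.le
    rw [add_div] at h3
    rw [inv_eq_one_div]
    linarith
  have heH' : e ≤ H' := by
    rw [hH']
    have : 0 ≤ (j : ℝ) / J := by positivity
    nlinarith
  have hH'0 : 0 < H' := by linarith
  have hH'R : H' ≤ R := hH'H.trans hHR
  have hX0 : 0 < X := by linarith
  have hVU : V - U ≤ 7 / 2 * X := by linarith
  have hVU0 : 0 ≤ V - U := by linarith
  have k2 := h2 i j hjJ (by rw [← hH']; exact hH'R)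
  rw [← hH'] at k2
  -- abbreviations
  obtain ⟨w, hw⟩ : ∃ w : ℝ, w = 1 / Real.sqrt J := ⟨_, rfl⟩
  have hsJ1 : 1 ≤ Real.sqrt J := by
    rw [show (1 : ℝ) = Real.sqrt 1 by simp]
    exact Real.sqrt_le_sqrt hJ1
  have hw0 : 0 < w := by rw [hw]; positivity
  have hw1 : w ≤ 1 := by
    rw [hw, div_le_one (by linarith)]
    exact hsJ1
  have hw2 : w ^ 2 = 1 / J := by
    rw [hw, div_pow, one_pow, Real.sq_sqrt hJ0.le]
  have hww : w ^ 2 ≤ w := by nlinarith
  have hgoal : (δ + 60 * T ^ 2 / Real.sqrt J) * X * H = δ * X * H + 60 * T ^ 2 * w * X * H := by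
    rw [hw]
    ring
  rw [hgoal]
  obtain ⟨η, hη⟩ : ∃ η : ℝ, η = H - H' := ⟨_, rfl⟩
  have hη0 : 0 ≤ η := by linarith
  have hη1 : η ≤ H' * w ^ 2 := by
    rw [hw2, mul_one_div, hη]
    refine heta.trans ?_
    gcongr
  have hHeq : H = H' + η := by linarith
  -- the difference of the integrals
  have key : |IC g U V H - IC g U V H'| ≤ 28 * T ^ 2 * w * X * H' := by
    rcases hη0.lt_or_eq with hηp | hηz
    · have hch := chain_close (g := g) hg (U := U) (V := V) (R := R) (T := T * Real.sqrt X) hUV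
        (by linarith) (by positivity) (by
          rw [mul_pow, Real.sq_sqrt hX0.le]
          have hT64 : 64 ≤ T ^ 2 := by nlinarith
          have hTX : 64 * X ≤ T ^ 2 * X := mul_le_mul_of_nonneg_right hT64 hX0.le
          linarith) (by
          intro i' hi'
          have hm := Det_mono hg (H := (2 : ℝ) ^ i') (by positivity)
            (a := U - R) (b := V + R) (c := X / 4) (d := 5 * X) (by linarith) (by linarith)
            (by linarith)
          rw [mul_pow, Real.sq_sqrt hX0.le]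
          exact hm.trans (h1 i' hi')) hH'0 hηp (by rw [← hHeq]; exact hHR)
      rw [← hHeq] at hch
      obtain ⟨a, ha⟩ : ∃ a : ℝ, a = Real.sqrt (IC g U V H) := ⟨_, rfl⟩
      obtain ⟨b, hb⟩ : ∃ b : ℝ, b = Real.sqrt (IC g U V H') := ⟨_, rfl⟩
      rw [← ha, ← hb] at hch
      have ha2 : IC g U V H = a ^ 2 := by rw [ha, Real.sq_sqrt (Det_nonneg g hUV H)]
      have hb2 : IC g U V H' = b ^ 2 := by rw [hb, Real.sq_sqrt (Det_nonneg g hUV H')]
      have ha0 : 0 ≤ a := by rw [ha]; exact Real.sqrt_nonneg _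
      have hb0 : 0 ≤ b := by rw [hb]; exact Real.sqrt_nonneg _
      obtain ⟨s, hs⟩ : ∃ s : ℝ, s = Real.sqrt (X * H') := ⟨_, rfl⟩
      have hs0 : 0 ≤ s := by rw [hs]; exact Real.sqrt_nonneg _
      have hs2 : s ^ 2 = X * H' := by rw [hs, Real.sq_sqrt (by positivity)]
      have hd : 5 * (T * Real.sqrt X) * Real.sqrt η ≤ 5 * T * (s * w) :=
        Det_sq (by linarith) hX0 hs0 hw0.le hs2 hη1
      have hdd := hch.trans hd
      have hb4 : b ≤ 2 * s := Det_b hpi1 hX0 hH'0 hVU hVU0 hδ1 hs0 hs2 hb2 k2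
      rw [ha2, hb2]
      have hfin := Det_alg hT hw0 hww ha0 hb0 hs0 hdd hb4
      rw [hs2] at hfin
      refine hfin.trans (le_of_eq ?_)
      ring
    · have : H = H' := by linarith
      rw [this, sub_self, abs_zero]
      positivity
  have k3 : |c * H' * (V - U) - c * H * (V - U)| ≤ T ^ 2 * w * X * H' :=
    Det_k3 hpi1 hpi2 hX0 hH'0 hVU hVU0 hT hw0 hww hη0 hη1 hHeq
  have k4 : δ * X * H' ≤ δ * X * H := mul_le_mul_of_nonneg_left hH'H (by positivity)
  have k5 : T ^ 2 * w * X * H' ≤ T ^ 2 * w * X * H :=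
    mul_le_mul_of_nonneg_left hH'H (by positivity)
  have k6 : 0 ≤ T ^ 2 * w * X * H' := by positivity
  have k7 : 28 * T ^ 2 * w * X * H' = 28 * (T ^ 2 * w * X * H') := by ring
  have k8 : 60 * T ^ 2 * w * X * H = 60 * (T ^ 2 * w * X * H) := by ring
  rw [k7] at key
  rw [k8]
  have tri : |IC g U V H - c * H * (V - U)| ≤ |IC g U V H - IC g U V H'|
      + |IC g U V H' - c * H' * (V - U)| + |c * H' * (V - U) - c * H * (V - U)| := by
    have := abs_add_three (IC g U V H - IC g U V H') (IC g U V H' - c * H' * (V - U))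
      (c * H' * (V - U) - c * H * (V - U))
    refine le_trans (le_of_eq ?_) this
    congr 1
    ring
  linarith

theorem trans {g : ℕ → ℂ} (hg : ∀ n, ‖g n‖ ≤ 1) {X X' Y H κ τ : ℝ} (hX : 1 ≤ X) (hH : 1 ≤ H)
    (hτ0 : 0 ≤ τ) (hτ1 : τ ≤ 1 / 2) (hXY : X ≤ Y) (hYX : Y ≤ X') (hX' : X' ≤ (1 + τ) * X)
    (hκ : 0 ≤ κ)
    (h1 : |IC g X (2 * X') H - 6 / Real.pi ^ 2 * H * (2 * X' - X)| ≤ κ * X * H)
    (h2 : |IC g X' (2 * X) H - 6 / Real.pi ^ 2 * H * (2 * X - X')| ≤ κ * X * H) :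
    |(1 / Y * IC g Y (2 * Y) H) / (H / (Real.pi ^ 2 / 6)) - 1| ≤ 2 * κ + 6 * τ := by
  obtain ⟨hpi1, hpi2⟩ := Det_pi
  have hH0 : 0 < H := by linarith
  have hX0 : 0 < X := by linarith
  have hY0 : 0 < Y := by linarith
  have hX'2 : X' ≤ 2 * X := by nlinarith
  have m1 : IC g Y (2 * Y) H ≤ IC g X (2 * X') H :=
    Det_mono hg hH0 hXY (by linarith) (by linarith)
  have m2 : IC g X' (2 * X) H ≤ IC g Y (2 * Y) H :=
    Det_mono hg hH0 hYX hX'2 (by linarith)
  have hpi0 : (0 : ℝ) < Real.pi ^ 2 := by positivity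
  have hden : H / (Real.pi ^ 2 / 6) = 6 / Real.pi ^ 2 * H := by
    field_simp
  rw [hden]
  generalize 6 / Real.pi ^ 2 = c at *
  generalize IC g Y (2 * Y) H = I at *
  generalize IC g X (2 * X') H = I1 at *
  generalize IC g X' (2 * X) H = I2 at *
  have hc0 : 0 < c := by linarith
  have hD : 0 < Y * (c * H) := by positivity
  have e1 : (1 / Y * I) / (c * H) = I / (Y * (c * H)) := by
    field_simp
  rw [e1]
  have u1 := (abs_le.1 h1).2
  have u2 := (abs_le.1 h2).1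
  have hκ2 : κ * X * H ≤ 2 * κ * (Y * (c * H)) := by
    have h3 : κ * X * H ≤ κ * Y * H := by
      apply mul_le_mul_of_nonneg_right _ hH0.le
      exact mul_le_mul_of_nonneg_left hXY hκ
    have h4 : κ * Y * H ≤ 2 * κ * (Y * (c * H)) := by
      have h5 : 0 ≤ κ * Y * H := by positivity
      have h6 : 2 * κ * (Y * (c * H)) = (2 * c) * (κ * Y * H) := by ring
      rw [h6]
      nlinarith
    linarith
  have hcH : 0 < c * H := by positivity
  have hτY : 0 ≤ τ * Y := by positivity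
  rw [abs_le]
  constructor
  · have h7 : 1 - 6 * τ - 2 * κ ≤ I / (Y * (c * H)) := by
      rw [le_div_iff₀ hD]
      have h8 : (1 - 6 * τ) * Y ≤ 2 * X - X' := by
        have h9 : Y ≤ (1 + τ) * X := hYX.trans hX'
        have h10 : (1 - τ) * X ≤ 2 * X - X' := by linarith
        have h11 : (1 - 2 * τ) * Y ≤ (1 - τ) * X := by
          have h12 : 0 ≤ 1 - 2 * τ := by linarith
          have h13 : (1 - 2 * τ) * Y ≤ (1 - 2 * τ) * ((1 + τ) * X) :=
            mul_le_mul_of_nonneg_left h9 h12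
          have h14 : 0 ≤ τ ^ 2 * X := by positivity
          nlinarith
        linarith
      have h15 : c * H * ((1 - 6 * τ) * Y) ≤ c * H * (2 * X - X') :=
        mul_le_mul_of_nonneg_left h8 hcH.le
      nlinarith
    linarith
  · have h7 : I / (Y * (c * H)) ≤ 1 + 6 * τ + 2 * κ := by
      rw [div_le_iff₀ hD]
      have h8 : 2 * X' - X ≤ (1 + 6 * τ) * Y := by
        have h16 : 2 * X' - X ≤ (1 + 2 * τ) * X := by linarith
        have h17 : (1 + 2 * τ) * X ≤ (1 + 2 * τ) * Y :=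
          mul_le_mul_of_nonneg_left hXY (by linarith)
        linarith
      have h15 : c * H * (2 * X' - X) ≤ c * H * ((1 + 6 * τ) * Y) :=
        mul_le_mul_of_nonneg_left h8 hcH.le
      nlinarith
    linarith

end Pool.Agent.H18.RM
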