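import Pool.Agent.H18.RM.Basic

/-!
# Expansion of the mean square

Proof: for `x` in `[U, V]` use `MC_eq_sum`; the square is the double sum of `g n * conj (g m)` times
the product of the indicator functions of the open intervals `(n - H/2, n + H/2)` and
`(m - H/2, m + H/2)`, and the integral of this product over `[U, V]` is `KC U V H n m` (the length
of the intersection of the three intervals).
-/

set_option autoImplicit false

namespace Pool.Agent.H18.RM

open Finset MeasureTheory

private theorem Expand_set (H : ℝ) (n m : ℕ) :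
    {x : ℝ | |(n : ℝ) - x| < H / 2 ∧ |(m : ℝ) - x| < H / 2} =
      Set.Ioo (max (n : ℝ) m - H / 2) (min (n : ℝ) m + H / 2) := by
  ext x
  simp only [Set.mem_ofPred_eq, Set.mem_Ioo, abs_lt]
  constructor
  · rintro ⟨⟨h1, h2⟩, h3, h4⟩
    constructor
    · rcases max_cases (n : ℝ) (m : ℝ) with h | h <;> linarith [h.1]
    · rcases min_cases (n : ℝ) (m : ℝ) with h | h <;> linarith [h.1]
  · rintro ⟨h1, h2⟩
    have a1 := le_max_left (n : ℝ) (m : ℝ)
    have a2 := le_max_right (n : ℝ) (m : ℝ)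
    have a3 := min_le_left (n : ℝ) (m : ℝ)
    have a4 := min_le_right (n : ℝ) (m : ℝ)
    refine ⟨⟨?_, ?_⟩, ?_, ?_⟩ <;> linarith

private noncomputable def expandInd (H : ℝ) (n m : ℕ) : ℝ → ℝ :=
  (Set.Ioo (max (n : ℝ) m - H / 2) (min (n : ℝ) m + H / 2)).indicator (fun _ => (1 : ℝ))

private theorem Expand_ind (H : ℝ) (n m : ℕ) (x : ℝ) :
    expandInd H n m x = (if |(n : ℝ) - x| < H / 2 then 1 else 0) *
      (if |(m : ℝ) - x| < H / 2 then 1 else 0) := by
  unfold expandInd
  rw [← Expand_set]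
  by_cases h1 : |(n : ℝ) - x| < H / 2
  · by_cases h2 : |(m : ℝ) - x| < H / 2
    · have hx : x ∈ {x : ℝ | |(n : ℝ) - x| < H / 2 ∧ |(m : ℝ) - x| < H / 2} := ⟨h1, h2⟩
      rw [Set.indicator_of_mem hx, if_pos h1, if_pos h2, mul_one]
    · rw [Set.indicator_of_notMem (fun h => h2 h.2), if_neg h2, mul_zero]
  · rw [Set.indicator_of_notMem (fun h => h1 h.1), if_neg h1, zero_mul]

private theorem Expand_int {U V H : ℝ} (hUV : U ≤ V) (n m : ℕ) :
    ∫ x in U..V, expandInd H n m x = KC U V H n m := by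
  rw [intervalIntegral.integral_of_le hUV]
  set a := max (n : ℝ) m - H / 2 with ha
  set b := min (n : ℝ) m + H / 2 with hb
  have h1 : ∫ x in Set.Ioc U V, expandInd H n m x =
      ∫ x in Set.Ioc U V, (Set.Ioc a b).indicator (fun _ => (1 : ℝ)) x := by
    apply integral_congr_ae
    apply ae_restrict_of_ae
    unfold expandInd
    exact indicator_ae_eq_of_ae_eq_set Ioo_ae_eq_Ioc
  rw [h1, setIntegral_indicator measurableSet_Ioc, Set.Ioc_inter_Ioc, setIntegral_const]
  unfold KC
  rw [smul_eq_mul, mul_one, Real.volume_real_Ioc, max_comm]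

private theorem Expand_intble (U V H : ℝ) (n m : ℕ) :
    IntervalIntegrable (expandInd H n m) volume U V := by
  rw [intervalIntegrable_iff]
  unfold expandInd
  apply Integrable.indicator _ measurableSet_Ioo
  have : IntegrableOn (fun _ : ℝ => (1 : ℝ)) (Set.uIoc U V) volume := by
    rw [← intervalIntegrable_iff]
    exact intervalIntegrable_const
  exact this

private theorem Expand_intc (U V H : ℝ) (n m : ℕ) (c : ℂ) :
    IntervalIntegrable (fun x => c * ((expandInd H n m x : ℝ) : ℂ)) volume U V := by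
  apply IntervalIntegrable.const_mul
  exact ⟨(Expand_intble U V H n m).1.ofReal, (Expand_intble U V H n m).2.ofReal⟩

theorem IC_expand (g : ℕ → ℂ) {U V H : ℝ} (hUV : U ≤ V) (hH : 0 < H) {N : ℕ} (hN : V + H ≤ N) :
    ((IC g U V H : ℝ) : ℂ) =
      ∑ n ∈ range N, ∑ m ∈ range N, g n * (starRingEnd ℂ) (g m) * ((KC U V H n m : ℝ) : ℂ) := by
  unfold IC
  rw [← intervalIntegral.integral_ofReal]
  have h1 : ∫ x in U..V, (((‖MC g x H‖ ^ 2 : ℝ)) : ℂ) =
      ∫ x in U..V, ∑ n ∈ range N, ∑ m ∈ range N,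
        g n * (starRingEnd ℂ) (g m) * ((expandInd H n m x : ℝ) : ℂ) := by
    apply intervalIntegral.integral_congr
    intro x hx
    rw [Set.uIcc_of_le hUV] at hx
    have hxN : x + H ≤ N := by linarith [hx.2]
    simp only
    rw [MC_eq_sum g hH hxN]
    have e : ∀ z : ℂ, (((‖z‖ ^ 2 : ℝ)) : ℂ) = z * (starRingEnd ℂ) z := by
      intro z
      rw [Complex.mul_conj, Complex.normSq_eq_norm_sq]
    rw [e, map_sum, sum_mul_sum]
    apply sum_congr rfl
    intro n _
    apply sum_congr rfl
    intro m _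
    rw [Expand_ind]
    by_cases a1 : |(n : ℝ) - x| < H / 2 <;> by_cases a2 : |(m : ℝ) - x| < H / 2 <;>
      simp [a1, a2]
  rw [h1, intervalIntegral.integral_finsetSum]
  · apply sum_congr rfl
    intro n _
    rw [intervalIntegral.integral_finsetSum]
    · apply sum_congr rfl
      intro m _
      rw [intervalIntegral.integral_const_mul, intervalIntegral.integral_ofReal, Expand_int hUV]
    · intro m _
      exact Expand_intc U V H n m _
  · intro n _
    have h := IntervalIntegrable.sum (μ := volume) (a := U) (b := V) (range N)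
      (f := fun m x => g n * (starRingEnd ℂ) (g m) * ((expandInd H n m x : ℝ) : ℂ))
      (fun m _ => Expand_intc U V H n m _)
    have e : (∑ m ∈ range N, fun x => g n * (starRingEnd ℂ) (g m) *
        ((expandInd H n m x : ℝ) : ℂ)) = fun x => ∑ m ∈ range N,
        g n * (starRingEnd ℂ) (g m) * ((expandInd H n m x : ℝ) : ℂ) := by
      ext x
      simp only [Finset.sum_apply]
    rwa [e] at h

/-- diagonal and off-diagonal terms -/
theorem IC_expand_diag (g : ℕ → ℂ) {U V H : ℝ} (hUV : U ≤ V) (hH : 0 < H) {N : ℕ}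
    (hN : V + H ≤ N) :
    ((IC g U V H : ℝ) : ℂ) =
      ((∑ n ∈ range N, ‖g n‖ ^ 2 * KC U V H n n : ℝ) : ℂ) +
      ∑ p ∈ (range N ×ˢ range N).filter (fun p => p.1 ≠ p.2),
        g p.1 * (starRingEnd ℂ) (g p.2) * ((KC U V H p.1 p.2 : ℝ) : ℂ) := by
  rw [IC_expand g hUV hH hN]
  rw [← sum_product']
  rw [← sum_filter_add_sum_filter_not (range N ×ˢ range N) (fun p => p.1 = p.2)]
  congr 1
  have h2 : (range N ×ˢ range N).filter (fun p : ℕ × ℕ => p.1 = p.2) =
      (range N).image (fun n => (n, n)) := by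
    ext ⟨a, b⟩
    simp only [mem_filter, mem_product, mem_image, Prod.mk.injEq]
    constructor
    · rintro ⟨⟨ha, hb⟩, hab⟩
      exact ⟨a, ha, rfl, hab⟩
    · rintro ⟨c, hc, rfl, rfl⟩
      exact ⟨⟨hc, hc⟩, rfl⟩
  rw [h2, sum_image (by intro a _ b _ h; exact (Prod.mk.inj h).1)]
  push_cast
  apply sum_congr rfl
  intro n _
  rw [Complex.mul_conj, Complex.normSq_eq_norm_sq]
  push_cast
  ring

end Pool.Agent.H18.RM
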