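import Pool.Agent.H18.RM.CharB
import Pool.Agent.H18.RM.Good

/-!
# The law for almost all characters

`char_bad`: union bound (with `X' = X`), exactly as `prob_bad`; all window lengths in question are at
most `R < q`.

`law_char`: for `0 < ε ≤ 1` take `d = ε/20`, `T = X^d`, `J = ⌈X^(8d)⌉`, `δ = X^(-2d)`,
`R = min (X^(1-ε)) √(q X^(-ε))` (if `R < 1` there is nothing to prove; `R < q` since
`R² ≤ q X^(-ε) < q`).  If the set of windows is non-empty then `q ≥ X^ε`.  The number of bad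
characters is at most `q ((2 log X + 2) 10 X^(-2d) + C (1 + log X) J (R/X + R²/q) X^(4d)) ≤
q X^(-d)` for large `X`, and for good characters the error is at most
`2 (X^(-2d) + 60 X^(2d) / X^(4d)) ≤ X^(-d)`.
-/

set_option autoImplicit false

namespace Pool.Agent.H18.RM

open Finset MeasureTheory

private theorem finB_sum_two (k : ℕ) : ∑ i ∈ range (k + 1), (2 : ℝ) ^ i ≤ 2 * 2 ^ k := by
  induction k with
  | zero => norm_num
  | succ k ih =>
    rw [sum_range_succ]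
    have h : (2 : ℝ) ^ (k + 1) = 2 * 2 ^ k := by ring
    rw [h]
    linarith

private theorem finB_sum_four (k : ℕ) : ∑ i ∈ range (k + 1), ((2 : ℝ) ^ i) ^ 2 ≤ 2 * (2 ^ k) ^ 2 := by
  induction k with
  | zero => norm_num
  | succ k ih =>
    rw [sum_range_succ]
    have h : ((2 : ℝ) ^ (k + 1)) ^ 2 = 4 * (2 ^ k) ^ 2 := by ring
    rw [h]
    nlinarith [sq_nonneg ((2 : ℝ) ^ k)]

open Classical in
private theorem finB_card_le (q : ℕ) (X R T δ : ℝ) (J k : ℕ)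
    (hk : ∀ i : ℕ, (2 : ℝ) ^ i ≤ R → i ∈ range (k + 1)) :
    (((univ : Finset (DirichletCharacter ℂ q)).filter (fun χ =>
      ¬ GoodAt (muc q χ) X X R T δ J)).card : ℝ) ≤
      ∑ i ∈ range (k + 1), (((univ : Finset (DirichletCharacter ℂ q)).filter (fun χ =>
        T ^ 2 * X * (2 : ℝ) ^ i < ∫ y in (X / 4)..(5 * X), ‖MC (muc q χ) y ((2 : ℝ) ^ i)‖ ^ 2)).card
          : ℝ) +
      ∑ p ∈ ((range (k + 1)) ×ˢ (range J)).filter
          (fun p : ℕ × ℕ => (2 : ℝ) ^ p.1 * (1 + (p.2 : ℝ) / J) ≤ R),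
        (((univ : Finset (DirichletCharacter ℂ q)).filter (fun χ =>
          δ * X * ((2 : ℝ) ^ p.1 * (1 + (p.2 : ℝ) / J)) <
          |IC (muc q χ) X (2 * X) ((2 : ℝ) ^ p.1 * (1 + (p.2 : ℝ) / J)) -
            6 / Real.pi ^ 2 * ((2 : ℝ) ^ p.1 * (1 + (p.2 : ℝ) / J)) * (2 * X - X)|)).card : ℝ) := by
  have hsub : (univ : Finset (DirichletCharacter ℂ q)).filter (fun χ =>
      ¬ GoodAt (muc q χ) X X R T δ J) ⊆
      (range (k + 1)).biUnion (fun i => (univ : Finset (DirichletCharacter ℂ q)).filter (fun χ =>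
        T ^ 2 * X * (2 : ℝ) ^ i < ∫ y in (X / 4)..(5 * X), ‖MC (muc q χ) y ((2 : ℝ) ^ i)‖ ^ 2)) ∪
      (((range (k + 1)) ×ˢ (range J)).filter
          (fun p : ℕ × ℕ => (2 : ℝ) ^ p.1 * (1 + (p.2 : ℝ) / J) ≤ R)).biUnion
        (fun p => (univ : Finset (DirichletCharacter ℂ q)).filter (fun χ =>
          δ * X * ((2 : ℝ) ^ p.1 * (1 + (p.2 : ℝ) / J)) <
          |IC (muc q χ) X (2 * X) ((2 : ℝ) ^ p.1 * (1 + (p.2 : ℝ) / J)) -
            6 / Real.pi ^ 2 * ((2 : ℝ) ^ p.1 * (1 + (p.2 : ℝ) / J)) * (2 * X - X)|)) := by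
    intro χ hχ
    rw [mem_filter] at hχ
    by_contra hnot
    rw [mem_union, not_or] at hnot
    obtain ⟨h1, h2⟩ := hnot
    apply hχ.2
    have hI : ∀ i : ℕ, (2 : ℝ) ^ i ≤ R →
        ∫ y in (X / 4)..(5 * X), ‖MC (muc q χ) y ((2 : ℝ) ^ i)‖ ^ 2 ≤ T ^ 2 * X * 2 ^ i := by
      intro i hi
      by_contra hlt
      rw [not_le] at hlt
      apply h1
      rw [mem_biUnion]
      exact ⟨i, hk i hi, mem_filter.mpr ⟨mem_univ _, hlt⟩⟩
    have hII : ∀ i j : ℕ, j < J → (2 : ℝ) ^ i * (1 + j / J) ≤ R →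
        |IC (muc q χ) X (2 * X) ((2 : ℝ) ^ i * (1 + j / J)) -
        6 / Real.pi ^ 2 * ((2 : ℝ) ^ i * (1 + j / J)) * (2 * X - X)|
        ≤ δ * X * ((2 : ℝ) ^ i * (1 + j / J)) := by
      intro i j hj hij
      by_contra hlt
      rw [not_le] at hlt
      apply h2
      rw [mem_biUnion]
      refine ⟨(i, j), ?_, mem_filter.mpr ⟨mem_univ _, hlt⟩⟩
      rw [mem_filter, mem_product]
      refine ⟨⟨hk i ?_, mem_range.mpr hj⟩, hij⟩
      refine le_trans ?_ hij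
      have h0 : (0 : ℝ) < 2 ^ i := by positivity
      have h1' : (0 : ℝ) ≤ (j : ℝ) / J := by positivity
      nlinarith
    exact ⟨hI, hII, hII⟩
  have h1 := card_le_card hsub
  have h2 := h1.trans (card_union_le _ _)
  have h3 := h2.trans (add_le_add card_biUnion_le card_biUnion_le)
  exact_mod_cast h3

open Classical in
theorem char_bad : ∃ C : ℝ, 1 ≤ C ∧ ∀ (X R T δ : ℝ) (J q : ℕ), 32 ≤ X →
    1 ≤ R → R ≤ X / 8 → 0 < T → 1 ≤ J → q.Prime → R < q →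
    C * (1 / Real.sqrt X + R / X + 1 / q) ≤ δ →
    (((univ : Finset (DirichletCharacter ℂ q)).filter (fun χ =>
      ¬ GoodAt (muc q χ) X X R T δ J)).card : ℝ) ≤
      q * ((2 * Real.log X + 2) * (10 / T ^ 2) +
        C * (1 + Real.log X) * J * (R / X + R ^ 2 / q) / δ ^ 2) := by
  obtain ⟨C, hC1, hC⟩ := char_dev
  refine ⟨8 * C, by linarith, ?_⟩
  intro X R T δ J q hX hR1 hRX hT hJ hq hRq hδ
  have hX0 : (0 : ℝ) < X := by linarith
  have hq0 : (0 : ℝ) < q := by linarith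
  have hJ0 : (0 : ℝ) < J := by exact_mod_cast hJ
  have hR0 : (0 : ℝ) < R := by linarith
  have hlog0 : 0 ≤ Real.log X := Real.log_nonneg (by linarith)
  obtain ⟨k, hk⟩ : ∃ k : ℕ, k = Nat.log 2 ⌊R⌋₊ := ⟨_, rfl⟩
  have hfl : ⌊R⌋₊ ≠ 0 := by
    have : 1 ≤ ⌊R⌋₊ := Nat.le_floor (by exact_mod_cast hR1)
    omega
  have hkI : ∀ i : ℕ, (2 : ℝ) ^ i ≤ R → i ∈ range (k + 1) := by
    intro i hi
    have h1 : 2 ^ i ≤ ⌊R⌋₊ := Nat.le_floor (by exact_mod_cast hi)
    have h2 : i ≤ Nat.log 2 ⌊R⌋₊ := Nat.le_log_of_pow_le (by norm_num) h1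
    rw [mem_range, hk]
    omega
  have hkR : (2 : ℝ) ^ k ≤ R := by
    have h1 : 2 ^ k ≤ ⌊R⌋₊ := by rw [hk]; exact Nat.pow_log_le_self 2 hfl
    have h2 : ((2 ^ k : ℕ) : ℝ) ≤ (⌊R⌋₊ : ℝ) := by exact_mod_cast h1
    have h3 : (⌊R⌋₊ : ℝ) ≤ R := Nat.floor_le (by linarith)
    have h4 : ((2 ^ k : ℕ) : ℝ) = (2 : ℝ) ^ k := by push_cast; ring
    linarith
  have hklog : (k : ℝ) ≤ 2 * Real.log X := by
    have h1 : (2 : ℝ) ^ k ≤ X := by linarith
    have h2 : Real.log ((2 : ℝ) ^ k) ≤ Real.log X := Real.log_le_log (by positivity) h1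
    rw [Real.log_pow] at h2
    have h3 : (1 / 2 : ℝ) < Real.log 2 := by
      have := Real.log_two_gt_d9; linarith
    have hk0 : (0 : ℝ) ≤ k := Nat.cast_nonneg k
    nlinarith
  have hsq : 0 < Real.sqrt X := Real.sqrt_pos.mpr hX0
  have hδ0 : 0 < δ := by
    have h1 : 0 < 8 * C * (1 / Real.sqrt X + R / X + 1 / q) := by positivity
    linarith
  have hmono : ∀ i ∈ range (k + 1), (2 : ℝ) ^ i ≤ R := by
    intro i hi
    rw [mem_range] at hi
    have : (2 : ℝ) ^ i ≤ 2 ^ k := pow_le_pow_right₀ (by norm_num) (by omega)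
    linarith
  have hone : ∀ i : ℕ, (1 : ℝ) ≤ 2 ^ i := fun i => one_le_pow₀ (by norm_num)
  have hmain := finB_card_le q X R T δ J k hkI
  have hA : ∑ i ∈ range (k + 1), (((univ : Finset (DirichletCharacter ℂ q)).filter (fun χ =>
        T ^ 2 * X * (2 : ℝ) ^ i < ∫ y in (X / 4)..(5 * X), ‖MC (muc q χ) y ((2 : ℝ) ^ i)‖ ^ 2)).card
          : ℝ) ≤ q * ((2 * Real.log X + 2) * (10 / T ^ 2)) := by
    have h1 : ∑ i ∈ range (k + 1), (((univ : Finset (DirichletCharacter ℂ q)).filter (fun χ =>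
        T ^ 2 * X * (2 : ℝ) ^ i < ∫ y in (X / 4)..(5 * X), ‖MC (muc q χ) y ((2 : ℝ) ^ i)‖ ^ 2)).card
          : ℝ) ≤ ∑ i ∈ range (k + 1), (q : ℝ) * (10 / T ^ 2) := by
      apply sum_le_sum
      intro i hi
      have hi' := hmono i hi
      exact char_up hq hX (hone i) (by linarith) (by linarith) hT
    refine h1.trans ?_
    rw [sum_const, card_range, nsmul_eq_mul]
    push_cast
    have hT2 : 0 ≤ (q : ℝ) * (10 / T ^ 2) := by positivity
    nlinarith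
  have hB : ∑ p ∈ ((range (k + 1)) ×ˢ (range J)).filter
          (fun p : ℕ × ℕ => (2 : ℝ) ^ p.1 * (1 + (p.2 : ℝ) / J) ≤ R),
        (((univ : Finset (DirichletCharacter ℂ q)).filter (fun χ =>
          δ * X * ((2 : ℝ) ^ p.1 * (1 + (p.2 : ℝ) / J)) <
          |IC (muc q χ) X (2 * X) ((2 : ℝ) ^ p.1 * (1 + (p.2 : ℝ) / J)) -
            6 / Real.pi ^ 2 * ((2 : ℝ) ^ p.1 * (1 + (p.2 : ℝ) / J)) * (2 * X - X)|)).card : ℝ) ≤
        q * (8 * C * (1 + Real.log X) * J * (R / X + R ^ 2 / q) / δ ^ 2) := by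
    obtain ⟨F, hF⟩ : ∃ F : ℕ → ℝ, F = fun i => (q : ℝ) * (C * (2 * (2 : ℝ) ^ i / X * (1 + Real.log X) +
      4 * ((2 : ℝ) ^ i) ^ 2 / q) / δ ^ 2) := ⟨_, rfl⟩
    have hF0 : ∀ i, 0 ≤ F i := by
      intro i; rw [hF]; positivity
    have h1 : ∑ p ∈ ((range (k + 1)) ×ˢ (range J)).filter
          (fun p : ℕ × ℕ => (2 : ℝ) ^ p.1 * (1 + (p.2 : ℝ) / J) ≤ R),
        (((univ : Finset (DirichletCharacter ℂ q)).filter (fun χ =>
          δ * X * ((2 : ℝ) ^ p.1 * (1 + (p.2 : ℝ) / J)) <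
          |IC (muc q χ) X (2 * X) ((2 : ℝ) ^ p.1 * (1 + (p.2 : ℝ) / J)) -
            6 / Real.pi ^ 2 * ((2 : ℝ) ^ p.1 * (1 + (p.2 : ℝ) / J)) * (2 * X - X)|)).card : ℝ) ≤
        ∑ p ∈ ((range (k + 1)) ×ˢ (range J)).filter
          (fun p : ℕ × ℕ => (2 : ℝ) ^ p.1 * (1 + (p.2 : ℝ) / J) ≤ R), F p.1 := by
      apply sum_le_sum
      intro p hp
      rw [mem_filter, mem_product] at hp
      obtain ⟨⟨hp1, hp2⟩, hp3⟩ := hp
      have hi1 := hone p.1
      have hi0 : (0 : ℝ) < 2 ^ p.1 := by positivity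
      have hj0 : (0 : ℝ) ≤ (p.2 : ℝ) / J := by positivity
      have hj1 : (p.2 : ℝ) / J ≤ 1 := by
        rw [div_le_one hJ0]
        have := mem_range.mp hp2
        exact_mod_cast this.le
      have hH1 : 1 ≤ (2 : ℝ) ^ p.1 * (1 + (p.2 : ℝ) / J) := by nlinarith
      have hH2 : (2 : ℝ) ^ p.1 * (1 + (p.2 : ℝ) / J) ≤ 2 * 2 ^ p.1 := by nlinarith
      have hCle : C * (1 / Real.sqrt X + (2 : ℝ) ^ p.1 * (1 + (p.2 : ℝ) / J) / X + 1 / q) ≤ δ := by
        have e1 : (2 : ℝ) ^ p.1 * (1 + (p.2 : ℝ) / J) / X ≤ R / X := by gcongr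
        have e2 : 0 < 1 / Real.sqrt X := by positivity
        have e3 : 0 < 1 / (q : ℝ) := by positivity
        have e4 : 0 < R / X := by positivity
        have e5 : C * (1 / Real.sqrt X + (2 : ℝ) ^ p.1 * (1 + (p.2 : ℝ) / J) / X + 1 / q) ≤
            C * (1 / Real.sqrt X + R / X + 1 / q) := by gcongr
        have e6 : 0 < C * (1 / Real.sqrt X + R / X + 1 / q) := by positivity
        linarith
      have hdev := hC X X (2 * X) ((2 : ℝ) ^ p.1 * (1 + (p.2 : ℝ) / J)) δ q hX (by linarith)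
        (by linarith) (by linarith) hH1 (by linarith) hq (by linarith) hCle
      refine hdev.trans ?_
      rw [hF]
      have f1 : (2 : ℝ) ^ p.1 * (1 + (p.2 : ℝ) / J) / X ≤ 2 * 2 ^ p.1 / X := by gcongr
      have f2 : ((2 : ℝ) ^ p.1 * (1 + (p.2 : ℝ) / J)) ^ 2 / q ≤ 4 * ((2 : ℝ) ^ p.1) ^ 2 / q := by
        have f3 : ((2 : ℝ) ^ p.1 * (1 + (p.2 : ℝ) / J)) ^ 2 ≤ (2 * 2 ^ p.1) ^ 2 := by
          gcongr
        have f4 : (2 * (2 : ℝ) ^ p.1) ^ 2 = 4 * ((2 : ℝ) ^ p.1) ^ 2 := by ring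
        rw [f4] at f3
        gcongr
      have hl1 : 0 ≤ 1 + Real.log X := by linarith
      show (q : ℝ) * (C * ((2 : ℝ) ^ p.1 * (1 + (p.2 : ℝ) / J) / X * (1 + Real.log X) +
        ((2 : ℝ) ^ p.1 * (1 + (p.2 : ℝ) / J)) ^ 2 / q) / δ ^ 2) ≤
        (q : ℝ) * (C * (2 * (2 : ℝ) ^ p.1 / X * (1 + Real.log X) +
      4 * ((2 : ℝ) ^ p.1) ^ 2 / q) / δ ^ 2)
      have f5 : (2 : ℝ) ^ p.1 * (1 + (p.2 : ℝ) / J) / X * (1 + Real.log X) ≤
        2 * (2 : ℝ) ^ p.1 / X * (1 + Real.log X) := mul_le_mul_of_nonneg_right f1 hl1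
      have f6 := add_le_add f5 f2
      have hC0 : 0 ≤ C := by linarith
      have f7 := mul_le_mul_of_nonneg_left f6 hC0
      have f8 := div_le_div_of_nonneg_right f7 (sq_nonneg δ)
      exact mul_le_mul_of_nonneg_left f8 hq0.le
    have h2 : ∑ p ∈ ((range (k + 1)) ×ˢ (range J)).filter
          (fun p : ℕ × ℕ => (2 : ℝ) ^ p.1 * (1 + (p.2 : ℝ) / J) ≤ R), F p.1 ≤
        ∑ p ∈ (range (k + 1)) ×ˢ (range J), F p.1 :=
      sum_le_sum_of_subset_of_nonneg (filter_subset _ _) (fun p _ _ => hF0 p.1)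
    have h3 : ∑ p ∈ (range (k + 1)) ×ˢ (range J), F p.1 = J * ∑ i ∈ range (k + 1), F i := by
      rw [sum_product, mul_sum]
      apply sum_congr rfl
      intro i _
      show ∑ _y ∈ range J, F i = J * F i
      rw [sum_const, card_range, nsmul_eq_mul]
    have h4 : ∑ i ∈ range (k + 1), F i = (q : ℝ) * (C / δ ^ 2) *
        (2 / X * (1 + Real.log X) * ∑ i ∈ range (k + 1), (2 : ℝ) ^ i +
          4 / q * ∑ i ∈ range (k + 1), ((2 : ℝ) ^ i) ^ 2) := by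
      rw [mul_sum, mul_sum, ← sum_add_distrib, mul_sum]
      apply sum_congr rfl
      intro i _
      rw [hF]
      show (q : ℝ) * (C * (2 * (2 : ℝ) ^ i / X * (1 + Real.log X) +
      4 * ((2 : ℝ) ^ i) ^ 2 / q) / δ ^ 2) = _
      ring
    have h5 : ∑ i ∈ range (k + 1), (2 : ℝ) ^ i ≤ 2 * R := by
      have := finB_sum_two k
      linarith
    have h6 : ∑ i ∈ range (k + 1), ((2 : ℝ) ^ i) ^ 2 ≤ 2 * R ^ 2 := by
      have := finB_sum_four k
      have h7 : ((2 : ℝ) ^ k) ^ 2 ≤ R ^ 2 := by gcongr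
      linarith
    have hl1 : 1 ≤ 1 + Real.log X := by linarith
    refine h1.trans (h2.trans ?_)
    rw [h3, h4]
    have g1 : 2 / X * (1 + Real.log X) * ∑ i ∈ range (k + 1), (2 : ℝ) ^ i ≤
        2 / X * (1 + Real.log X) * (2 * R) := by
      apply mul_le_mul_of_nonneg_left h5
      positivity
    have g2 : 4 / (q : ℝ) * ∑ i ∈ range (k + 1), ((2 : ℝ) ^ i) ^ 2 ≤ 4 / (q : ℝ) * (2 * R ^ 2) := by
      apply mul_le_mul_of_nonneg_left h6
      positivity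
    have g3 : 4 / (q : ℝ) * (2 * R ^ 2) ≤ (8 * (R ^ 2 / q)) * (1 + Real.log X) := by
      have : 4 / (q : ℝ) * (2 * R ^ 2) = 8 * (R ^ 2 / q) := by ring
      rw [this]
      have h0 : 0 ≤ 8 * (R ^ 2 / (q : ℝ)) := by positivity
      nlinarith
    have g4 : 2 / X * (1 + Real.log X) * (2 * R) ≤ 8 * (R / X) * (1 + Real.log X) := by
      have : 2 / X * (1 + Real.log X) * (2 * R) = 4 * (R / X) * (1 + Real.log X) := by ring
      rw [this]
      have h0 : 0 ≤ (R / X) * (1 + Real.log X) := by positivity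
      nlinarith
    have g5 : 2 / X * (1 + Real.log X) * ∑ i ∈ range (k + 1), (2 : ℝ) ^ i +
          4 / q * ∑ i ∈ range (k + 1), ((2 : ℝ) ^ i) ^ 2 ≤
        8 * (1 + Real.log X) * (R / X + R ^ 2 / q) := by
      have : 8 * (1 + Real.log X) * (R / X + R ^ 2 / q) =
        8 * (R / X) * (1 + Real.log X) + (8 * (R ^ 2 / q)) * (1 + Real.log X) := by ring
      rw [this]
      linarith
    have hcoef : 0 ≤ (q : ℝ) * (C / δ ^ 2) := by positivity
    have g6 := mul_le_mul_of_nonneg_left g5 hcoef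
    have g7 := mul_le_mul_of_nonneg_left g6 hJ0.le
    refine g7.trans (le_of_eq ?_)
    ring
  calc _ ≤ _ := hmain
    _ ≤ q * ((2 * Real.log X + 2) * (10 / T ^ 2)) +
        q * (8 * C * (1 + Real.log X) * J * (R / X + R ^ 2 / q) / δ ^ 2) := add_le_add hA hB
    _ = _ := by ring

open Classical in
theorem law_char (ε : ℝ) (hε : 0 < ε) (hε1 : ε ≤ 1) : ∃ X₀ : ℝ, ∀ X : ℝ, X₀ ≤ X →
    ∀ q : ℕ, q.Prime →
    (((univ : Finset (DirichletCharacter ℂ q)).filter (fun χ =>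
      ∃ H : ℝ, 1 ≤ H ∧ H ≤ X ^ (1 - ε) ∧ H ^ 2 ≤ q * X ^ (-ε) ∧
        X ^ (-(ε / 20)) < |(1 / X * IC (muc q χ) X (2 * X) H) / (H / (Real.pi ^ 2 / 6)) - 1|)).card
      : ℝ) ≤ q * X ^ (-(ε / 20)) := by
  obtain ⟨C, hC1, hC⟩ := char_bad
  obtain ⟨d, hd⟩ : ∃ d : ℝ, d = ε / 20 := ⟨_, rfl⟩
  have hd0 : 0 < d := by rw [hd]; positivity
  have hεd : ε = 20 * d := by rw [hd]; ring
  rw [← hd]
  -- eventually conditions
  have ev1 : ∀ᶠ X : ℝ in Filter.atTop, (32 : ℝ) ≤ X := Filter.eventually_ge_atTop 32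
  have ev2 : ∀ᶠ X : ℝ in Filter.atTop, (122 + 3 * C : ℝ) ≤ X ^ d :=
    (tendsto_rpow_atTop hd0).eventually_ge_atTop _
  have ev3 : ∀ᶠ X : ℝ in Filter.atTop, (20 + 4 * C) * (1 + Real.log X) ≤ X ^ d := by
    have h1 : (fun X : ℝ => (20 + 4 * C) * (1 + Real.log X)) =o[Filter.atTop] fun X => X ^ d := by
      apply Asymptotics.IsLittleO.const_mul_left
      apply Asymptotics.IsLittleO.add
      · rw [Asymptotics.isLittleO_const_left]
        right
        exact tendsto_norm_atTop_atTop.comp (tendsto_rpow_atTop hd0)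
      · exact isLittleO_log_rpow_atTop hd0
    have h2 := h1.bound (show (0 : ℝ) < 1 by norm_num)
    filter_upwards [h2, Filter.eventually_ge_atTop (1 : ℝ)] with X hX hX1
    rw [Real.norm_eq_abs, Real.norm_eq_abs, one_mul, abs_of_nonneg (by positivity : 0 ≤ X ^ d)] at hX
    exact (le_abs_self _).trans hX
  obtain ⟨X₀, hX₀⟩ := Filter.eventually_atTop.mp (ev1.and (ev2.and ev3))
  refine ⟨X₀, ?_⟩
  intro X hX q hq
  obtain ⟨hX32, hXd, hXlog⟩ := hX₀ X hX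
  have hX0 : (0 : ℝ) < X := by linarith
  have hX1 : (1 : ℝ) < X := by linarith
  have hq0 : (0 : ℝ) < q := by exact_mod_cast hq.pos
  have hlog0 : 0 ≤ Real.log X := Real.log_nonneg (by linarith)
  have hpos : ∀ s : ℝ, 0 < X ^ s := fun s => Real.rpow_pos_of_pos hX0 s
  have hadd : ∀ s t : ℝ, X ^ s * X ^ t = X ^ (s + t) := fun s t => (Real.rpow_add hX0 s t).symm
  have hmono : ∀ s t : ℝ, s ≤ t → X ^ s ≤ X ^ t := fun s t h =>
    Real.rpow_le_rpow_of_exponent_le hX1.le h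
  obtain ⟨R, hR⟩ : ∃ R : ℝ, R = min (X ^ (1 - ε)) (Real.sqrt (q * X ^ (-ε))) := ⟨_, rfl⟩
  have hHR : ∀ H : ℝ, 1 ≤ H → H ≤ X ^ (1 - ε) → H ^ 2 ≤ q * X ^ (-ε) → H ≤ R := by
    intro H h1 h2 h3
    rw [hR]
    exact le_min h2 (Real.le_sqrt_of_sq_le h3)
  by_cases hR1 : R < 1
  · have hempty : (univ : Finset (DirichletCharacter ℂ q)).filter (fun χ =>
      ∃ H : ℝ, 1 ≤ H ∧ H ≤ X ^ (1 - ε) ∧ H ^ 2 ≤ q * X ^ (-ε) ∧
        X ^ (-d) < |(1 / X * IC (muc q χ) X (2 * X) H) / (H / (Real.pi ^ 2 / 6)) - 1|) = ∅ := by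
      apply filter_eq_empty_iff.mpr
      rintro χ _ ⟨H, h1, h2, h3, _⟩
      have := hHR H h1 h2 h3
      linarith
    rw [hempty, card_empty]
    have := hpos (-d)
    push_cast
    positivity
  · rw [not_lt] at hR1
    have hR0 : 0 < R := by linarith
    have hRa : R ≤ X ^ (1 - ε) := by rw [hR]; exact min_le_left _ _
    have hRb : R ^ 2 ≤ q * X ^ (-ε) := by
      have h1 : R ≤ Real.sqrt (q * X ^ (-ε)) := by rw [hR]; exact min_le_right _ _
      have h2 : R ^ 2 ≤ (Real.sqrt (q * X ^ (-ε))) ^ 2 := by gcongr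
      rwa [Real.sq_sqrt (by have := hpos (-ε); positivity)] at h2
    have hRX : R / X ≤ X ^ (-ε) := by
      rw [div_le_iff₀ hX0]
      calc R ≤ X ^ (1 - ε) := hRa
        _ = X ^ (-ε) * X := by
          rw [show (1 - ε) = -ε + 1 by ring, Real.rpow_add hX0, Real.rpow_one]
    have hRq' : R ^ 2 / q ≤ X ^ (-ε) := by
      rw [div_le_iff₀ hq0]
      linarith
    have hqinv : 1 / (q : ℝ) ≤ X ^ (-ε) := by
      rw [div_le_iff₀ hq0]
      nlinarith
    have hXε1 : X ^ (-ε) < 1 := Real.rpow_lt_one_of_one_lt_of_neg hX1 (by linarith)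
    have hRq : R < q := by
      have h1 : R ≤ R ^ 2 := by nlinarith
      have h2 : q * X ^ (-ε) < q := by nlinarith
      linarith
    have hd8 : (8 : ℝ) ≤ X ^ ε := by
      have := hmono d ε (by linarith)
      linarith
    have hinv : ∀ s : ℝ, X ^ (-s) * X ^ s = 1 := by
      intro s
      rw [hadd, neg_add_cancel, Real.rpow_zero]
    have hRX8 : R ≤ X / 8 := by
      have h1 : X ^ (-ε) ≤ 1 / 8 := by
        have h2 := hinv ε
        have h3 := hpos (-ε)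
        nlinarith
      rw [div_le_iff₀ hX0] at hRX
      nlinarith
    have hC0 : 0 ≤ C := by linarith
    have hδ : C * (1 / Real.sqrt X + R / X + 1 / q) ≤ X ^ (-(2 * d)) := by
      have h1 : 1 / Real.sqrt X ≤ X ^ (-(10 * d)) := by
        rw [Real.sqrt_eq_rpow, one_div, ← Real.rpow_neg hX0.le]
        apply hmono
        linarith
      have h2 : X ^ (-ε) ≤ X ^ (-(10 * d)) := by
        apply hmono
        linarith
      have h3 : C * (1 / Real.sqrt X + R / X + 1 / q) ≤ C * (3 * X ^ (-(10 * d))) := by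
        apply mul_le_mul_of_nonneg_left _ hC0
        linarith
      have h4 : X ^ (-(10 * d)) * X ^ d ≤ X ^ (-(2 * d)) := by
        rw [hadd]
        apply hmono
        linarith
      have h5 : C * (3 * X ^ (-(10 * d))) ≤ X ^ (-(10 * d)) * X ^ d := by
        have h6 := hpos (-(10 * d))
        have h7 : 3 * C ≤ X ^ d := by linarith
        nlinarith
      linarith
    have hJ1 : 1 ≤ ⌈X ^ (8 * d)⌉₊ := Nat.one_le_iff_ne_zero.mpr (by
      have : 0 < ⌈X ^ (8 * d)⌉₊ := Nat.ceil_pos.mpr (hpos _)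
      omega)
    have hbad := hC X R (X ^ d) (X ^ (-(2 * d))) ⌈X ^ (8 * d)⌉₊ q hX32 hR1 hRX8 (hpos _) hJ1 hq hRq hδ
    have hJle : ((⌈X ^ (8 * d)⌉₊ : ℕ) : ℝ) ≤ 2 * X ^ (8 * d) := by
      have h1 : ((⌈X ^ (8 * d)⌉₊ : ℕ) : ℝ) < X ^ (8 * d) + 1 := Nat.ceil_lt_add_one (hpos _).le
      have h2 : 1 ≤ X ^ (8 * d) := Real.one_le_rpow hX1.le (by positivity)
      linarith
    have hJge : X ^ (8 * d) ≤ ((⌈X ^ (8 * d)⌉₊ : ℕ) : ℝ) := Nat.le_ceil _
    have hsubset : (univ : Finset (DirichletCharacter ℂ q)).filter (fun χ =>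
      ∃ H : ℝ, 1 ≤ H ∧ H ≤ X ^ (1 - ε) ∧ H ^ 2 ≤ q * X ^ (-ε) ∧
        X ^ (-d) < |(1 / X * IC (muc q χ) X (2 * X) H) / (H / (Real.pi ^ 2 / 6)) - 1|) ⊆
      (univ : Finset (DirichletCharacter ℂ q)).filter (fun χ =>
      ¬ GoodAt (muc q χ) X X R (X ^ d) (X ^ (-(2 * d))) ⌈X ^ (8 * d)⌉₊) := by
      intro χ hχ
      rw [mem_filter] at hχ ⊢
      refine ⟨mem_univ _, ?_⟩
      intro hgood
      obtain ⟨_, H, h1, h2, h3, h4⟩ := hχ
      have hHR' := hHR H h1 h2 h3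
      have hlaw := hgood.law (τ := 0) (norm_muc_le q χ) (by linarith) le_rfl (by linarith)
        (by norm_num) hRX8 (by linarith) hJ1 (hpos _).le
        (Real.rpow_le_one_of_one_le_of_nonpos hX1.le (by linarith)) (le_refl X) (le_refl X) h1 hHR'
      have hsqrtJ : X ^ (4 * d) ≤ Real.sqrt ((⌈X ^ (8 * d)⌉₊ : ℕ) : ℝ) := by
        apply Real.le_sqrt_of_sq_le
        have : (X ^ (4 * d)) ^ 2 = X ^ (8 * d) := by
          rw [sq, hadd]
          congr 1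
          ring
        rw [this]
        exact hJge
      have hfrac : 60 * (X ^ d) ^ 2 / Real.sqrt ((⌈X ^ (8 * d)⌉₊ : ℕ) : ℝ) ≤ 60 * X ^ (-(2 * d)) := by
        have hs0 : 0 < Real.sqrt ((⌈X ^ (8 * d)⌉₊ : ℕ) : ℝ) := lt_of_lt_of_le (hpos _) hsqrtJ
        rw [div_le_iff₀ hs0]
        have h5 : (X ^ d) ^ 2 = X ^ (-(2 * d)) * X ^ (4 * d) := by
          rw [sq, hadd, hadd]
          congr 1
          ring
        rw [h5]
        have h6 := mul_le_mul_of_nonneg_left hsqrtJ (hpos (-(2 * d))).le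
        linarith
      have h122 : 122 * X ^ (-(2 * d)) ≤ X ^ (-d) := by
        have h5 : X ^ (-(2 * d)) * X ^ d = X ^ (-d) := by
          rw [hadd]
          congr 1
          ring
        rw [← h5]
        have h6 := hpos (-(2 * d))
        nlinarith
      linarith
    have hcard : (((univ : Finset (DirichletCharacter ℂ q)).filter (fun χ =>
      ∃ H : ℝ, 1 ≤ H ∧ H ≤ X ^ (1 - ε) ∧ H ^ 2 ≤ q * X ^ (-ε) ∧
        X ^ (-d) < |(1 / X * IC (muc q χ) X (2 * X) H) / (H / (Real.pi ^ 2 / 6)) - 1|)).card : ℝ) ≤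
      (((univ : Finset (DirichletCharacter ℂ q)).filter (fun χ =>
      ¬ GoodAt (muc q χ) X X R (X ^ d) (X ^ (-(2 * d))) ⌈X ^ (8 * d)⌉₊)).card : ℝ) := by
      exact_mod_cast card_le_card hsubset
    refine hcard.trans (hbad.trans ?_)
    apply mul_le_mul_of_nonneg_left _ hq0.le
    have hinvT : 10 / (X ^ d) ^ 2 = 10 * X ^ (-(2 * d)) := by
      have h1 : (X ^ d) ^ 2 = X ^ (2 * d) := by
        rw [sq, hadd]
        congr 1
        ring
      rw [h1, Real.rpow_neg hX0.le, div_eq_mul_inv]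
    have hsecond : C * (1 + Real.log X) * ((⌈X ^ (8 * d)⌉₊ : ℕ) : ℝ) * (R / X + R ^ 2 / q) /
        (X ^ (-(2 * d))) ^ 2 ≤ 4 * C * (1 + Real.log X) * X ^ (-(2 * d)) := by
      have hp4 : (X ^ (-(2 * d))) ^ 2 = X ^ (-(4 * d)) := by
        rw [sq, hadd]
        congr 1
        ring
      rw [hp4, div_le_iff₀ (hpos _)]
      have h1 : R / X + R ^ 2 / q ≤ 2 * X ^ (-ε) := by linarith
      have hl : 0 ≤ C * (1 + Real.log X) := by positivity
      have h2 : C * (1 + Real.log X) * ((⌈X ^ (8 * d)⌉₊ : ℕ) : ℝ) ≤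
        C * (1 + Real.log X) * (2 * X ^ (8 * d)) := mul_le_mul_of_nonneg_left hJle hl
      have h0 : 0 ≤ R / X + R ^ 2 / q := by positivity
      have h3 : C * (1 + Real.log X) * ((⌈X ^ (8 * d)⌉₊ : ℕ) : ℝ) * (R / X + R ^ 2 / q) ≤
        C * (1 + Real.log X) * (2 * X ^ (8 * d)) * (2 * X ^ (-ε)) := by
        apply mul_le_mul h2 h1 h0
        have := hpos (8 * d)
        positivity
      have h4 : C * (1 + Real.log X) * (2 * X ^ (8 * d)) * (2 * X ^ (-ε)) =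
        4 * C * (1 + Real.log X) * (X ^ (8 * d) * X ^ (-ε)) := by ring
      have h5 : X ^ (8 * d) * X ^ (-ε) ≤ X ^ (-(2 * d)) * X ^ (-(4 * d)) := by
        rw [hadd, hadd]
        apply hmono
        linarith
      have h6 : 4 * C * (1 + Real.log X) * (X ^ (8 * d) * X ^ (-ε)) ≤
        4 * C * (1 + Real.log X) * (X ^ (-(2 * d)) * X ^ (-(4 * d))) := by
        apply mul_le_mul_of_nonneg_left h5
        positivity
      linarith
    rw [hinvT]
    have hfin : (20 + 4 * C) * (1 + Real.log X) * X ^ (-(2 * d)) ≤ X ^ (-d) := by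
      have h5 : X ^ d * X ^ (-(2 * d)) = X ^ (-d) := by
        rw [hadd]
        congr 1
        ring
      rw [← h5]
      exact mul_le_mul_of_nonneg_right hXlog (hpos _).le
    have hfirst : (2 * Real.log X + 2) * (10 * X ^ (-(2 * d))) =
      20 * (1 + Real.log X) * X ^ (-(2 * d)) := by ring
    rw [hfirst]
    have hsplit : (20 + 4 * C) * (1 + Real.log X) * X ^ (-(2 * d)) =
      20 * (1 + Real.log X) * X ^ (-(2 * d)) + 4 * C * (1 + Real.log X) * X ^ (-(2 * d)) := by ring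
    linarith

end Pool.Agent.H18.RM
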