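import Pool.Agent.H18.RM.Basic

/-!
# Minkowski's inequality and splitting of windows
-/

set_option autoImplicit false

namespace Pool.Agent.H18.RM

open Finset MeasureTheory

private theorem mink_opt {I a b : ℝ} (ha : 0 ≤ a) (hb : 0 ≤ b)
    (h : ∀ t : ℝ, 0 < t → I ≤ (1 + t) * a + (1 + 1 / t) * b) :
    Real.sqrt I ≤ Real.sqrt a + Real.sqrt b := by
  set u := Real.sqrt a with hu
  set v := Real.sqrt b with hv
  have hu0 : 0 ≤ u := Real.sqrt_nonneg _
  have hv0 : 0 ≤ v := Real.sqrt_nonneg _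
  have hua : u ^ 2 = a := Real.sq_sqrt ha
  have hvb : v ^ 2 = b := Real.sq_sqrt hb
  apply Real.sqrt_le_iff.2
  refine ⟨by positivity, ?_⟩
  apply le_of_forall_pos_le_add
  intro ε hε
  set δ : ℝ := ε / (u + v + 1) with hδ
  have hδ0 : 0 < δ := by positivity
  have hδε : δ * (u + v) ≤ ε := by
    rw [hδ, div_mul_eq_mul_div, div_le_iff₀ (by positivity)]
    nlinarith
  have h1 := h ((v + δ) / (u + δ)) (by positivity)
  have h2 : (v + δ) / (u + δ) * a ≤ (v + δ) * u := by
    rw [div_mul_eq_mul_div, div_le_iff₀ (by positivity), ← hua]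
    have : 0 ≤ (v + δ) * u * δ := by positivity
    nlinarith
  have h3 : 1 / ((v + δ) / (u + δ)) * b ≤ (u + δ) * v := by
    rw [one_div_div, div_mul_eq_mul_div, div_le_iff₀ (by positivity), ← hvb]
    have : 0 ≤ (u + δ) * v * δ := by positivity
    nlinarith
  calc I ≤ a + (v + δ) / (u + δ) * a + (b + 1 / ((v + δ) / (u + δ)) * b) := by
        linarith
    _ ≤ a + (v + δ) * u + (b + (u + δ) * v) := by linarith
    _ = (u + v) ^ 2 + δ * (u + v) := by
        rw [← hua, ← hvb]
        ring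
    _ ≤ (u + v) ^ 2 + ε := by linarith

/-- Minkowski in `L²[U,V]` -/
theorem mink {F G : ℝ → ℂ} {U V : ℝ} (hUV : U ≤ V) (hFm : Measurable F) (hGm : Measurable G)
    (hF : IntervalIntegrable (fun x => ‖F x‖ ^ 2) volume U V)
    (hG : IntervalIntegrable (fun x => ‖G x‖ ^ 2) volume U V) :
    IntervalIntegrable (fun x => ‖F x + G x‖ ^ 2) volume U V ∧
    Real.sqrt (∫ x in U..V, ‖F x + G x‖ ^ 2) ≤
      Real.sqrt (∫ x in U..V, ‖F x‖ ^ 2) + Real.sqrt (∫ x in U..V, ‖G x‖ ^ 2) := by
  have hpt : ∀ t : ℝ, 0 < t → ∀ x, ‖F x + G x‖ ^ 2 ≤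
      (1 + t) * ‖F x‖ ^ 2 + (1 + 1 / t) * ‖G x‖ ^ 2 := by
    intro t ht x
    have h1 : ‖F x + G x‖ ≤ ‖F x‖ + ‖G x‖ := norm_add_le _ _
    have h2 : ‖F x + G x‖ ^ 2 ≤ (‖F x‖ + ‖G x‖) ^ 2 := by gcongr
    have h3 : 0 ≤ (t * ‖F x‖ - ‖G x‖) ^ 2 / t := by positivity
    have h4 : (t * ‖F x‖ - ‖G x‖) ^ 2 / t =
        t * ‖F x‖ ^ 2 - 2 * (‖F x‖ * ‖G x‖) + 1 / t * ‖G x‖ ^ 2 := by
      field_simp
      ring
    nlinarith
  have hint : IntervalIntegrable (fun x => ‖F x + G x‖ ^ 2) volume U V := by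
    have hdom : IntervalIntegrable
        (fun x => (1 + 1) * ‖F x‖ ^ 2 + (1 + 1 / 1) * ‖G x‖ ^ 2) volume U V :=
      (hF.const_mul _).add (hG.const_mul _)
    refine hdom.mono_fun ((hFm.add hGm).norm.pow_const 2).aestronglyMeasurable ?_
    refine Filter.Eventually.of_forall fun x => ?_
    show ‖‖F x + G x‖ ^ 2‖ ≤ ‖(1 + 1) * ‖F x‖ ^ 2 + (1 + 1 / 1) * ‖G x‖ ^ 2‖
    rw [Real.norm_of_nonneg (by positivity), Real.norm_of_nonneg (by positivity)]
    exact hpt 1 one_pos x
  refine ⟨hint, mink_opt ?_ ?_ fun t ht => ?_⟩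
  · exact intervalIntegral.integral_nonneg hUV fun x _ => by positivity
  · exact intervalIntegral.integral_nonneg hUV fun x _ => by positivity
  · rw [← intervalIntegral.integral_const_mul, ← intervalIntegral.integral_const_mul,
      ← intervalIntegral.integral_add (hF.const_mul _) (hG.const_mul _)]
    exact intervalIntegral.integral_mono_on hUV hint ((hF.const_mul _).add (hG.const_mul _))
      fun x _ => hpt t ht x

theorem MC_zero (g : ℕ → ℂ) (x : ℝ) : MC g x 0 = 0 := by
  unfold MC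
  rw [Finset.filter_eq_empty_iff.2, Finset.sum_empty]
  intro n _
  rw [zero_div]
  exact not_lt.2 (abs_nonneg _)

private theorem mink_MC_eq (g : ℕ → ℂ) {x H : ℝ} {N : ℕ} (hH : 0 ≤ H) (hN : x + H ≤ N) :
    MC g x H = ∑ n ∈ range N, (if |(n : ℝ) - x| < H / 2 then g n else 0) := by
  rcases hH.eq_or_lt with h | h
  · rw [← h, MC_zero]
    symm
    apply Finset.sum_eq_zero
    intro n _
    rw [if_neg]
    rw [zero_div]
    exact not_lt.2 (abs_nonneg _)
  · exact MC_eq_sum g h hN

/-- a window of length `a + b` is the union of two windows of lengths `a` and `b` and the point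
`x + (a - b)/2` (which is an integer for countably many `x` only) -/
theorem MC_split (g : ℕ → ℂ) {a b : ℝ} (ha : 0 ≤ a) (hb : 0 ≤ b) :
    ∀ᵐ x : ℝ, MC g x (a + b) = MC g (x - b / 2) a + MC g (x + a / 2) b := by
  have hc : (Set.range (fun n : ℕ => (n : ℝ) - (a - b) / 2)).Countable := Set.countable_range _
  filter_upwards [hc.ae_notMem volume] with x hx
  have hx' : ∀ n : ℕ, (n : ℝ) ≠ x + (a - b) / 2 := by
    intro n hn
    apply hx
    refine ⟨n, ?_⟩
    show (n : ℝ) - (a - b) / 2 = x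
    rw [hn]
    ring
  have hN : x + (a + b) ≤ (⌈x + (a + b)⌉₊ : ℕ) := Nat.le_ceil _
  rw [mink_MC_eq g (add_nonneg ha hb) hN, mink_MC_eq g (N := ⌈x + (a + b)⌉₊) ha (by linarith),
    mink_MC_eq g (N := ⌈x + (a + b)⌉₊) hb (by linarith), ← Finset.sum_add_distrib]
  refine Finset.sum_congr rfl fun n _ => ?_
  have hn := hx' n
  by_cases h1 : |(n : ℝ) - (x - b / 2)| < a / 2
  · have h1' := abs_lt.1 h1
    have h2 : ¬ |(n : ℝ) - (x + a / 2)| < b / 2 := by
      intro h
      have := abs_lt.1 h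
      linarith [this.1, this.2, h1'.1, h1'.2]
    have h3 : |(n : ℝ) - x| < (a + b) / 2 := by
      rw [abs_lt]
      constructor <;> linarith [h1'.1, h1'.2]
    rw [if_pos h1, if_neg h2, if_pos h3, add_zero]
  · by_cases h2 : |(n : ℝ) - (x + a / 2)| < b / 2
    · have h2' := abs_lt.1 h2
      have h3 : |(n : ℝ) - x| < (a + b) / 2 := by
        rw [abs_lt]
        constructor <;> linarith [h2'.1, h2'.2]
      rw [if_neg h1, if_pos h2, if_pos h3, zero_add]
    · have h3 : ¬ |(n : ℝ) - x| < (a + b) / 2 := by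
        intro h
        have h4 := abs_lt.1 h
        rcases lt_or_gt_of_ne hn with h5 | h5
        · apply h1
          rw [abs_lt]
          constructor <;> linarith [h4.1, h4.2]
        · apply h2
          rw [abs_lt]
          constructor <;> linarith [h4.1, h4.2]
      rw [if_neg h1, if_neg h2, if_neg h3, add_zero]

private theorem mink_count (S : Finset ℕ) {A B : ℝ} (hAB : A ≤ B)
    (h : ∀ n ∈ S, A < (n : ℝ) ∧ (n : ℝ) < B) : (S.card : ℝ) ≤ B - A + 1 := by
  rcases S.eq_empty_or_nonempty with h0 | h0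
  · rw [h0, card_empty, Nat.cast_zero]
    linarith
  · have h1 : S ⊆ Icc (S.min' h0) (S.max' h0) := by
      intro n hn
      rw [mem_Icc]
      exact ⟨S.min'_le n hn, S.le_max' n hn⟩
    have h2 := Finset.card_le_card h1
    rw [Nat.card_Icc] at h2
    have h3 : S.min' h0 ≤ S.max' h0 := S.min'_le _ (S.max'_mem h0)
    have h4 : (S.card : ℝ) ≤ (S.max' h0 : ℝ) + 1 - (S.min' h0 : ℝ) := by
      have h5 : S.card + S.min' h0 ≤ S.max' h0 + 1 := by omega
      have h6 : (S.card : ℝ) + (S.min' h0 : ℝ) ≤ (S.max' h0 : ℝ) + 1 := by exact_mod_cast h5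
      linarith
    have h7 := (h _ (S.max'_mem h0)).2
    have h8 := (h _ (S.min'_mem h0)).1
    linarith

/-- windows of length `η < 1` contain at most one integer -/
theorem int_short {g : ℕ → ℂ} (hg : ∀ n, ‖g n‖ ≤ 1) {U V c η : ℝ} (hUV : U ≤ V) (h0 : 0 < η)
    (h1 : η < 1) : ∫ x in U..V, ‖MC g (x + c) η‖ ^ 2 ≤ η * (V - U + 2) := by
  set N : ℕ := ⌈V + c + η⌉₊ with hN
  have hNle : V + c + η ≤ N := Nat.le_ceil _
  set S : ℕ → Set ℝ := fun n => Set.Ioo ((n : ℝ) - c - η / 2) ((n : ℝ) - c + η / 2) with hS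
  have hpt : ∀ x ∈ Set.Icc U V, ‖MC g (x + c) η‖ ^ 2 ≤
      ∑ n ∈ range N, (S n).indicator (1 : ℝ → ℝ) x := by
    intro x hx
    rw [MC_eq_sum g (N := N) h0 (by linarith [hx.2])]
    have hmem : ∀ n : ℕ, |(n : ℝ) - (x + c)| < η / 2 ↔ x ∈ S n := by
      intro n
      rw [hS, abs_lt]
      simp only [Set.mem_Ioo]
      constructor
      · rintro ⟨h2, h3⟩
        constructor <;> linarith
      · rintro ⟨h2, h3⟩
        constructor <;> linarith
    have hnn : ∀ n ∈ range N, 0 ≤ (S n).indicator (1 : ℝ → ℝ) x := fun n _ =>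
      Set.indicator_nonneg (fun _ _ => zero_le_one) x
    by_cases hex : ∃ n ∈ range N, x ∈ S n
    · obtain ⟨n, hn, hxn⟩ := hex
      have huniq : ∀ k ∈ range N, k ≠ n →
          (if |(k : ℝ) - (x + c)| < η / 2 then g k else 0) = 0 := by
        intro k _ hkn
        rw [if_neg]
        rw [hmem]
        intro hxk
        rw [hS] at hxk hxn
        simp only [Set.mem_Ioo] at hxk hxn
        apply hkn
        have h3 : (k : ℝ) < n + 1 := by linarith [hxk.1, hxk.2, hxn.1, hxn.2]
        have h4 : (n : ℝ) < k + 1 := by linarith [hxk.1, hxk.2, hxn.1, hxn.2]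
        have h3' : k < n + 1 := by exact_mod_cast h3
        have h4' : n < k + 1 := by exact_mod_cast h4
        omega
      rw [Finset.sum_eq_single_of_mem n hn huniq, if_pos ((hmem n).2 hxn)]
      calc ‖g n‖ ^ 2 ≤ 1 ^ 2 := by gcongr; exact hg n
        _ = (S n).indicator (1 : ℝ → ℝ) x := by
            rw [Set.indicator_of_mem hxn, Pi.one_apply, one_pow]
        _ ≤ ∑ n ∈ range N, (S n).indicator (1 : ℝ → ℝ) x :=
            Finset.single_le_sum hnn hn
    · push Not at hex
      rw [Finset.sum_eq_zero]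
      · rw [norm_zero]
        calc (0 : ℝ) ^ 2 = 0 := by norm_num
          _ ≤ _ := Finset.sum_nonneg hnn
      · intro n hn
        rw [if_neg]
        rw [hmem]
        exact hex n hn
  have hintS : ∀ n, IntervalIntegrable ((S n).indicator (1 : ℝ → ℝ)) volume U V := by
    intro n
    rw [intervalIntegrable_iff]
    apply IntegrableOn.indicator _ measurableSet_Ioo
    exact integrableOn_const (by simp) (by simp)
  have hS1 : ∀ n, ∫ x in U..V, (S n).indicator (1 : ℝ → ℝ) x ≤ η := by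
    intro n
    rw [intervalIntegral.integral_of_le hUV, integral_indicator_one measurableSet_Ioo]
    have h2 : (volume.restrict (Set.Ioc U V)) (S n) ≤ volume (S n) := Measure.restrict_apply_le _ _
    have h3 : volume (S n) = ENNReal.ofReal η := by
      rw [hS, Real.volume_Ioo]
      congr 1
      ring
    rw [h3] at h2
    calc (volume.restrict (Set.Ioc U V)).real (S n)
        ≤ (ENNReal.ofReal η).toReal := ENNReal.toReal_mono ENNReal.ofReal_ne_top h2
      _ = η := ENNReal.toReal_ofReal h0.le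
  have hS0 : ∀ n : ℕ, ¬ (U + c - η / 2 < (n : ℝ) ∧ (n : ℝ) < V + c + η / 2) →
      ∫ x in U..V, (S n).indicator (1 : ℝ → ℝ) x = 0 := by
    intro n hn
    rw [intervalIntegral.integral_of_le hUV]
    apply setIntegral_eq_zero_of_forall_eq_zero
    intro x hx
    rw [Set.indicator_of_notMem]
    intro hxn
    rw [hS] at hxn
    simp only [Set.mem_Ioo] at hxn
    apply hn
    constructor
    · linarith [hx.1, hxn.2]
    · linarith [hx.2, hxn.1]
  set T : Finset ℕ := (range N).filter
    (fun n : ℕ => U + c - η / 2 < (n : ℝ) ∧ (n : ℝ) < V + c + η / 2) with hT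
  have hTc : (T.card : ℝ) ≤ (V + c + η / 2) - (U + c - η / 2) + 1 := by
    apply mink_count T (by linarith)
    intro n hn
    rw [hT, mem_filter] at hn
    exact hn.2
  calc ∫ x in U..V, ‖MC g (x + c) η‖ ^ 2
      ≤ ∫ x in U..V, ∑ n ∈ range N, (S n).indicator (1 : ℝ → ℝ) x := by
        apply intervalIntegral.integral_mono_on hUV (intervalIntegrable_MC hg h0 c U V) _ hpt
        have := IntervalIntegrable.sum (range N) fun n _ => hintS n
        refine this.congr ?_
        intro x _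
        simp only [Finset.sum_apply]
    _ = ∑ n ∈ range N, ∫ x in U..V, (S n).indicator (1 : ℝ → ℝ) x :=
        intervalIntegral.integral_finsetSum fun n _ => hintS n
    _ = ∑ n ∈ T, ∫ x in U..V, (S n).indicator (1 : ℝ → ℝ) x := by
        rw [hT]
        symm
        apply Finset.sum_subset (filter_subset _ _)
        intro n hn hn2
        apply hS0
        intro h
        exact hn2 (mem_filter.2 ⟨hn, h⟩)
    _ ≤ ∑ n ∈ T, η := Finset.sum_le_sum fun n _ => hS1 n
    _ = T.card * η := by rw [Finset.sum_const, nsmul_eq_mul]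
    _ ≤ (V - U + 2) * η := by
        gcongr
        linarith
    _ = η * (V - U + 2) := mul_comm _ _

end Pool.Agent.H18.RM
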