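import Pool.Agent.H18.RM.Defs

/-!
# Random multiplicative functions (Wintner's model)

`IsSigns P e`: the `e p` are independent random signs.  `rmf e ω n = μ²(n) ∏_{p ∣ n} e_p(ω)`.
`int_four`: `∫ f(a)f(b)f(c)f(d) = 0` for squarefree `a, b, c, d` with `abcd` not a square: the
product is `∏_{p ∈ S} e_p^{k_p}` with `S` the set of the primes dividing `abcd` and `k_p` the exponent
of `p` in `abcd`; some `k_p` is odd, and `∫ e_p^{k_p} = 0` for odd `k_p`; independence gives the
product formula (`iIndepFun.integral_prod...` in Mathlib, or induction with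
`iIndepFun.indepFun_finset_prod_of_notMem`).
-/

set_option autoImplicit false

namespace Pool.Agent.H18.RM

open Finset MeasureTheory ProbabilityTheory

/-- independent random signs -/
structure IsSigns {Ω : Type*} [MeasurableSpace Ω] (P : Measure Ω) (e : ℕ → Ω → ℝ) : Prop where
  meas : ∀ p, Measurable (e p)
  indep : iIndepFun e P
  one : ∀ p, P {ω | e p ω = 1} = 1 / 2
  neg : ∀ p, P {ω | e p ω = -1} = 1 / 2

/-- the random multiplicative function supported on the squarefree numbers -/
noncomputable def rmf {Ω : Type*} (e : ℕ → Ω → ℝ) (ω : Ω) (n : ℕ) : ℝ :=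
  if Squarefree n then ∏ p ∈ n.primeFactors, e p ω else 0

variable {Ω : Type*} [MeasurableSpace Ω] {P : Measure Ω} [IsProbabilityMeasure P]
  {e : ℕ → Ω → ℝ}

theorem IsSigns.ae_signs (h : IsSigns P e) : ∀ᵐ ω ∂P, ∀ p, e p ω = 1 ∨ e p ω = -1 := by
  rw [ae_all_iff]
  intro p
  have hm1 : MeasurableSet {ω | e p ω = 1} := h.meas p (measurableSet_singleton 1)
  have hm2 : MeasurableSet {ω | e p ω = -1} := h.meas p (measurableSet_singleton (-1))
  have hdisj : Disjoint {ω | e p ω = 1} {ω | e p ω = -1} := by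
    rw [Set.disjoint_left]
    intro ω h1 h2
    simp only [Set.mem_setOf_eq] at h1 h2
    rw [h1] at h2
    norm_num at h2
  have hU : P ({ω | e p ω = 1} ∪ {ω | e p ω = -1}) = 1 := by
    rw [measure_union hdisj hm2, h.one p, h.neg p]
    exact ENNReal.add_halves 1
  have := (prob_compl_eq_zero_iff (hm1.union hm2)).2 hU
  rw [ae_iff]
  convert this using 2
  ext ω
  simp

theorem measurable_rmf (h : IsSigns P e) (n : ℕ) : Measurable (fun ω => rmf e ω n) := by
  unfold rmf
  split_ifs
  · exact Finset.measurable_prod _ (fun p _ => h.meas p)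
  · exact measurable_const

theorem rmf_sq (h : IsSigns P e) :
    ∀ᵐ ω ∂P, ∀ n, |rmf e ω n| ≤ 1 ∧ rmf e ω n ^ 2 = if Squarefree n then 1 else 0 := by
  filter_upwards [h.ae_signs] with ω hω
  intro n
  have h1 : ∀ n : ℕ, Squarefree n → rmf e ω n ^ 2 = 1 := by
    intro n hn
    unfold rmf
    rw [if_pos hn, ← Finset.prod_pow]
    apply Finset.prod_eq_one
    intro p _
    rcases hω p with hp | hp <;> rw [hp] <;> norm_num
  have h2 : rmf e ω n ^ 2 = if Squarefree n then 1 else 0 := by
    split_ifs with hs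
    · exact h1 n hs
    · unfold rmf
      rw [if_neg hs]
      norm_num
  refine ⟨?_, h2⟩
  rw [← sq_le_one_iff_abs_le_one, h2]
  split_ifs <;> norm_num

private theorem Prob_int_one (h : IsSigns P e) (p : ℕ) : ∫ ω, e p ω ∂P = 0 := by
  have hm1 : MeasurableSet {ω | e p ω = 1} := h.meas p (measurableSet_singleton 1)
  have hm2 : MeasurableSet {ω | e p ω = -1} := h.meas p (measurableSet_singleton (-1))
  have hae : (fun ω => e p ω) =ᵐ[P] fun ω =>
      Set.indicator {ω | e p ω = 1} (fun _ => (1:ℝ)) ω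
        - Set.indicator {ω | e p ω = -1} (fun _ => (1:ℝ)) ω := by
    filter_upwards [h.ae_signs] with ω hω
    rcases hω p with hp | hp
    · rw [Set.indicator_of_mem (show ω ∈ {ω | e p ω = 1} from hp),
        Set.indicator_of_notMem]
      · rw [hp]; norm_num
      · simp only [Set.mem_setOf_eq]; rw [hp]; norm_num
    · rw [Set.indicator_of_mem (show ω ∈ {ω | e p ω = -1} from hp),
        Set.indicator_of_notMem]
      · rw [hp]; norm_num
      · simp only [Set.mem_setOf_eq]; rw [hp]; norm_num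
  rw [integral_congr_ae hae, integral_sub, integral_indicator_const _ hm1,
    integral_indicator_const _ hm2]
  · simp only [measureReal_def, h.one p, h.neg p]
    simp
  · exact (integrable_const (1:ℝ)).indicator hm1
  · exact (integrable_const (1:ℝ)).indicator hm2

private theorem Prob_int_odd (h : IsSigns P e) (p : ℕ) {k : ℕ} (hk : Odd k) :
    ∫ ω, e p ω ^ k ∂P = 0 := by
  rw [← Prob_int_one h p]
  apply integral_congr_ae
  filter_upwards [h.ae_signs] with ω hω
  rcases hω p with hp | hp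
  · rw [hp]; simp
  · rw [hp, hk.neg_one_pow]

private theorem Prob_int_prod (h : IsSigns P e) (S : Finset ℕ) (k : ℕ → ℕ) :
    ∫ ω, ∏ p ∈ S, e p ω ^ k p ∂P = ∏ p ∈ S, ∫ ω, e p ω ^ k p ∂P := by
  have h1 : iIndepFun (fun i : S => e i) P := h.indep.precomp Subtype.val_injective
  have h2 := h1.integral_fun_prod_comp (f := fun (i : S) (x : ℝ) => x ^ k i)
    (fun i => (h.meas i).aemeasurable)
    (fun i => (measurable_id.pow_const (k i)).aestronglyMeasurable)
  rw [← Finset.prod_coe_sort S (fun p => ∫ ω, e p ω ^ k p ∂P), ← h2]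
  apply integral_congr_ae
  filter_upwards with ω
  exact (Finset.prod_coe_sort S (fun p => e p ω ^ k p)).symm

private theorem Prob_rmf_eq {n : ℕ} (hn : Squarefree n) {S : Finset ℕ} (hS : n.primeFactors ⊆ S)
    (ω : Ω) : rmf e ω n = ∏ p ∈ S, e p ω ^ n.factorization p := by
  unfold rmf
  rw [if_pos hn]
  have : ∏ p ∈ n.primeFactors, e p ω = ∏ p ∈ n.primeFactors, e p ω ^ n.factorization p := by
    apply Finset.prod_congr rfl
    intro p hp
    have hpp := Nat.prime_of_mem_primeFactors hp
    have h1 : n.factorization p = 1 := by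
      apply le_antisymm (hn.natFactorization_le_one p)
      exact (hpp.dvd_iff_one_le_factorization hn.ne_zero).1 (Nat.dvd_of_mem_primeFactors hp)
    rw [h1, pow_one]
  rw [this]
  apply Finset.prod_subset hS
  intro p _ hp
  have : n.factorization p = 0 := by
    rw [← Finsupp.notMem_support_iff, Nat.support_factorization]
    exact hp
  rw [this, pow_zero]

private theorem Prob_isSquare {n : ℕ} (hn : n ≠ 0) (h : ∀ p, Even (n.factorization p)) :
    IsSquare n := by
  rw [← Nat.factorization_prod_pow_eq_self hn]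
  rw [Finsupp.prod]
  choose g hg using h
  refine ⟨∏ p ∈ n.factorization.support, p ^ g p, ?_⟩
  rw [← Finset.prod_mul_distrib]
  apply Finset.prod_congr rfl
  intro p _
  rw [hg p, pow_add]

theorem int_four (h : IsSigns P e) {a b c d : ℕ} (ha : Squarefree a) (hb : Squarefree b)
    (hc : Squarefree c) (hd : Squarefree d) (hn : ¬ IsSquare (a * b * (c * d))) :
    ∫ ω, rmf e ω a * rmf e ω b * (rmf e ω c * rmf e ω d) ∂P = 0 := by
  classical
  have ha0 := ha.ne_zero
  have hb0 := hb.ne_zero
  have hc0 := hc.ne_zero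
  have hd0 := hd.ne_zero
  have hn0 : a * b * (c * d) ≠ 0 := by positivity
  obtain ⟨q, hq⟩ : ∃ q, ¬ Even ((a * b * (c * d)).factorization q) := by
    by_contra hcon
    push Not at hcon
    exact hn (Prob_isSquare hn0 hcon)
  set S := (a * b * (c * d)).primeFactors with hSdef
  have hSa : a.primeFactors ⊆ S := Nat.primeFactors_mono
    ((Nat.dvd_mul_right a b).trans (Nat.dvd_mul_right _ _)) hn0
  have hSb : b.primeFactors ⊆ S := Nat.primeFactors_mono
    ((Nat.dvd_mul_left b a).trans (Nat.dvd_mul_right _ _)) hn0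
  have hSc : c.primeFactors ⊆ S := Nat.primeFactors_mono
    ((Nat.dvd_mul_right c d).trans (Nat.dvd_mul_left _ _)) hn0
  have hSd : d.primeFactors ⊆ S := Nat.primeFactors_mono
    ((Nat.dvd_mul_left d c).trans (Nat.dvd_mul_left _ _)) hn0
  have hprod : ∀ ω, rmf e ω a * rmf e ω b * (rmf e ω c * rmf e ω d) =
      ∏ p ∈ S, e p ω ^ (a * b * (c * d)).factorization p := by
    intro ω
    rw [Prob_rmf_eq ha hSa, Prob_rmf_eq hb hSb, Prob_rmf_eq hc hSc, Prob_rmf_eq hd hSd,
      ← Finset.prod_mul_distrib, ← Finset.prod_mul_distrib, ← Finset.prod_mul_distrib]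
    apply Finset.prod_congr rfl
    intro p _
    rw [Nat.factorization_mul (by positivity) (by positivity), Nat.factorization_mul ha0 hb0,
      Nat.factorization_mul hc0 hd0]
    simp only [Finsupp.coe_add, Pi.add_apply]
    rw [pow_add, pow_add, pow_add]
  simp_rw [hprod]
  rw [Prob_int_prod h]
  have hqS : q ∈ S := by
    rw [hSdef, ← Nat.support_factorization, Finsupp.mem_support_iff]
    intro h0
    rw [h0] at hq
    exact hq (by norm_num)
  exact Finset.prod_eq_zero hqS (Prob_int_odd h q (Nat.not_even_iff_odd.1 hq))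

theorem int_two (h : IsSigns P e) {a b : ℕ} (hab : a ≠ b) :
    ∫ ω, rmf e ω a * rmf e ω b ∂P = 0 := by
  by_cases ha : Squarefree a
  swap
  · have : ∀ ω, rmf e ω a = 0 := fun ω => by unfold rmf; rw [if_neg ha]
    simp [this]
  by_cases hb : Squarefree b
  swap
  · have : ∀ ω, rmf e ω b = 0 := fun ω => by unfold rmf; rw [if_neg hb]
    simp [this]
  have h1 : ∀ ω, rmf e ω 1 = 1 := fun ω => by
    unfold rmf
    rw [if_pos squarefree_one]
    simp
  have h4 := int_four h ha hb squarefree_one squarefree_one (by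
    rintro ⟨r, hr⟩
    rw [mul_one, mul_one] at hr
    apply hab
    apply Nat.eq_of_factorization_eq ha.ne_zero hb.ne_zero
    intro p
    have h2 := congrArg (fun n => n.factorization p) hr
    have hr0 : r ≠ 0 := by
      rintro rfl
      exact (mul_ne_zero ha.ne_zero hb.ne_zero) (by simpa using hr)
    simp only [Nat.factorization_mul ha.ne_zero hb.ne_zero, Nat.factorization_mul hr0 hr0,
      Finsupp.coe_add, Pi.add_apply] at h2
    have h5 := ha.natFactorization_le_one p
    have h6 := hb.natFactorization_le_one p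
    omega)
  simpa [h1] using h4

/-- second moment of an off-diagonal form -/
theorem second_moment (h : IsSigns P e) (S : Finset (ℕ × ℕ)) (K : ℕ × ℕ → ℝ) {κ : ℝ}
    (hK : ∀ s ∈ S, |K s| ≤ κ) :
    Integrable (fun ω => (∑ s ∈ S, rmf e ω s.1 * rmf e ω s.2 * K s) ^ 2) P ∧
    ∫ ω, (∑ s ∈ S, rmf e ω s.1 * rmf e ω s.2 * K s) ^ 2 ∂P ≤
      κ ^ 2 * (((S ×ˢ S).filter (fun t => (Squarefree t.1.1 ∧ Squarefree t.1.2 ∧
        Squarefree t.2.1 ∧ Squarefree t.2.2) ∧ IsSquare (t.1.1 * t.1.2 * (t.2.1 * t.2.2)))).card) := by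
  classical
  have hexp : ∀ ω, (∑ s ∈ S, rmf e ω s.1 * rmf e ω s.2 * K s) ^ 2 =
      ∑ t ∈ S ×ˢ S, (rmf e ω t.1.1 * rmf e ω t.1.2 * (rmf e ω t.2.1 * rmf e ω t.2.2)) *
        (K t.1 * K t.2) := by
    intro ω
    rw [sq, Finset.sum_mul_sum, Finset.sum_product]
    apply Finset.sum_congr rfl
    intro s _
    apply Finset.sum_congr rfl
    intro t _
    ring
  have hbd : ∀ᵐ ω ∂P, ∀ a b c d : ℕ, |rmf e ω a * rmf e ω b * (rmf e ω c * rmf e ω d)| ≤ 1 := by
    filter_upwards [rmf_sq h] with ω hω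
    intro a b c d
    rw [abs_mul, abs_mul, abs_mul]
    have h1 := (hω a).1
    have h2 := (hω b).1
    have h3 := (hω c).1
    have h4 := (hω d).1
    have h5 : |rmf e ω a| * |rmf e ω b| ≤ 1 := mul_le_one₀ h1 (abs_nonneg _) h2
    have h6 : |rmf e ω c| * |rmf e ω d| ≤ 1 := mul_le_one₀ h3 (abs_nonneg _) h4
    exact mul_le_one₀ h5 (by positivity) h6
  have hmeas : ∀ a b c d : ℕ,
      Measurable (fun ω => rmf e ω a * rmf e ω b * (rmf e ω c * rmf e ω d)) := fun a b c d =>
    ((measurable_rmf h a).mul (measurable_rmf h b)).mul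
      ((measurable_rmf h c).mul (measurable_rmf h d))
  have hint : ∀ a b c d : ℕ,
      Integrable (fun ω => rmf e ω a * rmf e ω b * (rmf e ω c * rmf e ω d)) P := by
    intro a b c d
    apply Integrable.of_bound (hmeas a b c d).aestronglyMeasurable 1
    filter_upwards [hbd] with ω hω
    rw [Real.norm_eq_abs]
    exact hω a b c d
  constructor
  · simp_rw [hexp]
    apply integrable_finset_sum
    intro t _
    exact (hint _ _ _ _).mul_const _
  · simp_rw [hexp]
    rw [integral_finset_sum _ (fun t _ => (hint _ _ _ _).mul_const _)]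
    have hterm : ∀ t ∈ S ×ˢ S,
        ∫ ω, (rmf e ω t.1.1 * rmf e ω t.1.2 * (rmf e ω t.2.1 * rmf e ω t.2.2)) *
          (K t.1 * K t.2) ∂P ≤
        if ((Squarefree t.1.1 ∧ Squarefree t.1.2 ∧ Squarefree t.2.1 ∧ Squarefree t.2.2) ∧
          IsSquare (t.1.1 * t.1.2 * (t.2.1 * t.2.2))) then κ ^ 2 else 0 := by
      intro t ht
      rw [Finset.mem_product] at ht
      rw [integral_mul_const]
      have hzero : ∀ (n : ℕ), ¬ Squarefree n → ∀ ω, rmf e ω n = 0 := fun n hn ω => by
        unfold rmf; rw [if_neg hn]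
      by_cases h1 : Squarefree t.1.1
      swap
      · have hc0 : ¬ ((Squarefree t.1.1 ∧ Squarefree t.1.2 ∧ Squarefree t.2.1 ∧
          Squarefree t.2.2) ∧ IsSquare (t.1.1 * t.1.2 * (t.2.1 * t.2.2))) := fun hh => h1 hh.1.1
        rw [if_neg hc0]; simp [hzero _ h1]
      by_cases h2 : Squarefree t.1.2
      swap
      · have hc0 : ¬ ((Squarefree t.1.1 ∧ Squarefree t.1.2 ∧ Squarefree t.2.1 ∧
          Squarefree t.2.2) ∧ IsSquare (t.1.1 * t.1.2 * (t.2.1 * t.2.2))) := fun hh => h2 hh.1.2.1
        rw [if_neg hc0]; simp [hzero _ h2]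
      by_cases h3 : Squarefree t.2.1
      swap
      · have hc0 : ¬ ((Squarefree t.1.1 ∧ Squarefree t.1.2 ∧ Squarefree t.2.1 ∧
          Squarefree t.2.2) ∧ IsSquare (t.1.1 * t.1.2 * (t.2.1 * t.2.2))) :=
            fun hh => h3 hh.1.2.2.1
        rw [if_neg hc0]; simp [hzero _ h3]
      by_cases h4 : Squarefree t.2.2
      swap
      · have hc0 : ¬ ((Squarefree t.1.1 ∧ Squarefree t.1.2 ∧ Squarefree t.2.1 ∧
          Squarefree t.2.2) ∧ IsSquare (t.1.1 * t.1.2 * (t.2.1 * t.2.2))) :=
            fun hh => h4 hh.1.2.2.2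
        rw [if_neg hc0]; simp [hzero _ h4]
      by_cases h5 : IsSquare (t.1.1 * t.1.2 * (t.2.1 * t.2.2))
      swap
      · rw [int_four h h1 h2 h3 h4 h5, zero_mul, if_neg (fun hh => h5 hh.2)]
      rw [if_pos ⟨⟨h1, h2, h3, h4⟩, h5⟩]
      have hI : |∫ ω, rmf e ω t.1.1 * rmf e ω t.1.2 * (rmf e ω t.2.1 * rmf e ω t.2.2) ∂P| ≤ 1 := by
        rw [← Real.norm_eq_abs]
        have := norm_integral_le_of_norm_le_const (μ := P) (C := 1)
          (f := fun ω => rmf e ω t.1.1 * rmf e ω t.1.2 * (rmf e ω t.2.1 * rmf e ω t.2.2)) (by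
            filter_upwards [hbd] with ω hω
            rw [Real.norm_eq_abs]
            exact hω _ _ _ _)
        simpa using this
      have hk1 := hK _ ht.1
      have hk2 := hK _ ht.2
      calc _ ≤ |(∫ ω, rmf e ω t.1.1 * rmf e ω t.1.2 * (rmf e ω t.2.1 * rmf e ω t.2.2) ∂P) *
            (K t.1 * K t.2)| := le_abs_self _
        _ = |∫ ω, rmf e ω t.1.1 * rmf e ω t.1.2 * (rmf e ω t.2.1 * rmf e ω t.2.2) ∂P| *
            (|K t.1| * |K t.2|) := by rw [abs_mul, abs_mul]
        _ ≤ 1 * (κ * κ) := by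
            apply mul_le_mul hI _ (by positivity) (by norm_num)
            exact mul_le_mul hk1 hk2 (abs_nonneg _) ((abs_nonneg _).trans hk1)
        _ = κ ^ 2 := by ring
    calc _ ≤ ∑ t ∈ S ×ˢ S,
        (if ((Squarefree t.1.1 ∧ Squarefree t.1.2 ∧ Squarefree t.2.1 ∧ Squarefree t.2.2) ∧
          IsSquare (t.1.1 * t.1.2 * (t.2.1 * t.2.2))) then κ ^ 2 else 0) :=
          Finset.sum_le_sum hterm
      _ = _ := by
        rw [← Finset.sum_filter, Finset.sum_const, nsmul_eq_mul, mul_comm]

/-- independent random signs exist -/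
theorem exists_signs : ∃ (Ω : Type) (_ : MeasurableSpace Ω) (P : Measure Ω)
    (_ : IsProbabilityMeasure P) (e : ℕ → Ω → ℝ), IsSigns P e := by
  let μ : Measure ℝ := (1 / 2 : ENNReal) • Measure.dirac 1 + (1 / 2 : ENNReal) • Measure.dirac (-1)
  have hμ : IsProbabilityMeasure μ := by
    constructor
    simp only [μ, Measure.coe_add, Pi.add_apply, Measure.smul_apply, measure_univ, smul_eq_mul,
      mul_one]
    exact ENNReal.add_halves 1
  refine ⟨ℕ → ℝ, inferInstance, Measure.infinitePi (fun _ => μ), inferInstance,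
    fun p ω => ω p, ?_⟩
  have hmap : ∀ p : ℕ, (Measure.infinitePi (fun _ : ℕ => μ)).map (fun ω : ℕ → ℝ => ω p) = μ :=
    fun p => Measure.infinitePi_map_eval (fun _ : ℕ => μ) p
  constructor
  · intro p
    exact measurable_pi_apply p
  · exact iIndepFun_infinitePi (X := fun (_ : ℕ) (x : ℝ) => x) (fun _ => measurable_id)
  · intro p
    have h1 : (Measure.infinitePi (fun _ : ℕ => μ)) ((fun ω : ℕ → ℝ => ω p) ⁻¹' {1}) = μ {1} := by
      rw [← Measure.map_apply (measurable_pi_apply p) (measurableSet_singleton 1), hmap p]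
    have h2 : μ {1} = 1 / 2 := by
      simp only [μ, Measure.coe_add, Pi.add_apply, Measure.smul_apply, smul_eq_mul]
      rw [Measure.dirac_apply' _ (measurableSet_singleton _),
        Measure.dirac_apply' _ (measurableSet_singleton _)]
      have : (-1 : ℝ) ∉ ({1} : Set ℝ) := by
        rw [Set.mem_singleton_iff]; norm_num
      rw [Set.indicator_of_mem (Set.mem_singleton _), Set.indicator_of_notMem this]
      simp
    rw [← h2, ← h1]
    rfl
  · intro p
    have h1 : (Measure.infinitePi (fun _ : ℕ => μ)) ((fun ω : ℕ → ℝ => ω p) ⁻¹' {-1}) = μ {-1} := by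
      rw [← Measure.map_apply (measurable_pi_apply p) (measurableSet_singleton (-1)), hmap p]
    have h2 : μ {-1} = 1 / 2 := by
      simp only [μ, Measure.coe_add, Pi.add_apply, Measure.smul_apply, smul_eq_mul]
      rw [Measure.dirac_apply' _ (measurableSet_singleton _),
        Measure.dirac_apply' _ (measurableSet_singleton _)]
      have : (1 : ℝ) ∉ ({-1} : Set ℝ) := by
        rw [Set.mem_singleton_iff]; norm_num
      rw [Set.indicator_of_mem (Set.mem_singleton _), Set.indicator_of_notMem this]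
      simp
    rw [← h2, ← h1]
    rfl

end Pool.Agent.H18.RM
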