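import Pool.Agent.H18.RM.Prob
import Pool.Agent.H18.RM.Expand
import Pool.Agent.H18.RM.Diag
import Pool.Agent.H18.RM.CountS

/-!
# Deviation probabilities for the random model

`prob_dev`: by `IC_expand_diag` (with `N = ⌈V + H⌉₊`) and `rmf_sq`, almost surely
`IC - (6/π²) H (V-U) = (Dg - (6/π²) H (V-U)) + D`, `D` the off-diagonal form with `K = KC U V H`,
`|K| ≤ H`, and only pairs with `n ≠ m`, `|n-m| < H`, `n, m` in `[Y, 20Y]`, `Y = ⌈X/4⌉`, matter.
By `dg_all` the first difference is at most `(lam/2) X H`; `∫ D² ≤ H² #SQ(Y, ⌈H⌉)` by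
`second_moment`, and Chebyshev.

`prob_up`: the expectation of the integral is `∑_{n squarefree} KC(X/4, 5X, H, n, n) ≤ 10 X H`
(`IC_expand_diag`, `int_two`), and Markov.
-/

set_option autoImplicit false

namespace Pool.Agent.H18.RM

open Finset MeasureTheory ProbabilityTheory

universe u

private theorem ProbA_expand {Ω : Type*} (e : ℕ → Ω → ℝ) (ω : Ω) {U V H : ℝ} (hUV : U ≤ V)
    (hH : 0 < H) {N : ℕ} (hN : V + H ≤ N) :
    IC (fun n => (rmf e ω n : ℂ)) U V H =
      (∑ n ∈ range N, rmf e ω n ^ 2 * KC U V H n n) +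
      ∑ p ∈ (range N ×ˢ range N).filter (fun p => p.1 ≠ p.2),
        rmf e ω p.1 * rmf e ω p.2 * KC U V H p.1 p.2 := by
  have h := IC_expand_diag (fun n => (rmf e ω n : ℂ)) hUV hH hN
  apply Complex.ofReal_injective
  rw [h]
  simp only [Complex.norm_real, Real.norm_eq_abs, sq_abs, Complex.conj_ofReal]
  push_cast
  rfl

private theorem ProbA_int {Ω : Type*} [MeasurableSpace Ω] {P : Measure Ω}
    [IsProbabilityMeasure P] {e : ℕ → Ω → ℝ} (h : IsSigns P e) (a b : ℕ) :
    Integrable (fun ω => rmf e ω a * rmf e ω b) P := by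
  refine Integrable.of_bound
    ((measurable_rmf h a).mul (measurable_rmf h b)).aestronglyMeasurable 1 ?_
  filter_upwards [rmf_sq h] with ω hω
  rw [Real.norm_eq_abs, abs_mul]
  calc |rmf e ω a| * |rmf e ω b| ≤ 1 * 1 :=
        mul_le_mul (hω a).1 (hω b).1 (abs_nonneg _) zero_le_one
    _ = 1 := one_mul 1

private theorem ProbA_markov {Ω : Type*} [MeasurableSpace Ω] {P : Measure Ω}
    [IsProbabilityMeasure P] {f : Ω → ℝ} (hf0 : 0 ≤ᵐ[P] f) (hf : Integrable f P) {ε B : ℝ}
    (hε : 0 < ε) (hB : ∫ ω, f ω ∂P ≤ B) :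
    P {ω | ε ≤ f ω} ≤ ENNReal.ofReal (B / ε) := by
  have h1 := mul_meas_ge_le_integral_of_nonneg hf0 hf ε
  have h2 : P.real {ω | ε ≤ f ω} ≤ B / ε := by
    rw [le_div_iff₀ hε, mul_comm]
    exact h1.trans hB
  rw [← ofReal_measureReal (measure_ne_top P _)]
  exact ENNReal.ofReal_le_ofReal h2

theorem prob_dev : ∃ C : ℝ, 1 ≤ C ∧ ∀ (Ω : Type u) [MeasurableSpace Ω] (P : Measure Ω)
    [IsProbabilityMeasure P] (e : ℕ → Ω → ℝ), IsSigns P e → ∀ (X U V H lam : ℝ), 32 ≤ X →
    X / 2 ≤ U → U ≤ V → V ≤ 4 * X → 1 ≤ H → H ≤ X / 8 →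
    C * (1 / Real.sqrt X + H / X) ≤ lam →
    P {ω | lam * X * H < |IC (fun n => (rmf e ω n : ℂ)) U V H -
        6 / Real.pi ^ 2 * H * (V - U)|} ≤
      ENNReal.ofReal (C * (1 + Real.log X) ^ 4 * H / (lam ^ 2 * X)) := by
  obtain ⟨C1, hC1, hSQ⟩ := card_SQ
  obtain ⟨C2, hC2, hDg⟩ := dg_all
  refine ⟨1 + 2 * C2 + 216 * C1, by linarith, ?_⟩
  intro Ω _ P _ e he X U V H lam hX hU hUV hV hH hHX hlam
  have hX0 : 0 < X := by linarith
  have hH0 : 0 < H := by linarith
  have hsX : 0 < Real.sqrt X := Real.sqrt_pos.mpr hX0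
  have hq : 0 < 1 / Real.sqrt X + H / X := by positivity
  have hlam0 : 0 < lam := lt_of_lt_of_le (by positivity) hlam
  set N : ℕ := ⌈V + H⌉₊ with hN
  have hVN : V + H ≤ N := Nat.le_ceil _
  set Y : ℕ := ⌈X / 4⌉₊ with hY
  set h : ℕ := ⌈H⌉₊ with hh
  have hYl : X / 4 ≤ Y := Nat.le_ceil _
  have hYu : (Y : ℝ) ≤ X / 4 + 1 := (Nat.ceil_lt_add_one (by positivity)).le
  have hhl : H ≤ h := Nat.le_ceil _
  have hhu : (h : ℝ) ≤ H + 1 := (Nat.ceil_lt_add_one (by positivity)).le
  have hY1 : 1 ≤ Y := by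
    have : (1 : ℝ) ≤ Y := by linarith
    exact_mod_cast this
  have hh1 : 1 ≤ h := by
    have : (1 : ℝ) ≤ h := by linarith
    exact_mod_cast this
  -- the relevant pairs
  set S : Finset (ℕ × ℕ) := ((range N ×ˢ range N).filter (fun p => p.1 ≠ p.2)).filter
    (fun p => (Y ≤ p.1 ∧ p.1 ≤ 20 * Y) ∧ (Y ≤ p.2 ∧ p.2 ≤ 20 * Y) ∧
      |(p.1 : ℤ) - p.2| ≤ h) with hS
  set K : ℕ × ℕ → ℝ := fun s => KC U V H s.1 s.2 with hK
  have hzero : ∀ p : ℕ × ℕ, p ∉ S → p ∈ (range N ×ˢ range N).filter (fun p => p.1 ≠ p.2) →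
      KC U V H p.1 p.2 = 0 := by
    intro p hpS hp
    by_contra hne
    apply hpS
    rw [hS, mem_filter]
    refine ⟨hp, ?_⟩
    have key : ∀ n m : ℕ, KC U V H n m ≠ 0 → Y ≤ n ∧ n ≤ 20 * Y := by
      intro n m hnm
      have h1 : U - H / 2 < (n : ℝ) := by
        by_contra hcon
        exact hnm (KC_eq_zero_of_le (not_lt.mp hcon))
      have h2 : (n : ℝ) < V + H / 2 := by
        by_contra hcon
        exact hnm (KC_eq_zero_of_ge (not_lt.mp hcon))
      constructor
      · have : (Y : ℝ) ≤ n := by linarith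
        exact_mod_cast this
      · have : (n : ℝ) ≤ ((20 * Y : ℕ) : ℝ) := by
          push_cast
          linarith
        exact_mod_cast this
    refine ⟨key _ _ hne, key p.2 p.1 (by rw [KC_comm]; exact hne), ?_⟩
    have h3 : |(p.1 : ℝ) - p.2| < H := by
      by_contra hcon
      exact hne (KC_eq_zero_of_far (not_lt.mp hcon))
    have h4 : ((|(p.1 : ℤ) - p.2| : ℤ) : ℝ) ≤ ((h : ℤ) : ℝ) := by
      push_cast
      linarith
    exact_mod_cast h4
  have hsm := second_moment he S K (κ := H) (fun s _ => by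
    rw [hK]
    simp only
    rw [abs_of_nonneg (KC_nonneg _ _ _ _ _)]
    exact KC_le hH0.le _ _)
  set D : Ω → ℝ := fun ω => ∑ s ∈ S, rmf e ω s.1 * rmf e ω s.2 * K s with hD
  have hsub : ((S ×ˢ S).filter (fun t => (Squarefree t.1.1 ∧ Squarefree t.1.2 ∧
        Squarefree t.2.1 ∧ Squarefree t.2.2) ∧ IsSquare (t.1.1 * t.1.2 * (t.2.1 * t.2.2)))) ⊆
      SQ Y h := by
    intro t ht
    rw [mem_filter, mem_product] at ht
    obtain ⟨⟨ht1, ht2⟩, hsf, hsq⟩ := ht
    rw [hS, mem_filter, mem_filter] at ht1 ht2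
    rw [SQ, mem_filter, mem_product, mem_product, mem_product, mem_Icc, mem_Icc, mem_Icc, mem_Icc]
    exact ⟨⟨⟨ht1.2.1, ht1.2.2.1⟩, ⟨ht2.2.1, ht2.2.2.1⟩⟩, hsf, ⟨ht1.1.2, ht2.1.2⟩,
      ⟨ht1.2.2.2, ht2.2.2.2⟩, hsq⟩
  have hL0 : 0 ≤ Real.log X := Real.log_nonneg (by linarith)
  have hcard : (((S ×ˢ S).filter (fun t => (Squarefree t.1.1 ∧ Squarefree t.1.2 ∧
        Squarefree t.2.1 ∧ Squarefree t.2.2) ∧
        IsSquare (t.1.1 * t.1.2 * (t.2.1 * t.2.2)))).card : ℝ) ≤
      54 * C1 * X * H * (1 + Real.log X) ^ 4 := by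
    have h1 : (((S ×ˢ S).filter (fun t => (Squarefree t.1.1 ∧ Squarefree t.1.2 ∧
        Squarefree t.2.1 ∧ Squarefree t.2.2) ∧
        IsSquare (t.1.1 * t.1.2 * (t.2.1 * t.2.2)))).card : ℝ) ≤ ((SQ Y h).card : ℝ) := by
      exact_mod_cast card_le_card hsub
    have h2 := hSQ Y h hY1 hh1
    have hlog : Real.log (20 * Y) ≤ 2 + Real.log X := by
      have h20 : (20 : ℝ) * Y ≤ 6 * X := by linarith
      have h6 : Real.log 6 ≤ 2 := by
        rw [Real.log_le_iff_le_exp (by norm_num)]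
        have he2 : (2.7182818283 : ℝ) < Real.exp 1 := Real.exp_one_gt_d9
        have : Real.exp 2 = Real.exp 1 * Real.exp 1 := by
          rw [← Real.exp_add]; norm_num
        rw [this]
        nlinarith
      calc Real.log (20 * Y) ≤ Real.log (6 * X) :=
            Real.log_le_log (by positivity) h20
        _ = Real.log 6 + Real.log X := Real.log_mul (by norm_num) hX0.ne'
        _ ≤ 2 + Real.log X := by linarith
    have hlog0 : 0 ≤ Real.log (20 * Y) := by
      apply Real.log_nonneg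
      have : (1 : ℝ) ≤ Y := by exact_mod_cast hY1
      linarith
    have h3 : (1 + Real.log (20 * Y)) ^ 4 ≤ 81 * (1 + Real.log X) ^ 4 := by
      calc (1 + Real.log (20 * Y)) ^ 4 ≤ (3 * (1 + Real.log X)) ^ 4 :=
            pow_le_pow_left₀ (by linarith) (by linarith) 4
        _ = 81 * (1 + Real.log X) ^ 4 := by ring
    have h4 : (Y : ℝ) * h ≤ X / 3 * (2 * H) :=
      mul_le_mul (by linarith) (by linarith) (by positivity) (by positivity)
    calc _ ≤ ((SQ Y h).card : ℝ) := h1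
      _ ≤ C1 * Y * h * (1 + Real.log (20 * Y)) ^ 4 := h2
      _ = C1 * ((Y : ℝ) * h) * (1 + Real.log (20 * Y)) ^ 4 := by ring
      _ ≤ C1 * (X / 3 * (2 * H)) * (81 * (1 + Real.log X) ^ 4) := by
          apply mul_le_mul _ h3 (by positivity) (by positivity)
          exact mul_le_mul_of_nonneg_left h4 hC1.le
      _ = 54 * C1 * X * H * (1 + Real.log X) ^ 4 := by ring
  have hint : ∫ ω, D ω ^ 2 ∂P ≤ H ^ 2 * (54 * C1 * X * H * (1 + Real.log X) ^ 4) :=
    hsm.2.trans (mul_le_mul_of_nonneg_left hcard (by positivity))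
  -- the event
  have hdg : |Dg (fun _ => True) U V H N - 6 / Real.pi ^ 2 * H * (V - U)| ≤ lam / 2 * X * H := by
    have h1 := hDg X U V H N (by linarith) (by linarith) hUV (by linarith) hH (by linarith) hVN
    have h2 : C2 * (H * Real.sqrt X + H ^ 2) = C2 * (1 / Real.sqrt X + H / X) * X * H := by
      have hs : Real.sqrt X * Real.sqrt X = X := Real.mul_self_sqrt hX0.le
      have h3 : 1 / Real.sqrt X * X = Real.sqrt X := by
        field_simp
        linarith [Real.sq_sqrt hX0.le]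
      have h4 : H / X * X = H := by field_simp
      calc C2 * (H * Real.sqrt X + H ^ 2)
          = C2 * (1 / Real.sqrt X * X + H / X * X) * H := by rw [h3, h4]; ring
        _ = _ := by ring
    rw [h2] at h1
    refine h1.trans ?_
    have h5 : C2 * (1 / Real.sqrt X + H / X) ≤ lam / 2 := by
      have : (2 * C2) * (1 / Real.sqrt X + H / X) ≤
          (1 + 2 * C2 + 216 * C1) * (1 / Real.sqrt X + H / X) :=
        mul_le_mul_of_nonneg_right (by linarith) hq.le
      linarith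
    have h6 := mul_le_mul_of_nonneg_right h5 hX0.le
    exact mul_le_mul_of_nonneg_right h6 hH0.le
  have hev : P {ω | lam * X * H < |IC (fun n => (rmf e ω n : ℂ)) U V H -
        6 / Real.pi ^ 2 * H * (V - U)|} ≤ P {ω | (lam / 2 * X * H) ^ 2 ≤ D ω ^ 2} := by
    apply measure_mono_ae
    filter_upwards [rmf_sq he] with ω hω hmem
    change lam * X * H < |IC (fun n => (rmf e ω n : ℂ)) U V H -
        6 / Real.pi ^ 2 * H * (V - U)| at hmem
    change (lam / 2 * X * H) ^ 2 ≤ D ω ^ 2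
    have hex := ProbA_expand e ω hUV hH0 hVN
    have hdiag : (∑ n ∈ range N, rmf e ω n ^ 2 * KC U V H n n) =
        Dg (fun _ => True) U V H N := by
      unfold Dg
      rw [sum_filter]
      apply sum_congr rfl
      intro n _
      rw [(hω n).2]
      by_cases hs : Squarefree n <;> simp [hs]
    have hoff : (∑ p ∈ (range N ×ˢ range N).filter (fun p => p.1 ≠ p.2),
        rmf e ω p.1 * rmf e ω p.2 * KC U V H p.1 p.2) = D ω := by
      rw [hD]
      symm
      apply sum_subset (filter_subset _ _)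
      intro p hp hpS
      change rmf e ω p.1 * rmf e ω p.2 * KC U V H p.1 p.2 = 0
      rw [hzero p hpS hp, mul_zero]
    rw [hex, hdiag, hoff] at hmem
    have h1 : |Dg (fun _ => True) U V H N + D ω - 6 / Real.pi ^ 2 * H * (V - U)| ≤
        |Dg (fun _ => True) U V H N - 6 / Real.pi ^ 2 * H * (V - U)| + |D ω| := by
      have : Dg (fun _ => True) U V H N + D ω - 6 / Real.pi ^ 2 * H * (V - U) =
        (Dg (fun _ => True) U V H N - 6 / Real.pi ^ 2 * H * (V - U)) + D ω := by ring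
      rw [this]
      exact abs_add_le _ _
    have h2 : lam / 2 * X * H ≤ |D ω| := by
      have : lam * X * H = lam / 2 * X * H + lam / 2 * X * H := by ring
      linarith
    calc (lam / 2 * X * H) ^ 2 ≤ |D ω| ^ 2 := pow_le_pow_left₀ (by positivity) h2 2
      _ = D ω ^ 2 := sq_abs _
  refine hev.trans ((ProbA_markov (Filter.Eventually.of_forall fun ω => sq_nonneg _) hsm.1
    (by positivity) hint).trans ?_)
  apply ENNReal.ofReal_le_ofReal
  have h1 : H ^ 2 * (54 * C1 * X * H * (1 + Real.log X) ^ 4) / (lam / 2 * X * H) ^ 2 =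
      216 * C1 * (1 + Real.log X) ^ 4 * H / (lam ^ 2 * X) := by
    field_simp
    ring
  rw [h1]
  apply div_le_div_of_nonneg_right _ (by positivity)
  apply mul_le_mul_of_nonneg_right _ hH0.le
  apply mul_le_mul_of_nonneg_right _ (by positivity)
  linarith

theorem prob_up {Ω : Type u} [MeasurableSpace Ω] {P : Measure Ω}
    [IsProbabilityMeasure P] {e : ℕ → Ω → ℝ} (h : IsSigns P e) {X H T : ℝ} (hX : 32 ≤ X)
    (hH : 1 ≤ H) (hHX : H ≤ X) (hT : 0 < T) :
    P {ω | T ^ 2 * X * H < ∫ y in (X / 4)..(5 * X), ‖MC (fun n => (rmf e ω n : ℂ)) y H‖ ^ 2} ≤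
      ENNReal.ofReal (10 / T ^ 2) := by
  have hX0 : 0 < X := by linarith
  have hH0 : 0 < H := by linarith
  set N : ℕ := ⌈5 * X + H⌉₊ with hN
  have hVN : 5 * X + H ≤ N := Nat.le_ceil _
  have hUV : X / 4 ≤ 5 * X := by linarith
  have hex : ∀ ω, IC (fun n => (rmf e ω n : ℂ)) (X / 4) (5 * X) H =
      (∑ n ∈ range N, rmf e ω n ^ 2 * KC (X / 4) (5 * X) H n n) +
      ∑ p ∈ (range N ×ˢ range N).filter (fun p => p.1 ≠ p.2),
        rmf e ω p.1 * rmf e ω p.2 * KC (X / 4) (5 * X) H p.1 p.2 :=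
    fun ω => ProbA_expand e ω hUV hH0 hVN
  have hi1 : ∀ n ∈ range N, Integrable (fun ω => rmf e ω n ^ 2 * KC (X / 4) (5 * X) H n n) P := by
    intro n _
    have := ProbA_int h n n
    simp only [← sq] at this
    exact this.mul_const _
  have hi2 : ∀ p ∈ (range N ×ˢ range N).filter (fun p => p.1 ≠ p.2), Integrable (fun ω =>
      rmf e ω p.1 * rmf e ω p.2 * KC (X / 4) (5 * X) H p.1 p.2) P :=
    fun p _ => (ProbA_int h p.1 p.2).mul_const _
  have hI : Integrable (fun ω => IC (fun n => (rmf e ω n : ℂ)) (X / 4) (5 * X) H) P := by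
    have := (integrable_finsetSum _ hi1).add (integrable_finsetSum _ hi2)
    refine this.congr (Filter.Eventually.of_forall fun ω => ?_)
    simp only [Pi.add_apply]
    rw [hex ω]
  have hE : ∫ ω, IC (fun n => (rmf e ω n : ℂ)) (X / 4) (5 * X) H ∂P ≤ 10 * X * H := by
    have h1 : ∫ ω, IC (fun n => (rmf e ω n : ℂ)) (X / 4) (5 * X) H ∂P =
        ∫ ω, ∑ n ∈ range N, rmf e ω n ^ 2 * KC (X / 4) (5 * X) H n n ∂P := by
      simp only [hex]
      rw [integral_add (integrable_finsetSum _ hi1) (integrable_finsetSum _ hi2),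
        integral_finsetSum _ hi2]
      have : ∑ p ∈ (range N ×ˢ range N).filter (fun p => p.1 ≠ p.2), ∫ ω,
          rmf e ω p.1 * rmf e ω p.2 * KC (X / 4) (5 * X) H p.1 p.2 ∂P = 0 := by
        apply sum_eq_zero
        intro p hp
        rw [integral_mul_const, int_two h (mem_filter.mp hp).2, zero_mul]
      rw [this, add_zero]
    rw [h1]
    have h2 : ∫ ω, ∑ n ∈ range N, rmf e ω n ^ 2 * KC (X / 4) (5 * X) H n n ∂P ≤
        ∫ _ω : Ω, 10 * X * H ∂P := by
      apply integral_mono_ae (integrable_finsetSum _ hi1) (integrable_const _)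
      filter_upwards [rmf_sq h] with ω hω
      have h3 : ∀ n ∈ range N, rmf e ω n ^ 2 * KC (X / 4) (5 * X) H n n ≤
          if (n : ℝ) < 5 * X + H / 2 then H else 0 := by
        intro n _
        by_cases hn : (n : ℝ) < 5 * X + H / 2
        · rw [if_pos hn]
          have h4 : rmf e ω n ^ 2 ≤ 1 := by
            rw [(hω n).2]
            split_ifs <;> norm_num
          calc rmf e ω n ^ 2 * KC (X / 4) (5 * X) H n n ≤ 1 * H :=
                mul_le_mul h4 (KC_le hH0.le _ _) (KC_nonneg _ _ _ _ _) zero_le_one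
            _ = H := one_mul H
        · rw [if_neg hn, KC_eq_zero_of_ge (not_lt.mp hn), mul_zero]
      refine (sum_le_sum h3).trans ?_
      rw [← sum_filter, sum_const, nsmul_eq_mul]
      apply mul_le_mul_of_nonneg_right _ hH0.le
      have h5 : (range N).filter (fun n : ℕ => (n : ℝ) < 5 * X + H / 2) ⊆
          range (⌈5 * X + H / 2⌉₊) := by
        intro n hn
        rw [mem_range]
        exact Nat.lt_ceil.mpr (mem_filter.mp hn).2
      have h6 : (((range N).filter (fun n : ℕ => (n : ℝ) < 5 * X + H / 2)).card : ℝ) ≤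
          (⌈5 * X + H / 2⌉₊ : ℝ) := by
        have := card_le_card h5
        rw [card_range] at this
        exact_mod_cast this
      have h7 : (⌈5 * X + H / 2⌉₊ : ℝ) ≤ 5 * X + H / 2 + 1 :=
        (Nat.ceil_lt_add_one (by positivity)).le
      linarith
    rw [integral_const, probReal_univ, one_smul] at h2
    exact h2
  have hnn : 0 ≤ᵐ[P] fun ω => IC (fun n => (rmf e ω n : ℂ)) (X / 4) (5 * X) H := by
    apply Filter.Eventually.of_forall
    intro ω
    change 0 ≤ ∫ y in (X / 4)..(5 * X), ‖MC (fun n => (rmf e ω n : ℂ)) y H‖ ^ 2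
    exact intervalIntegral.integral_nonneg hUV (fun y _ => sq_nonneg _)
  have hm := ProbA_markov hnn hI (ε := T ^ 2 * X * H) (by positivity) hE
  refine (measure_mono ?_).trans (hm.trans ?_)
  · intro ω hω
    change T ^ 2 * X * H < ∫ y in (X / 4)..(5 * X), ‖MC (fun n => (rmf e ω n : ℂ)) y H‖ ^ 2 at hω
    exact hω.le
  · apply ENNReal.ofReal_le_ofReal
    apply le_of_eq
    field_simp

end Pool.Agent.H18.RM
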