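import Pool.Agent.H18.RM.BadA

/-!
# The almost sure law for the random model

Scales `X_k = exp(k^α)`, `α = 1/(B+3)`, `L = log X_k = k^α`; `T = L^(B+3)`,
`J = ⌈L^(6B+14)⌉`, `δ = L^(-(B+1))`, `R = X_k / L^(9B+24)`.
* `X_{k+1}/X_k = exp((k+1)^α - k^α) ≤ exp(α k^(α-1)) ≤ 1 + 2 L^(-(B+2))` for large `k`, since
  `k^(α-1) = L^(-(B+2))`.
* `prob_bad`: the probability of the `k`-th bad event is at most
  `30 L^(1-2(B+3)) + C' L^(-(B+4)) ≤ C'' (k^(-(2B+5)/(B+3)) + k^(-(B+4)/(B+3)))`, summable, so by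
  Borel-Cantelli (`measure_limsup_atTop_eq_zero` / `ae_eventually_notMem`) almost surely all large
  scales are good.
* `GoodAt.law`: for `Y` in `[X_k, X_{k+1}]` and `1 ≤ H ≤ Y/(log Y)^(9B+25) ≤ R` the error is at most
  `2(δ + 60 T²/√J) + 6τ ≤ 134 L^(-(B+1)) ≤ (log Y)^(-B)` (`T²/√J ≤ L^(2B+6-(3B+7))`).
-/

set_option autoImplicit false

namespace Pool.Agent.H18.RM

open Finset MeasureTheory ProbabilityTheory Filter

/-- `L_k = k^(1/(B+3))` -/
private noncomputable def seqaL (B k : ℕ) : ℝ := (k : ℝ) ^ (((B + 3 : ℕ) : ℝ)⁻¹)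

private theorem seqaL_nonneg (B k : ℕ) : 0 ≤ seqaL B k := by
  unfold seqaL; positivity

private theorem seqaL_pow (B k : ℕ) : seqaL B k ^ (B + 3) = k := by
  unfold seqaL
  exact Real.rpow_inv_natCast_pow (Nat.cast_nonneg k) (by omega)

private theorem seqaL_mono (B : ℕ) {k l : ℕ} (h : k ≤ l) : seqaL B k ≤ seqaL B l := by
  unfold seqaL
  apply Real.rpow_le_rpow (Nat.cast_nonneg k) (by exact_mod_cast h) (by positivity)

private theorem seqaL_tendsto (B : ℕ) : Tendsto (seqaL B) atTop atTop := by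
  unfold seqaL
  have h := tendsto_rpow_atTop (y := (((B + 3 : ℕ) : ℝ)⁻¹)) (by positivity)
  exact h.comp tendsto_natCast_atTop_atTop

private theorem seqaL_step (B k : ℕ) (h1 : 1 ≤ seqaL B k) :
    seqaL B (k + 1) - seqaL B k ≤ 1 / seqaL B k ^ (B + 2) := by
  set a := seqaL B k with ha
  set b := seqaL B (k + 1) with hb
  have hab : a ≤ b := seqaL_mono B (Nat.le_succ k)
  have ha' : a ^ (B + 3) = k := seqaL_pow B k
  have hb' : b ^ (B + 3) = k + 1 := by
    have := seqaL_pow B (k + 1)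
    rw [← hb] at this
    rw [this]; push_cast; ring
  have h2 : a ^ (B + 2) ≤ b ^ (B + 2) := pow_le_pow_left₀ (by linarith) hab _
  have h3 : b ^ (B + 3) = b * b ^ (B + 2) := by ring
  have h4 : a ^ (B + 3) = a * a ^ (B + 2) := by ring
  have hapos : 0 < a ^ (B + 2) := by positivity
  rw [le_div_iff₀ hapos]
  have h5 : b * a ^ (B + 2) ≤ b * b ^ (B + 2) := mul_le_mul_of_nonneg_left h2 (by linarith)
  have h6 : (b - a) * a ^ (B + 2) = b * a ^ (B + 2) - a * a ^ (B + 2) := by ring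
  rw [h6]
  linarith

private theorem seqa_exp_step (B k : ℕ) (h2 : 2 ≤ seqaL B k) :
    Real.exp (seqaL B (k + 1)) ≤ (1 + 2 / seqaL B k ^ (B + 2)) * Real.exp (seqaL B k) := by
  set a := seqaL B k with ha
  set b := seqaL B (k + 1) with hb
  have hab : a ≤ b := seqaL_mono B (Nat.le_succ k)
  have hs := seqaL_step B k (by linarith)
  rw [← ha, ← hb] at hs
  have h4 : (4:ℝ) ≤ a ^ (B + 2) := by
    calc (4:ℝ) = 2 ^ 2 := by norm_num
      _ ≤ a ^ 2 := pow_le_pow_left₀ (by norm_num) h2 2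
      _ ≤ a ^ (B + 2) := pow_le_pow_right₀ (by linarith) (by omega)
  have h5 : 1 / a ^ (B + 2) ≤ 1 / 4 := one_div_le_one_div_of_le (by norm_num) h4
  set t := b - a with ht
  have ht0 : 0 ≤ t := by linarith
  have hexp : Real.exp t ≤ 1 + 2 * t := by
    rcases ht0.eq_or_lt with h0 | h0
    · rw [← h0]; simp
    · have h6 := (Real.exp_bound_div_one_sub_of_interval' h0 (by linarith)).le
      refine h6.trans ?_
      rw [div_le_iff₀ (by linarith)]
      nlinarith
  have e : Real.exp b = Real.exp t * Real.exp a := by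
    rw [← Real.exp_add, ht]; ring_nf
  rw [e]
  apply mul_le_mul_of_nonneg_right _ (Real.exp_pos a).le
  have : 2 / a ^ (B + 2) = 2 * (1 / a ^ (B + 2)) := by ring
  rw [this]
  linarith

/-- the threshold for the size of `L` -/
private theorem seqa_threshold (B : ℕ) (C : ℝ) : ∃ M : ℝ, 8 ≤ M ∧ 2 * C ≤ M ∧
    134 * 2 ^ B ≤ M ∧ ∀ L : ℝ, M ≤ L → L ^ (9 * B + 24) ≤ Real.exp L := by
  have h := Real.tendsto_exp_div_pow_atTop (9 * B + 24)
  have h1 := (tendsto_atTop.1 h 1)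
  obtain ⟨M0, hM0⟩ := Filter.eventually_atTop.1 h1
  refine ⟨max M0 (max 8 (max (2 * C) (134 * 2 ^ B))), ?_, ?_, ?_, ?_⟩
  · exact (le_max_left _ _).trans (le_max_right _ _)
  · exact (le_max_left _ _).trans ((le_max_right _ _).trans (le_max_right _ _))
  · exact (le_max_right _ _).trans ((le_max_right _ _).trans (le_max_right _ _))
  · intro L hL
    have h8 : 8 ≤ L := ((le_max_left _ _).trans (le_max_right _ _)).trans hL
    have := hM0 L ((le_max_left _ _).trans hL)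
    rw [le_div_iff₀ (by positivity)] at this
    linarith

/-- numerical facts at one scale -/
private theorem seqa_num (B : ℕ) (C L : ℝ) (hC : 1 ≤ C) (h8 : 8 ≤ L) (hC2 : 2 * C ≤ L)
    (hE : L ^ (9 * B + 24) ≤ Real.exp L) :
    32 ≤ Real.exp L ∧ 1 ≤ Real.exp L / L ^ (9 * B + 24) ∧
      Real.exp L / L ^ (9 * B + 24) ≤ Real.exp L / 8 ∧
      C * (1 / Real.sqrt (Real.exp L) + Real.exp L / L ^ (9 * B + 24) / Real.exp L)
        ≤ 1 / L ^ (B + 1) := by
  have hL0 : 0 < L := by linarith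
  have hL1 : 1 ≤ L := by linarith
  have hP : 0 < L ^ (9 * B + 24) := by positivity
  have hexp := Real.exp_pos L
  have h64 : (64:ℝ) ≤ L ^ (9 * B + 24) := by
    calc (64:ℝ) = 8 ^ 2 := by norm_num
      _ ≤ L ^ 2 := pow_le_pow_left₀ (by norm_num) h8 2
      _ ≤ L ^ (9 * B + 24) := pow_le_pow_right₀ hL1 (by omega)
  refine ⟨by linarith, ?_, ?_, ?_⟩
  · rw [le_div_iff₀ hP]; linarith
  · apply div_le_div_of_nonneg_left hexp.le (by norm_num) (by linarith)
  · have h1 : L ^ (B + 2) ≤ Real.sqrt (Real.exp L) := by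
      apply Real.le_sqrt_of_sq_le
      calc (L ^ (B + 2)) ^ 2 = L ^ (2 * B + 4) := by ring
        _ ≤ L ^ (9 * B + 24) := pow_le_pow_right₀ hL1 (by omega)
        _ ≤ _ := hE
    have h2 : 1 / Real.sqrt (Real.exp L) ≤ 1 / L ^ (B + 2) :=
      one_div_le_one_div_of_le (by positivity) h1
    have h3 : Real.exp L / L ^ (9 * B + 24) / Real.exp L ≤ 1 / L ^ (B + 2) := by
      have : Real.exp L / L ^ (9 * B + 24) / Real.exp L = 1 / L ^ (9 * B + 24) := by
        field_simp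
      rw [this]
      exact one_div_le_one_div_of_le (by positivity) (pow_le_pow_right₀ hL1 (by omega))
    calc C * (1 / Real.sqrt (Real.exp L) + Real.exp L / L ^ (9 * B + 24) / Real.exp L)
        ≤ C * (1 / L ^ (B + 2) + 1 / L ^ (B + 2)) :=
          mul_le_mul_of_nonneg_left (add_le_add h2 h3) (by linarith)
      _ = (2 * C) / L ^ (B + 2) := by ring
      _ ≤ L / L ^ (B + 2) := by gcongr
      _ = 1 / L ^ (B + 1) := by
          have : L ^ (B + 2) = L * L ^ (B + 1) := by ring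
          rw [this]; field_simp

/-- the probability bound at one scale -/
private theorem seqa_prob (B k : ℕ) (C : ℝ) (hC : 1 ≤ C) (h8 : 8 ≤ seqaL B k) :
    (2 * Real.log (Real.exp (seqaL B k)) + 2) * (10 / (seqaL B k ^ (B + 3)) ^ 2) +
        C * (1 + Real.log (Real.exp (seqaL B k))) ^ 4 * (⌈seqaL B k ^ (6 * B + 14)⌉₊ : ℕ)
          * (Real.exp (seqaL B k) / seqaL B k ^ (9 * B + 24))
          / ((1 / seqaL B k ^ (B + 1)) ^ 2 * Real.exp (seqaL B k))
      ≤ (40 + 32 * C) * (1 / (k : ℝ) ^ (1 + (((B + 3 : ℕ) : ℝ)⁻¹))) := by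
  set L := seqaL B k with hL
  have hL0 : 0 < L := by linarith
  have hL1 : 1 ≤ L := by linarith
  have hLk : L ^ (B + 3) = k := seqaL_pow B k
  have hk0 : (0:ℝ) < k := by rw [← hLk]; positivity
  have hkL : (k : ℝ) ^ (1 + (((B + 3 : ℕ) : ℝ)⁻¹)) = L ^ (B + 4) := by
    rw [Real.rpow_add hk0, Real.rpow_one]
    have : (k:ℝ) ^ (((B + 3 : ℕ) : ℝ)⁻¹) = L := rfl
    rw [this, ← hLk]; ring
  rw [hkL, Real.log_exp]
  have hexp := Real.exp_pos L
  have h1 : (2 * L + 2) * (10 / (L ^ (B + 3)) ^ 2) ≤ 40 * (1 / L ^ (B + 4)) := by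
    calc (2 * L + 2) * (10 / (L ^ (B + 3)) ^ 2) ≤ (4 * L) * (10 / (L ^ (B + 3)) ^ 2) :=
          mul_le_mul_of_nonneg_right (by linarith) (by positivity)
      _ = 40 * (1 / L ^ (2 * B + 5)) := by
          have : (L ^ (B + 3)) ^ 2 = L * L ^ (2 * B + 5) := by ring
          rw [this]; field_simp; norm_num
      _ ≤ 40 * (1 / L ^ (B + 4)) := by
          apply mul_le_mul_of_nonneg_left _ (by norm_num)
          exact one_div_le_one_div_of_le (by positivity) (pow_le_pow_right₀ hL1 (by omega))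
  have hJ : ((⌈L ^ (6 * B + 14)⌉₊ : ℕ) : ℝ) ≤ 2 * L ^ (6 * B + 14) := by
    have h3 := (Nat.ceil_lt_add_one (show 0 ≤ L ^ (6 * B + 14) by positivity)).le
    have h4 : (1:ℝ) ≤ L ^ (6 * B + 14) := one_le_pow₀ hL1
    linarith
  have h2 : C * (1 + L) ^ 4 * (⌈L ^ (6 * B + 14)⌉₊ : ℕ) * (Real.exp L / L ^ (9 * B + 24))
          / ((1 / L ^ (B + 1)) ^ 2 * Real.exp L) ≤ 32 * C * (1 / L ^ (B + 4)) := by
    have e1 : C * (1 + L) ^ 4 * (⌈L ^ (6 * B + 14)⌉₊ : ℕ) * (Real.exp L / L ^ (9 * B + 24))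
          / ((1 / L ^ (B + 1)) ^ 2 * Real.exp L)
        = C * (1 + L) ^ 4 * (⌈L ^ (6 * B + 14)⌉₊ : ℕ) * (L ^ (2 * B + 2) / L ^ (9 * B + 24)) := by
      have : (1 / L ^ (B + 1)) ^ 2 = 1 / L ^ (2 * B + 2) := by
        rw [div_pow, one_pow, ← pow_mul]; ring_nf
      rw [this]; field_simp
    rw [e1]
    calc C * (1 + L) ^ 4 * (⌈L ^ (6 * B + 14)⌉₊ : ℕ) * (L ^ (2 * B + 2) / L ^ (9 * B + 24))
        ≤ C * (2 * L) ^ 4 * (2 * L ^ (6 * B + 14)) * (L ^ (2 * B + 2) / L ^ (9 * B + 24)) := by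
          gcongr
          linarith
      _ = 32 * C * (L ^ (8 * B + 20) / L ^ (9 * B + 24)) := by
          have : L ^ (8 * B + 20) = L ^ 4 * L ^ (6 * B + 14) * L ^ (2 * B + 2) := by ring
          rw [this]; ring
      _ = 32 * C * (1 / L ^ (B + 4)) := by
          have : L ^ (9 * B + 24) = L ^ (8 * B + 20) * L ^ (B + 4) := by ring
          rw [this]
          congr 1
          field_simp
  have h3 : (40 + 32 * C) * (1 / L ^ (B + 4)) = 40 * (1 / L ^ (B + 4)) + 32 * C * (1 / L ^ (B + 4)) := by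
    ring
  rw [h3]
  exact add_le_add h1 h2

theorem law_ae {Ω : Type*} [MeasurableSpace Ω] {P : Measure Ω} [IsProbabilityMeasure P]
    {e : ℕ → Ω → ℝ} (h : IsSigns P e) (B : ℕ) :
    ∀ᵐ ω ∂P, ∀ᶠ X : ℝ in atTop, ∀ H : ℝ, 1 ≤ H → H ≤ X / Real.log X ^ (9 * B + 25) →
      |(1 / X * IC (fun n => (rmf e ω n : ℂ)) X (2 * X) H) / (H / (Real.pi ^ 2 / 6)) - 1| ≤
        1 / Real.log X ^ B := by
  obtain ⟨C, hC, hbad⟩ := prob_bad
  obtain ⟨M, hM8, hM2, hM134, hME⟩ := seqa_threshold B C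
  obtain ⟨K1, hK1⟩ := Filter.eventually_atTop.1 ((seqaL_tendsto B).eventually_ge_atTop M)
  -- the bad events
  set bad : ℕ → Set Ω := fun k => {ω | ¬ GoodAt (fun n => (rmf e ω n : ℂ))
    (Real.exp (seqaL B k)) (Real.exp (seqaL B (k + 1)))
    (Real.exp (seqaL B k) / seqaL B k ^ (9 * B + 24)) (seqaL B k ^ (B + 3))
    (1 / seqaL B k ^ (B + 1)) ⌈seqaL B k ^ (6 * B + 14)⌉₊} with hbaddef
  set s : ℕ → Set Ω := fun k => if K1 ≤ k then bad k else ∅ with hs
  have hbound : ∀ k, P (s k) ≤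
      ENNReal.ofReal ((40 + 32 * C) * (1 / (k : ℝ) ^ (1 + (((B + 3 : ℕ) : ℝ)⁻¹)))) := by
    intro k
    by_cases hk : K1 ≤ k
    · have hML := hK1 k hk
      have h8 : 8 ≤ seqaL B k := hM8.trans hML
      obtain ⟨n1, n2, n3, n4⟩ := seqa_num B C (seqaL B k) hC h8 (hM2.trans hML) (hME _ hML)
      have hstep := seqa_exp_step B k (by linarith)
      have hsk : s k = bad k := by simp only [hs, if_pos hk]
      rw [hsk]
      have hp := hbad Ω P e h (Real.exp (seqaL B k)) (Real.exp (seqaL B (k + 1)))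
        (Real.exp (seqaL B k) / seqaL B k ^ (9 * B + 24)) (seqaL B k ^ (B + 3))
        (1 / seqaL B k ^ (B + 1)) ⌈seqaL B k ^ (6 * B + 14)⌉₊ n1
        (Real.exp_le_exp.2 (seqaL_mono B (Nat.le_succ k)))
        (by
          refine hstep.trans ?_
          have h4 : (4:ℝ) ≤ seqaL B k ^ (B + 2) := by
            calc (4:ℝ) ≤ 8 ^ 2 := by norm_num
              _ ≤ seqaL B k ^ 2 := pow_le_pow_left₀ (by norm_num) h8 2
              _ ≤ seqaL B k ^ (B + 2) := pow_le_pow_right₀ (by linarith) (by omega)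
          have h5 : 2 / seqaL B k ^ (B + 2) ≤ 2 / 4 :=
            div_le_div_of_nonneg_left (by norm_num) (by norm_num) h4
          apply mul_le_mul_of_nonneg_right _ (Real.exp_pos _).le
          linarith)
        n2 n3 (by positivity)
        (Nat.one_le_iff_ne_zero.2 (by
          have : 0 < seqaL B k ^ (6 * B + 14) := by positivity
          have := Nat.ceil_pos.2 this
          omega)) n4
      refine hp.trans (ENNReal.ofReal_le_ofReal ?_)
      exact seqa_prob B k C hC h8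
    · have hsk : s k = ∅ := by simp only [hs, if_neg hk]
      rw [hsk]; simp
  have hsum : Summable (fun k : ℕ => (40 + 32 * C) * (1 / (k : ℝ) ^ (1 + (((B + 3 : ℕ) : ℝ)⁻¹)))) := by
    apply Summable.mul_left
    apply Real.summable_one_div_nat_rpow.2
    have : (0:ℝ) < ((B + 3 : ℕ) : ℝ)⁻¹ := by positivity
    linarith
  have hfin : ∑' k, P (s k) ≠ ⊤ := by
    refine ne_top_of_le_ne_top hsum.tsum_ofReal_ne_top ?_
    exact ENNReal.tsum_le_tsum hbound
  have hBC := ae_eventually_notMem hfin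
  filter_upwards [hBC, rmf_sq h] with ω hω hsq
  obtain ⟨K0, hK0⟩ := Filter.eventually_atTop.1 hω
  set g : ℕ → ℂ := fun n => (rmf e ω n : ℂ) with hg
  have hg1 : ∀ n, ‖g n‖ ≤ 1 := by
    intro n
    simp only [hg]
    rw [Complex.norm_real]
    exact (hsq n).1
  -- the index of the scale
  have hidx : ∀ᶠ X : ℝ in atTop, (max K0 K1 : ℕ) ≤ ⌊Real.log X ^ (B + 3)⌋₊ ∧ 1 ≤ Real.log X
      ∧ 0 < X := by
    have h1 : Tendsto (fun X : ℝ => ⌊Real.log X ^ (B + 3)⌋₊) atTop atTop := by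
      refine tendsto_nat_floor_atTop.comp ?_
      exact (tendsto_pow_atTop (by omega)).comp Real.tendsto_log_atTop
    have h2 := h1.eventually_ge_atTop (max K0 K1)
    have h3 := Real.tendsto_log_atTop.eventually_ge_atTop 1
    filter_upwards [h2, h3, Filter.eventually_gt_atTop (0:ℝ)] with X a b c using ⟨a, b, c⟩
  filter_upwards [hidx] with Y hY H hH1 hH2
  obtain ⟨hk, hlog1, hY0⟩ := hY
  set k := ⌊Real.log Y ^ (B + 3)⌋₊ with hkdef
  have hkK1 : K1 ≤ k := (le_max_right _ _).trans hk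
  have hML := hK1 k hkK1
  have hgood : GoodAt g (Real.exp (seqaL B k)) (Real.exp (seqaL B (k + 1)))
    (Real.exp (seqaL B k) / seqaL B k ^ (9 * B + 24)) (seqaL B k ^ (B + 3))
    (1 / seqaL B k ^ (B + 1)) ⌈seqaL B k ^ (6 * B + 14)⌉₊ := by
    have h1 := hK0 k ((le_max_left _ _).trans hk)
    have h2 : s k = bad k := by simp only [hs, if_pos hkK1]
    rw [h2] at h1
    simp only [hbaddef] at h1
    by_contra hcon
    exact h1 hcon
  set L := seqaL B k with hL
  have h8 : 8 ≤ L := hM8.trans hML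
  have hL0 : 0 < L := by linarith
  have hL1 : 1 ≤ L := by linarith
  obtain ⟨n1, n2, n3, n4⟩ := seqa_num B C L hC h8 (hM2.trans hML) (hME _ hML)
  have hstep := seqa_exp_step B k (by linarith)
  rw [← hL] at hstep
  -- location of Y
  have hlogk : L ≤ Real.log Y := by
    have h1 : (k : ℝ) ≤ Real.log Y ^ (B + 3) := Nat.floor_le (by positivity)
    by_contra hcon
    push Not at hcon
    have h2 : Real.log Y ^ (B + 3) < L ^ (B + 3) :=
      pow_lt_pow_left₀ hcon (by linarith) (by omega)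
    rw [hL, seqaL_pow] at h2
    linarith
  have hlogk1 : Real.log Y ≤ seqaL B (k + 1) := by
    have h1 : Real.log Y ^ (B + 3) < k + 1 := Nat.lt_floor_add_one _
    by_contra hcon
    push Not at hcon
    have h2 : seqaL B (k + 1) ^ (B + 3) ≤ Real.log Y ^ (B + 3) :=
      pow_le_pow_left₀ (seqaL_nonneg B _) hcon.le _
    rw [seqaL_pow] at h2
    push_cast at h2
    linarith
  have hYe : Real.exp (Real.log Y) = Y := Real.exp_log hY0
  have hY1 : Real.exp L ≤ Y := by rw [← hYe]; exact Real.exp_le_exp.2 hlogk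
  have hY2 : Y ≤ Real.exp (seqaL B (k + 1)) := by
    rw [← hYe]; exact Real.exp_le_exp.2 hlogk1
  have h64 : (64:ℝ) ≤ L ^ (B + 2) := by
    calc (64:ℝ) = 8 ^ 2 := by norm_num
      _ ≤ L ^ 2 := pow_le_pow_left₀ (by norm_num) h8 2
      _ ≤ L ^ (B + 2) := pow_le_pow_right₀ hL1 (by omega)
  have hτ1 : 2 / L ^ (B + 2) ≤ 1 / 2 := by
    rw [div_le_div_iff₀ (by positivity) (by norm_num)]
    linarith
  have hexp := Real.exp_pos L
  have hHR : H ≤ Real.exp L / L ^ (9 * B + 24) := by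
    refine hH2.trans ?_
    have h1 : Y ≤ L * Real.exp L := by
      refine (hY2.trans hstep).trans ?_
      apply mul_le_mul_of_nonneg_right _ hexp.le
      linarith
    calc Y / Real.log Y ^ (9 * B + 25) ≤ (L * Real.exp L) / L ^ (9 * B + 25) := by
          apply div_le_div₀ (by positivity) h1 (by positivity)
          exact pow_le_pow_left₀ hL0.le hlogk _
      _ = Real.exp L / L ^ (9 * B + 24) := by
          have : L ^ (9 * B + 25) = L * L ^ (9 * B + 24) := by ring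
          rw [this]; field_simp
  have hlaw := GoodAt.law hg1 (τ := 2 / L ^ (B + 2)) hgood (by linarith)
    (Real.exp_le_exp.2 (seqaL_mono B (Nat.le_succ k))) hstep hτ1 n3
    (by
      calc (8:ℝ) ≤ L := h8
        _ = L ^ 1 := (pow_one L).symm
        _ ≤ L ^ (B + 3) := pow_le_pow_right₀ hL1 (by omega))
    (Nat.one_le_iff_ne_zero.2 (by
      have : 0 < L ^ (6 * B + 14) := by positivity
      have := Nat.ceil_pos.2 this
      omega))
    (by positivity)
    (by
      rw [div_le_one (by positivity)]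
      exact one_le_pow₀ hL1)
    hY1 hY2 hH1 hHR
  refine hlaw.trans ?_
  -- the error
  have hJ : 60 * (L ^ (B + 3)) ^ 2 / Real.sqrt (⌈L ^ (6 * B + 14)⌉₊ : ℕ) ≤ 60 / L ^ (B + 1) := by
    have h1 : L ^ (3 * B + 7) ≤ Real.sqrt (⌈L ^ (6 * B + 14)⌉₊ : ℕ) := by
      apply Real.le_sqrt_of_sq_le
      calc (L ^ (3 * B + 7)) ^ 2 = L ^ (6 * B + 14) := by ring
        _ ≤ _ := Nat.le_ceil _
    calc 60 * (L ^ (B + 3)) ^ 2 / Real.sqrt (⌈L ^ (6 * B + 14)⌉₊ : ℕ)
        ≤ 60 * (L ^ (B + 3)) ^ 2 / L ^ (3 * B + 7) := by gcongr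
      _ = 60 / L ^ (B + 1) := by
          have : L ^ (3 * B + 7) = (L ^ (B + 3)) ^ 2 * L ^ (B + 1) := by ring
          rw [this]; field_simp
  have hτ2 : 6 * (2 / L ^ (B + 2)) ≤ 12 * (1 / L ^ (B + 1)) := by
    have : 1 / L ^ (B + 2) ≤ 1 / L ^ (B + 1) :=
      one_div_le_one_div_of_le (by positivity) (pow_le_pow_right₀ hL1 (by omega))
    calc 6 * (2 / L ^ (B + 2)) = 12 * (1 / L ^ (B + 2)) := by ring
      _ ≤ _ := by linarith
  have htot : 2 * (1 / L ^ (B + 1) + 60 * (L ^ (B + 3)) ^ 2 / Real.sqrt (⌈L ^ (6 * B + 14)⌉₊ : ℕ))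
      + 6 * (2 / L ^ (B + 2)) ≤ 134 * (1 / L ^ (B + 1)) := by
    have : 60 / L ^ (B + 1) = 60 * (1 / L ^ (B + 1)) := by ring
    rw [this] at hJ
    linarith
  refine htot.trans ?_
  have hlog2 : Real.log Y ≤ 2 * L := by
    have h1 := seqaL_step B k (by linarith)
    rw [← hL] at h1
    have h2 : 1 / L ^ (B + 2) ≤ 1 := by
      rw [div_le_one (by positivity)]; exact one_le_pow₀ hL1
    linarith
  have h1 : Real.log Y ^ B ≤ (2 * L) ^ B := pow_le_pow_left₀ (by linarith) hlog2 B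
  have h2 : 1 / (2 * L) ^ B ≤ 1 / Real.log Y ^ B := one_div_le_one_div_of_le (by positivity) h1
  refine le_trans ?_ h2
  have h3 : 134 * 2 ^ B ≤ L := hM134.trans hML
  rw [mul_one_div, div_le_div_iff₀ (by positivity) (by positivity), mul_pow]
  calc 134 * (2 ^ B * L ^ B) = (134 * 2 ^ B) * L ^ B := by ring
    _ ≤ L * L ^ B := mul_le_mul_of_nonneg_right h3 (by positivity)
    _ = 1 * L ^ (B + 1) := by ring

end Pool.Agent.H18.RM
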